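import Pool.Agent.Lib.Pa76659B.Defs

/-!
MODULE AB: the dichotomy steady or readable.

`chj G j` chooses the `j`-th name of each group. PROOF. Suppose (A) fails: for each `j < G` there are
`θ j, z j`, a new name `v = γ j` (valid for `thinM G m`, so `γ j = (i, g :: u)`) such that more than
`E'` values `y` satisfy `f θ (patch .. (update (z j) v (some y))) ≠ f θ (patch .. (update (z j) v none))`.
Let `X j = patch .. (update (z j) v none)` (an old world) and `c j = (i, (g * G + j) :: u)` the old name
controlled by `v`: `patch .. (update (z j) v o) = update (X j) (c j) o` and `X j = update (X j) (c j) none`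
(cf. `Pa76659H.patch_sel`). By `h1` the value at `none` is `false` (else at most `E'` values differ), so
`Y j := {y | f (θ j) (update (X j) (c j) (some y)) = true}` has more than `E'` elements.
`T j` = tree of `f (θ j)` (depth ≤ D). `Pth j := ⋃ o, path of T j at update (X j) (c j) o` (toFinset),
card ≤ (N + 1) * D ≤ K. LAYER `j` = valid old names `(i, a :: u)` with `a % G = j`; `X j` equals
`some 0` outside layer `j`, and `c j` is in layer `j`. Choose by `Pa76659H.select` with `A := ℕ`,
`Q := Unit`, `Γ := Empty`, `Good := range G`, `cert a := the set of inl j' such that Pth a meets layer j'`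
(card ≤ K: each element of `Pth a` lies in at most one layer) a set `S ⊆ range G` with `M ≤ S.card`
and `Pth a` not meeting layer `a'` for `a ≠ a'` in `S`.
`X v := X j v` if `v` lies in layer `j` for some `j ∈ S` (j = a % G), else `some 0`. For `o` as stated and
`j ∈ S` the world `put S c o X` agrees with `update (X j) (c j) (o j)` on
`Pth j`: a variable of `Pth j` in layer `j` has value `X j v` (or `o j` at `c j`), a variable of
`Pth j` in no layer of `S` has value `some 0` in both. So `f (θ j)` is `(o j).isSome` there (`MT.eval_path`).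
-/

set_option maxHeartbeats 4000000

namespace Pool.Agent.Lib.Pa76659B

open Pool.Agent.Lib.Pa76659 Pool.Agent.Lib.Pa76659H

/-- the `j`-th name of the group -/
def chj (G j : ℕ) : Var → ℕ
  | (_, []) => 0
  | (_, g :: _) => g * G + j

open Classical in
/-- the world with the values `o j` at the names `c j`, `j ∈ S` -/
noncomputable def put {N : ℕ} (S : Finset ℕ) (c : ℕ → Var) (o : ℕ → Option (Fin N))
    (X : Var → Option (Fin N)) : Var → Option (Fin N) := fun v =>
  if h : ∃ j ∈ S, v = c j then o h.choose else X v

namespace ABAux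

/-- the layer of an old name -/
def lay (G : ℕ) : Var → ℕ
  | (_, []) => G
  | (_, a :: _) => a % G

/-- the old name controlled by the new name `v` -/
def old (G j : ℕ) (v : Var) : Var := (v.1, chj G j v :: v.2.tail)

theorem lay_old {G j : ℕ} (hj : j < G) {v : Var} (hv : v.2 ≠ []) : lay G (old G j v) = j := by
  obtain ⟨i, l⟩ := v
  cases l with
  | nil => exact absurd rfl hv
  | cons g u =>
    simp only [old, chj, lay]
    rw [Nat.mul_comm, Nat.mul_add_mod, Nat.mod_eq_of_lt hj]

theorem vld_old' {I : Finset ℕ} {k : ℕ → ℕ} {m : ℕ → ℕ → ℕ} {G j : ℕ} (hj : j < G) {v : Var}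
    (hv : v.2 ≠ []) (h : Vld I k (thinM G m) v) : Vld I k m (old G j v) := by
  obtain ⟨i, l⟩ := v
  cases l with
  | nil => exact absurd rfl hv
  | cons g u =>
    simp only [old, chj, List.tail_cons]
    exact Thin.vld_old h (by rw [Nat.add_mul, Nat.one_mul]; omega)

theorem patch_upd {α : Type} {I : Finset ℕ} {k : ℕ → ℕ} {m : ℕ → ℕ → ℕ} {G j : ℕ} (hj : j < G)
    (x0 z : Var → α) (a0 o : α) {v : Var} (hv : v.2 ≠ []) (h : Vld I k (thinM G m) v) :
    patch I k m G (chj G j) x0 (Function.update z v o) =
      Function.update (patch I k m G (chj G j) x0 (Function.update z v a0)) (old G j v) o := by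
  obtain ⟨i, l⟩ := v
  cases l with
  | nil => exact absurd rfl hv
  | cons g u =>
    have hG : 0 < G := by omega
    have hdiv : (g * G + j) / G = g := by
      rw [Nat.mul_comm, Nat.mul_add_div hG, Nat.div_eq_of_lt hj, Nat.add_zero]
    funext w
    obtain ⟨i', l'⟩ := w
    cases l' with
    | nil =>
      rw [Function.update_of_ne (by simp [old])]
      simp only [patch]
    | cons a u' =>
      by_cases hw : (i', a :: u') = old G j (i, g :: u)
      · rw [hw, Function.update_self]
        simp only [old, chj, List.tail_cons, patch]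
        rw [hdiv, if_pos ⟨h, rfl⟩, Function.update_self]
      · rw [Function.update_of_ne hw]
        simp only [patch]
        by_cases hc : Vld I k (thinM G m) (i', (a / G) :: u') ∧ a = chj G j (i', (a / G) :: u')
        · rw [if_pos hc, if_pos hc]
          have hne : (i', (a / G) :: u') ≠ (i, g :: u) := by
            intro he
            apply hw
            simp only [Prod.mk.injEq, List.cons.injEq] at he
            obtain ⟨h1, h2, h3⟩ := he
            have h4 := hc.2
            simp only [chj] at h4
            simp only [old, chj, List.tail_cons]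
            rw [h2] at h4
            rw [h1, h3, ← h4]
          rw [Function.update_of_ne hne, Function.update_of_ne hne]
        · rw [if_neg hc, if_neg hc]

theorem patch_lay {α : Type} {I : Finset ℕ} {k : ℕ → ℕ} {m : ℕ → ℕ → ℕ} {G j : ℕ} (hj : j < G)
    (x0 z : Var → α) {v : Var} (hv : lay G v ≠ j) :
    patch I k m G (chj G j) x0 z v = x0 v := by
  obtain ⟨i, l⟩ := v
  cases l with
  | nil => simp only [patch]
  | cons a u =>
    simp only [patch]
    rw [if_neg]
    rintro ⟨-, h⟩
    apply hv
    simp only [chj] at h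
    simp only [lay]
    rw [h, Nat.mul_comm, Nat.mul_add_mod, Nat.mod_eq_of_lt hj]

end ABAux

open ABAux

theorem ab {N : ℕ} (I : Finset ℕ) (k : ℕ → ℕ) (m : ℕ → ℕ → ℕ) (G D E' K M : ℕ) {Θ : Type}
    (f : Θ → (Var → Option (Fin N)) → Bool) (hk : ∀ i ∈ I, 1 ≤ k i) (hN : 1 ≤ N)
    (hmt : ∀ θ, ∃ T : MT Var (Option (Fin N)) Bool, T.dle D ∧ ∀ x, f θ x = T.eval x)
    (h1 : ∀ θ x v, Vld I k m v → f θ (Function.update x v none) = true →
      (Finset.univ.filter (fun y : Fin N =>
        f θ (Function.update x v (some y)) = false)).card ≤ E')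
    (hK : (N + 1) * D ≤ K) (hG : 2 * (2 * K + 1) * M ≤ G) (hG1 : 1 ≤ G) :
    (∃ j < G, ∀ θ, Steady (Vld I k (thinM G m)) E'
      (fun z => f θ (patch I k m G (chj G j) (fun _ => some ⟨0, hN⟩) z))) ∨
    ∃ (S : Finset ℕ) (c : ℕ → Var) (Y : ℕ → Finset (Fin N)) (θ : ℕ → Θ)
      (X : Var → Option (Fin N)), M ≤ S.card ∧ (∀ j ∈ S, Vld I k m (c j)) ∧
      Set.InjOn c S ∧ (∀ j ∈ S, E' < (Y j).card) ∧
      ∀ o : ℕ → Option (Fin N), (∀ j ∈ S, ∀ y, o j = some y → y ∈ Y j) →
        ∀ j ∈ S, f (θ j) (put S c o X) = (o j).isSome := by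
  classical
  by_cases hA : ∃ j < G, ∀ θ, Steady (Vld I k (thinM G m)) E'
      (fun z => f θ (patch I k m G (chj G j) (fun _ => some ⟨0, hN⟩) z))
  · exact Or.inl hA
  right
  push Not at hA
  have hΘ : Nonempty Θ := by
    obtain ⟨θ, -⟩ := hA 0 hG1
    exact ⟨θ⟩
  have hx : ∀ j, ∃ (θ : Θ) (z : Var → Option (Fin N)) (γ : Var), j < G →
      Vld I k (thinM G m) γ ∧ E' < (Finset.univ.filter (fun y : Fin N =>
        f θ (patch I k m G (chj G j) (fun _ => some ⟨0, hN⟩) (Function.update z γ (some y))) ≠
        f θ (patch I k m G (chj G j) (fun _ => some ⟨0, hN⟩) (Function.update z γ none)))).card := by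
    intro j
    by_cases hj : j < G
    · obtain ⟨θ, hθ⟩ := hA j hj
      unfold Steady at hθ
      push Not at hθ
      obtain ⟨z, v, h1, h2⟩ := hθ
      exact ⟨θ, z, v, fun _ => ⟨h1, h2⟩⟩
    · exact ⟨Classical.arbitrary Θ, fun _ => none, (0, []), fun h => absurd h hj⟩
  choose θ z γ hh using hx
  have hγne : ∀ j, j < G → (γ j).2 ≠ [] := by
    intro j hj h
    obtain ⟨⟨h2, h3, -⟩, -⟩ := hh j hj
    have h4 := hk _ h2
    rw [h] at h3
    simp only [List.length_nil] at h3
    omega
  obtain ⟨X, hX⟩ : ∃ X : ℕ → Var → Option (Fin N), ∀ j, X j =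
      patch I k m G (chj G j) (fun _ => some ⟨0, hN⟩) (Function.update (z j) (γ j) none) :=
    ⟨_, fun _ => rfl⟩
  obtain ⟨c, hc⟩ : ∃ c : ℕ → Var, ∀ j, c j = old G j (γ j) := ⟨_, fun _ => rfl⟩
  have hupd : ∀ j, j < G → ∀ o, patch I k m G (chj G j) (fun _ => some ⟨0, hN⟩)
      (Function.update (z j) (γ j) o) = Function.update (X j) (c j) o := by
    intro j hj o
    rw [hX, hc]
    exact patch_upd hj _ _ none o (hγne j hj) (hh j hj).1
  have hcV : ∀ j, j < G → Vld I k m (c j) := by
    intro j hj
    rw [hc]
    exact vld_old' hj (hγne j hj) (hh j hj).1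
  have hclay : ∀ j, j < G → lay G (c j) = j := by
    intro j hj
    rw [hc]
    exact lay_old hj (hγne j hj)
  have hXlay : ∀ j, j < G → ∀ v, lay G v ≠ j → X j v = some ⟨0, hN⟩ := by
    intro j hj v hv
    rw [hX]
    exact patch_lay hj _ _ hv
  have hcard : ∀ j, j < G → E' < (Finset.univ.filter (fun y : Fin N =>
      f (θ j) (Function.update (X j) (c j) (some y)) ≠
        f (θ j) (Function.update (X j) (c j) none))).card := by
    intro j hj
    have h := (hh j hj).2
    simpa only [hupd j hj] using h
  have hnone : ∀ j, j < G → f (θ j) (Function.update (X j) (c j) none) = false := by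
    intro j hj
    by_contra hne
    rw [Bool.not_eq_false] at hne
    have h2 := h1 (θ j) (X j) (c j) (hcV j hj) hne
    have h3 := hcard j hj
    rw [hne] at h3
    simp only [ne_eq, Bool.not_eq_true] at h3
    omega
  obtain ⟨Y, hY⟩ : ∃ Y : ℕ → Finset (Fin N), ∀ j, Y j = Finset.univ.filter (fun y : Fin N =>
      f (θ j) (Function.update (X j) (c j) (some y)) = true) := ⟨_, fun _ => rfl⟩
  have hYc : ∀ j, j < G → E' < (Y j).card := by
    intro j hj
    have h3 := hcard j hj
    rw [hnone j hj] at h3
    simp only [ne_eq, Bool.not_eq_false] at h3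
    rw [hY]
    exact h3
  choose T hTd hTe using fun j => hmt (θ j)
  obtain ⟨Pth, hPth⟩ : ∃ Pth : ℕ → Finset Var, ∀ j, Pth j = Finset.univ.biUnion
      (fun o : Option (Fin N) => ((T j).path (Function.update (X j) (c j) o)).toFinset) :=
    ⟨_, fun _ => rfl⟩
  have hPc : ∀ j, (Pth j).card ≤ K := by
    intro j
    rw [hPth]
    refine Finset.card_biUnion_le.trans ?_
    have h2 : ∀ o ∈ (Finset.univ : Finset (Option (Fin N))),
        ((T j).path (Function.update (X j) (c j) o)).toFinset.card ≤ D := fun o _ =>
      (List.toFinset_card_le _).trans (MT.path_length _ (hTd j))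
    refine (Finset.sum_le_sum h2).trans ?_
    rw [Finset.sum_const, Finset.card_univ, Fintype.card_option, Fintype.card_fin, smul_eq_mul]
    exact hK
  obtain ⟨-, S, hSG, hSM, -, -, hSind⟩ := select (A := ℕ) (Q := Unit) (Γ := Empty)
    (Finset.range G) (fun j => (Pth j).image (fun v => Sum.inl (lay G v))) K
    (fun j _ => Finset.card_image_le.trans (hPc j)) ∅ (fun _ => ∅) (by simp) (by simp) M
    (by rw [Finset.card_range]; exact hG)
  have hSlt : ∀ j ∈ S, j < G := fun j hj => Finset.mem_range.1 (hSG hj)
  refine ⟨S, c, Y, θ, fun v => if lay G v ∈ S then X (lay G v) v else some ⟨0, hN⟩, hSM,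
    fun j hj => hcV j (hSlt j hj), ?_, fun j hj => hYc j (hSlt j hj), ?_⟩
  · intro j hj j' hj' he
    have h2 := hclay j (hSlt j hj)
    have h3 := hclay j' (hSlt j' hj')
    rw [he, h3] at h2
    exact h2.symm
  · intro o ho j hj
    have hjG := hSlt j hj
    have key : f (θ j) (put S c o (fun v => if lay G v ∈ S then X (lay G v) v else
        some ⟨0, hN⟩)) = f (θ j) (Function.update (X j) (c j) (o j)) := by
      rw [hTe, hTe]
      refine MT.eval_path fun v hv => ?_
      have hvP : v ∈ Pth j := by
        rw [hPth]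
        exact Finset.mem_biUnion.2 ⟨o j, Finset.mem_univ _, List.mem_toFinset.2 hv⟩
      have hlay : ∀ j' ∈ S, lay G v = j' → j' = j := by
        intro j' hj' hl
        by_contra hne
        refine hSind j hj j' hj' hne (Finset.mem_image.2 ⟨v, hvP, ?_⟩)
        rw [hl]
      unfold put
      by_cases hex : ∃ j' ∈ S, v = c j'
      · rw [dif_pos hex]
        have h2 := hex.choose_spec
        have h3 : hex.choose = j := by
          refine hlay _ h2.1 ?_
          have h4 := hclay _ (hSlt _ h2.1)
          rw [← h2.2] at h4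
          exact h4
        have h4 : v = c j := by
          have h5 := h2.2
          rw [h3] at h5
          exact h5
        rw [h3, h4, Function.update_self]
      · rw [dif_neg hex]
        have hvc : v ≠ c j := fun he => hex ⟨j, hj, he⟩
        rw [Function.update_of_ne hvc]
        beta_reduce
        by_cases hl : lay G v ∈ S
        · have h2 := hlay _ hl rfl
          rw [if_pos hl, h2]
        · rw [if_neg hl]
          refine (hXlay j hjG v fun he => hl ?_).symm
          rw [he]
          exact hj
    rw [key]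
    cases hoj : o j with
    | none => rw [hnone j hjG]; rfl
    | some y =>
      have h2 := ho j hj y hoj
      rw [hY, Finset.mem_filter] at h2
      rw [h2.2]
      rfl

end Pool.Agent.Lib.Pa76659B
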