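import Pool.Agent.Lib.Pa76659B.Defs

/-!
MODULE RsLem: changes of variables of the worlds.

`Pre.gen` is `Inv.reparam` of Pa76659H/Frame.lean (F and C at `fun z => YY (ρ z)` are F and C at `ρ z`
by definition; for `mt`, `low` use `MT.exists_comap ρ h1`; for `dep` use `h2` and the old `dep`).
`Rs.val`: from `upd` with `o := z v'` (`Function.update_eq_self`).
`Pre.rs`: `Pre.gen` with `R' i v' := R i v`, `v` from `upd`; `h2` follows from `src`.
`Steady.rs`: `ρ (update z v' (some y)) = update (ρ z) v (some y)` and the same for none.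
`patch_rs`: see `Inv.thinning`, `patch_tr`, `patch_sel` in Pa76659H/Step.lean.
`st_zero`: literals are 1-steady (`Steady.lit`); for `tl (col i) y < V 0 = n` the value depends only on
the frozen part (`Gd.congr`, `Phi_below`).
-/

set_option maxHeartbeats 4000000

namespace Pool.Agent.Lib.Pa76659B

open Pool.Agent.Lib.Pa76659 Pool.Agent.Lib.Pa76659H Pool.Agent.Lib.Pa76659.Hier

variable {Γ : Ctx} {i0 lv D E : ℕ} {m m' m'' : ℕ → ℕ → ℕ}
  {τ : ℕ → Str → Option (DT Str Bool)} {YY : Γ.W → Lang} {R : ℕ → Var → DT Str (Option (Fin Γ.N))}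
  {ρ ρ' : Γ.W → Γ.W}

theorem Rs.refl : Rs Γ i0 m m id := by
  refine ⟨fun v => ⟨v, fun z z' h => h⟩, fun v hv => Or.inr ⟨v, hv, fun z => rfl⟩,
    fun v' hv => ⟨v', hv, fun z o => rfl⟩, fun i hi z => rfl⟩

theorem Rs.trans (h : Rs Γ i0 m m' ρ) (h' : Rs Γ i0 m' m'' ρ') :
    Rs Γ i0 m m'' (fun z => ρ (ρ' z)) := by
  refine ⟨fun v => ?_, fun v hv => ?_, fun v'' hv => ?_, fun i hi z => ?_⟩
  · obtain ⟨v', h1⟩ := h.one v
    obtain ⟨v'', h2⟩ := h'.one v'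
    exact ⟨v'', fun z z' hz => h1 _ _ (h2 _ _ hz)⟩
  · rcases h.src v hv with ⟨c, hc⟩ | ⟨v', hv', h1⟩
    · exact Or.inl ⟨c, fun z => hc _⟩
    · rcases h'.src v' hv' with ⟨c, hc⟩ | ⟨v'', hv'', h2⟩
      · exact Or.inl ⟨c, fun z => (h1 _).trans (hc _)⟩
      · exact Or.inr ⟨v'', hv'', fun z => (h1 _).trans (h2 _)⟩
  · obtain ⟨v', hv', h2⟩ := h'.upd v'' hv
    obtain ⟨v, hv1, h1⟩ := h.upd v' hv'
    exact ⟨v, hv1, fun z o => by rw [h2, h1]⟩
  · exact (h.tr i hi (ρ' z)).trans (h'.tr i hi z)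

theorem Rs.val (h : Rs Γ i0 m m' ρ) (v' : Var) (hv : Γ.P i0 m' v') :
    ∃ v, Γ.P i0 m v ∧ ∀ z, ρ z v = z v' := by
  obtain ⟨v, hv1, h1⟩ := h.upd v' hv
  refine ⟨v, hv1, fun z => ?_⟩
  have h2 := h1 z (z v')
  rw [Function.update_eq_self] at h2
  have h3 := congrFun h2 v
  rwa [Function.update_self] at h3

theorem Pre.mono {D' : ℕ} (h : Pre Γ i0 lv D m τ YY R) (hD : D ≤ D') :
    Pre Γ i0 lv D' m τ YY R := by
  refine ⟨h.le, h.dep, fun v => ?_, h.tab1, h.tab0, h.tab, fun i hi hl y hy => ?_, h.lvl, h.read⟩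
  · obtain ⟨T, h1, h2⟩ := h.mt v
    exact ⟨T, MT.dle_mono h1 hD, h2⟩
  · obtain ⟨T, h1, h2⟩ := h.low i hi hl y hy
    exact ⟨T, MT.dle_mono h1 hD, h2⟩

theorem Pre.gen (h : Pre Γ i0 lv D m τ YY R) {i1 : ℕ} (hi1 : i0 ≤ i1) (hi2 : i1 ≤ Γ.J)
    (hlv : ∀ i < Γ.J, i < i1 → (Γ.col i).m ≤ lv) (ρ : Γ.W → Γ.W)
    (h1 : ∀ v, ∃ v', ∀ z z' : Γ.W, z v' = z' v' → ρ z v = ρ z' v)
    (h2 : ∀ z z' : Γ.W, (∀ v, Γ.P i1 m' v → z v = z' v) → ∀ v, Γ.P i0 m v → ρ z v = ρ z' v)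
    {R' : ℕ → Var → DT Str (Option (Fin Γ.N))}
    (hR : ∀ i < i1, (Γ.col i).lo = false → ∀ v, Γ.P i1 m' v →
      (∀ z, (R' i v).eval (Γ.C τ YY i (ρ z)) = z v) ∧
      (R' i v).QIn (Γ.Q i) ∧ (R' i v).depth ≤ (Γ.ν + 1) * Γ.n ^ (Γ.col i).bM) :
    Pre Γ i1 lv D m' τ (fun z => YY (ρ z)) R' := by
  refine ⟨hi2, fun x x' hx => h.dep _ _ (h2 x x' hx), fun v => ?_, h.tab1, h.tab0,
    fun i hi y T hT => ?_, fun i hi hl y hy => ?_, fun i hi => ?_, hR⟩
  · obtain ⟨T, h3, h4⟩ := h.mt v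
    obtain ⟨T', h5, h6⟩ := MT.exists_comap ρ h1 h3
    exact ⟨T', h5, fun x => (h4 (ρ x)).trans (h6 x).symm⟩
  · obtain ⟨h3, h4, h5, h6⟩ := h.tab i hi y T hT
    exact ⟨fun z => h3 (ρ z), h4, h5, fun h7 => h6 (hi1.trans h7)⟩
  · obtain ⟨T, h3, h4⟩ := h.low i hi hl y hy
    obtain ⟨T', h5, h6⟩ := MT.exists_comap ρ h1 h3
    exact ⟨T', h5, fun x => (h4 (ρ x)).trans (h6 x).symm⟩
  · exact ⟨hlv i hi, fun h7 => (h.lvl i hi).2 (hi1.trans h7)⟩

theorem Pre.rs (h : Pre Γ i0 lv D m τ YY R) (hρ : Rs Γ i0 m m' ρ) :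
    ∃ R', Pre Γ i0 lv D m' τ (fun z => YY (ρ z)) R' := by
  classical
  have hex : ∀ v', ∃ v, Γ.P i0 m' v' → (Γ.P i0 m v ∧ ∀ z, ρ z v = z v') := by
    intro v'
    by_cases hv : Γ.P i0 m' v'
    · obtain ⟨v, h1⟩ := hρ.val v' hv
      exact ⟨v, fun _ => h1⟩
    · exact ⟨v', fun h => absurd h hv⟩
  choose φ hφ using hex
  refine ⟨fun i v' => R i (φ v'), h.gen le_rfl h.le (fun i hi hlt => (h.lvl i hi).1 hlt) ρ
    hρ.one ?_ ?_⟩
  · intro z z' hz v hv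
    rcases hρ.src v hv with ⟨c, hc⟩ | ⟨v', hv', h1⟩
    · rw [hc, hc]
    · rw [h1, h1, hz v' hv']
  · intro i hi hl v' hv'
    obtain ⟨h1, h2⟩ := hφ v' hv'
    obtain ⟨a1, a2, a3⟩ := h.read i hi hl _ h1
    exact ⟨fun z => (a1 (ρ z)).trans (h2 z), a2, a3⟩

theorem Steady.rs {g : Γ.W → Bool} (h : Steady (Γ.P i0 m) E g) (hρ : Rs Γ i0 m m' ρ) :
    Steady (Γ.P i0 m') E (fun z => g (ρ z)) := by
  intro x v' hv
  obtain ⟨v, hv1, h1⟩ := hρ.upd v' hv
  have h2 := h (ρ x) v hv1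
  simp only [h1]
  exact h2

theorem St.rs (h : St Γ i0 lv E m τ YY) (hρ : Rs Γ i0 m m' ρ) :
    St Γ i0 lv E m' τ (fun z => YY (ρ z)) :=
  ⟨fun v => (h.fr v).rs hρ, fun i hi hl y hy => (h.low i hi hl y hy).rs hρ⟩

theorem patch_tr_rs (hΓ : Γ.OK) {G : ℕ} {ch : Var → ℕ} {x0 : Γ.W} (hG : 1 ≤ G)
    (hx0 : ∀ v, (x0 v).isSome)
    (hch : ∀ i u g, Vld (Finset.Icc i0 Γ.J) Γ.k (thinM G m) (i, g :: u) →
      g * G ≤ ch (i, g :: u) ∧ ch (i, g :: u) < (g + 1) * G) (i : ℕ)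
    (hi : i ∈ Finset.Icc i0 Γ.J) (z : Γ.W) :
    tr (m i) (Γ.k i) (fun u => (patch (Finset.Icc i0 Γ.J) Γ.k m G ch x0 z (i, u)).isSome) [] =
      tr (thinM G m i) (Γ.k i) (fun u => (z (i, u)).isSome) [] := by
  have hk1 := hΓ.hk1 i (Finset.mem_Icc.1 hi).2
  apply tr_thin _ hk1
  · intro u hu hv
    have hvld : ∀ g, g < m i 0 / G → Vld (Finset.Icc i0 Γ.J) Γ.k (thinM G m) (i, g :: u) := by
      intro g hg
      refine ⟨hi, by simpa using hu, ?_, (Thin.VP_thinM u 1 le_rfl).2 hv⟩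
      rw [Thin.thinM_zero]; exact hg
    constructor
    · rintro ⟨a, ha, h1⟩
      simp only [patch] at h1
      split_ifs at h1 with h2
      · exact ⟨a / G, h2.1.2.2.1, h1⟩
      · have := hx0 (i, a :: u)
        rw [h1] at this
        simp at this
    · rintro ⟨g, hg, h1⟩
      rw [Thin.thinM_zero] at hg
      obtain ⟨h2, h3, h4⟩ := patch_sel x0 z hG hch (hvld g hg)
      exact ⟨_, h4.2.2.1, by rw [h3]; exact h1⟩
  · intro j hj
    unfold thinM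
    rw [Function.update_of_ne (by omega)]

theorem patch_rs (hΓ : Γ.OK) {G : ℕ} {ch : Var → ℕ} {x0 : Γ.W} (hG : 1 ≤ G)
    (hx0 : ∀ v, (x0 v).isSome)
    (hch : ∀ i u g, Vld (Finset.Icc i0 Γ.J) Γ.k (thinM G m) (i, g :: u) →
      g * G ≤ ch (i, g :: u) ∧ ch (i, g :: u) < (g + 1) * G) :
    Rs Γ i0 m (thinM G m) (fun z => patch (Finset.Icc i0 Γ.J) Γ.k m G ch x0 z) := by
  classical
  refine ⟨?_, ?_, ?_, fun i hi z => patch_tr_rs hΓ hG hx0 hch i hi z⟩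
  · rintro ⟨i, u⟩
    rcases u with _ | ⟨a, u⟩
    · exact ⟨(i, []), fun z z' _ => rfl⟩
    · refine ⟨(i, (a / G) :: u), fun z z' hz => ?_⟩
      simp only [patch]
      rw [hz]
  · rintro ⟨i, u⟩ hv
    obtain ⟨h1, h2, h3⟩ := hv
    have hk1 := hΓ.hk1 i (Finset.mem_Icc.1 h1).2
    rcases u with _ | ⟨a, u⟩
    · simp only [List.length_nil] at h2
      omega
    · by_cases hc : Vld (Finset.Icc i0 Γ.J) Γ.k (thinM G m) (i, (a / G) :: u) ∧
        a = ch (i, (a / G) :: u)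
      · right
        refine ⟨(i, (a / G) :: u), hc.1, fun z => ?_⟩
        simp only [patch]
        rw [if_pos hc]
      · left
        refine ⟨x0 (i, a :: u), fun z => ?_⟩
        simp only [patch]
        rw [if_neg hc]
  · rintro ⟨i, u⟩ hv
    have hk1 := hΓ.hk1 i (Finset.mem_Icc.1 hv.1).2
    rcases u with _ | ⟨g, u⟩
    · have := hv.2.1
      simp only [List.length_nil] at this
      omega
    · obtain ⟨e1, -, e3⟩ := patch_sel x0 x0 hG hch hv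
      refine ⟨(i, ch (i, g :: u) :: u), e3, fun z o => ?_⟩
      funext w
      obtain ⟨j, t⟩ := w
      rcases t with _ | ⟨a, t⟩
      · rw [Function.update_of_ne (by simp)]
        rfl
      · by_cases hw : ((j, a :: t) : Var) = (i, ch (i, g :: u) :: u)
        · rw [hw, Function.update_self]
          obtain ⟨-, e4, -⟩ := patch_sel x0 (Function.update z (i, g :: u) o) hG hch hv
          rw [e4, Function.update_self]
        · rw [Function.update_of_ne hw]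
          simp only [patch]
          split_ifs with hc
          · rw [Function.update_of_ne]
            intro he
            apply hw
            have h5 := hc.2
            rw [he] at h5
            have h6 : j = i := congrArg Prod.fst he
            have h7 : (a / G) :: t = g :: u := congrArg Prod.snd he
            have h8 : t = u := (List.cons.inj h7).2
            rw [h6, h5, h8]
          · rfl

theorem thinM_shp2 {Nb t : ℕ} (hN : 1 ≤ Nb) {ee : ℕ → ℕ → ℕ} (h : ∀ i, t ≤ ee i 0) :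
    thinM (Nb ^ t) (shp Nb ee) = shp Nb (decT t ee) := by
  funext i h'
  unfold thinM shp decT
  rcases Nat.eq_zero_or_pos h' with h0 | h0
  · subst h0
    rw [Function.update_self, Function.update_self, Nat.pow_div (h i) (by omega)]
  · rw [Function.update_of_ne (by omega), Function.update_of_ne (by omega)]

end Pool.Agent.Lib.Pa76659B
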