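import Pool.Agent.Lib.Pa76659B.Bits
import Pool.Agent.Lib.Pa76659B.RsLem

/-!
MODULE Branch: a family of worlds for the condition with the columns before `e` only, which agrees
with the given family below `V lv`.

`rhoB z` puts at the old name `cN u` (`u` a leaf of the new tree) the value of the new name `(e, u)`,
transported by the injection `em u : Fin N' → Fin N`, and the constant world `X` elsewhere.
DATA: `YY' z v := if v.length < V lv then F τ YY (rhoB z) v else false`,
`τ' j y := τ j y` if `j = (col i).j` for some `i < e` with `tl (col i) y < V lv`, else `none`,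
`R' i (_, u) := (R i (cN u)).bind (fun o => DT.leaf (dec u o))` with `dec u` a left inverse of
`Option.map (em u)`.
AGREEMENT (third conclusion): strong induction on the length of `v < V lv`: below `n` both are `σ`;
string of a table of a column `i < e`: `Phi_tab` in both conditions, `n ≤ tl`: same entry
(`τ' = τ` there, for low columns none in both), none: `nEval` only sees shorter strings
(`Gd.congr`); not a table string of a column `< e` (`Free (Γ.qq e)`): the left side is
`YY' z v = F (rhoB z) v`.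
FIELDS: dep: `rhoB z` depends only on the valid names. mt, low: `MT.exists_comap (rhoB ..)` applied
to `Pre.bits` resp. the old `low` (each old name depends on at most one new name); values with
`tl < V lv` agree by the agreement below `V lv` (`Gd.view_lt`). tab: `T` is the old tree; `C` agrees on `Q i`
(`join_hs_congr`, `(col i).m ≤ (col e).m ≤ lv` by `hcm`). read: value of the old name `cN u` at
`rhoB z` is `(z (e, u)).map (em u)`. lvl: `i < e → m_i ≤ m_e ≤ lv`. `Γ'.k e = K` (`Function.update_self`).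
STEADY: for new valid `(e, u)`, `rhoB (update z (e, u) none) = update (rhoB z) (cN u) none` and
`rhoB (update z (e, u) (some y)) = update (rhoB z) (cN u) (some (em u y))`, and `em u` is injective, so
the number of bad `y` does not grow (`Finset.card_le_card_of_injOn`).
-/

set_option maxHeartbeats 4000000

namespace Pool.Agent.Lib.Pa76659B

open Pool.Agent.Lib.Pa76659 Pool.Agent.Lib.Pa76659H Pool.Agent.Lib.Pa76659.Hier

/-- leaves of the tree of height `K` with fan-ins `sh` -/
def Lf (K : ℕ) (sh : ℕ → ℕ) (u : List ℕ) : Prop := u.length = K ∧ VP sh 0 u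

open Classical in
noncomputable def rhoB {N N' : ℕ} (e K : ℕ) (sh : ℕ → ℕ) (cN : List ℕ → Var)
    (em : List ℕ → Fin N' → Fin N) (X : Var → Option (Fin N)) (z : Var → Option (Fin N')) :
    Var → Option (Fin N) := fun v =>
  if h : ∃ u, Lf K sh u ∧ v = cN u then (z (e, h.choose)).map (em h.choose) else X v

namespace BranchAux

section rho

variable {N N' : ℕ} {e K : ℕ} {sh : ℕ → ℕ} {cN : List ℕ → Var}
  {em : List ℕ → Fin N' → Fin N} {X : Var → Option (Fin N)}

theorem rho_at (hc2 : ∀ u u', Lf K sh u → Lf K sh u' → cN u = cN u' → u = u')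
    (z : Var → Option (Fin N')) {u : List ℕ} (hu : Lf K sh u) :
    rhoB e K sh cN em X z (cN u) = (z (e, u)).map (em u) := by
  unfold rhoB
  have h : ∃ u', Lf K sh u' ∧ cN u = cN u' := ⟨u, hu, rfl⟩
  rw [dif_pos h]
  have e1 : u = h.choose := hc2 _ _ hu h.choose_spec.1 h.choose_spec.2
  rw [← e1]

theorem rho_off (z : Var → Option (Fin N')) {v : Var} (hv : ¬ ∃ u, Lf K sh u ∧ v = cN u) :
    rhoB e K sh cN em X z v = X v := by
  unfold rhoB
  rw [dif_neg hv]

theorem rho_one (v : Var) : ∃ v', ∀ z z' : Var → Option (Fin N'), z v' = z' v' →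
    rhoB e K sh cN em X z v = rhoB e K sh cN em X z' v := by
  by_cases h : ∃ u, Lf K sh u ∧ v = cN u
  · refine ⟨(e, h.choose), fun z z' hz => ?_⟩
    unfold rhoB
    rw [dif_pos h, dif_pos h, hz]
  · exact ⟨(0, []), fun z z' _ => by rw [rho_off z h, rho_off z' h]⟩

theorem rho_upd (hc2 : ∀ u u', Lf K sh u → Lf K sh u' → cN u = cN u' → u = u')
    (z : Var → Option (Fin N')) {u : List ℕ} (hu : Lf K sh u) (o : Option (Fin N')) :
    rhoB e K sh cN em X (Function.update z (e, u) o) =
      Function.update (rhoB e K sh cN em X z) (cN u) (o.map (em u)) := by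
  funext v
  by_cases hv : v = cN u
  · subst hv
    rw [rho_at hc2 _ hu, Function.update_self, Function.update_self]
  · rw [Function.update_of_ne hv]
    by_cases h : ∃ u', Lf K sh u' ∧ v = cN u'
    · obtain ⟨u', hu', rfl⟩ := h
      have hne : (e, u') ≠ (e, u) := by
        intro h1
        apply hv
        have h3 : u' = u := (Prod.ext_iff.1 h1).2
        rw [h3]
      rw [rho_at hc2 _ hu', rho_at hc2 _ hu', Function.update_of_ne hne]
    · rw [rho_off _ h, rho_off _ h]

end rho

theorem P_iff {Γ : Ctx} {e N' K : ℕ} {sh : ℕ → ℕ} {v : Var} :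
    (Γ.sub e N' K).P e (fun _ => sh) v ↔ v.1 = e ∧ Lf K sh v.2 := by
  have hJ : (Γ.sub e N' K).J = e := rfl
  have hk : (Γ.sub e N' K).k = Function.update Γ.k e K := rfl
  unfold Ctx.P Vld Lf
  rw [hJ, hk, Finset.Icc_self, Finset.mem_singleton]
  constructor
  · rintro ⟨h1, h2, h3⟩
    rw [h1, Function.update_self] at h2
    exact ⟨h1, h2, h3⟩
  · rintro ⟨h1, h2, h3⟩
    refine ⟨h1, ?_, h3⟩
    rw [h1, Function.update_self]
    exact h2

theorem ok {Γ : Ctx} (hΓ : Γ.OK) {e N' K : ℕ} (he : e < Γ.J) (hK : 1 ≤ K) :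
    (Γ.sub e N' K).OK := by
  have hsub : ∀ c, c ∈ (Γ.qq e).cols → c ∈ Γ.q.cols := by
    intro c hc
    obtain ⟨i, hi, rfl⟩ := mem_qq.1 hc
    exact mem_q.2 ⟨i, hi.trans he, rfl⟩
  have hw := hΓ.wf
  refine ⟨⟨fun c hc => hw.gd c (hsub c hc), fun c hc c' hc' => hw.uniq c (hsub c hc) c' (hsub c' hc'),
    fun c hc => hw.lt c (hsub c hc), ?_, fun c hc => hw.wk c (hsub c hc),
    fun c hc => hw.lok c (hsub c hc)⟩, ?_, ?_, ?_, ?_, hΓ.hn16, ?_, hΓ.hν, ?_⟩
  · have h1 : List.Sublist ((List.range e).map Γ.col) ((List.range Γ.J).map Γ.col) :=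
      (List.range_sublist.2 he.le).map _
    exact hw.sorted.sublist h1
  · intro i hi i' hi'
    exact hΓ.inj i (lt_trans hi he) i' (lt_trans hi' he)
  · intro i i' h1 h2
    exact hΓ.hcm i i' h1 (lt_trans h2 he)
  · intro i hi hlo
    have hi' : i < e := hi
    show Function.update Γ.k e K i = _
    rw [Function.update_of_ne hi'.ne]
    exact hΓ.hk i (hi'.trans he) hlo
  · intro i hi
    have hi' : i ≤ e := hi
    show 1 ≤ Function.update Γ.k e K i
    rcases Nat.eq_or_lt_of_le hi' with h1 | h1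
    · rw [h1, Function.update_self]
      exact hK
    · rw [Function.update_of_ne h1.ne]
      exact hΓ.hk1 i (h1.le.trans he.le)
  · have := hΓ.hJ
    show e + 2 ≤ Γ.n
    omega
  · intro i hi
    exact hΓ.hj i (lt_trans hi he)

section main

open Classical in
/-- the new free part -/
noncomputable def YB {Γ : Ctx} {N' : ℕ} (lv : ℕ) (τ : ℕ → Str → Option (DT Str Bool))
    (YY : Γ.W → Lang) (ρ : (Var → Option (Fin N')) → Γ.W) (z : Var → Option (Fin N')) : Lang :=
  fun v => if v.length < Γ.V lv then Γ.F τ YY (ρ z) v else false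

open Classical in
/-- the new tables -/
noncomputable def tB (Γ : Ctx) (e lv : ℕ) (τ : ℕ → Str → Option (DT Str Bool)) (j : ℕ) (y : Str) :
    Option (DT Str Bool) :=
  if ∃ i < e, (Γ.col i).j = j ∧ tl (Γ.col i) y < Γ.V lv then τ j y else none

variable {Γ : Ctx} {e lv : ℕ} {τ : ℕ → Str → Option (DT Str Bool)} {YY : Γ.W → Lang}
  {N' K : ℕ} {ρ : (Var → Option (Fin N')) → Γ.W}

theorem tB_lt {i : ℕ} (hi : i < e) {y : Str} (hy : tl (Γ.col i) y < Γ.V lv) :
    tB Γ e lv τ (Γ.col i).j y = τ (Γ.col i).j y := by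
  unfold tB
  rw [if_pos ⟨i, hi, rfl, hy⟩]

theorem tB_ge (hΓ : Γ.OK) (he : e < Γ.J) {i : ℕ} (hi : i < e) {y : Str}
    (hy : Γ.V lv ≤ tl (Γ.col i) y) : tB Γ e lv τ (Γ.col i).j y = none := by
  unfold tB
  rw [if_neg]
  rintro ⟨i', h1, h2, h3⟩
  have := hΓ.inj i' (h1.trans he) i (hi.trans he) h2
  subst this
  omega

theorem agree (hΓ : Γ.OK) (he : e < Γ.J) (hK : 1 ≤ K) (z : Var → Option (Fin N')) :
    ∀ v : Str, v.length < Γ.V lv →
      (Γ.sub e N' K).F (tB Γ e lv τ) (YB lv τ YY ρ) z v = Γ.F τ YY (ρ z) v := by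
  have hΓ' : (Γ.sub e N' K).OK := ok hΓ he hK
  intro v
  induction hl : v.length using Nat.strong_induction_on generalizing v with
  | _ k ih =>
    intro hv
    subst hl
    by_cases hn : v.length < Γ.n
    · rw [F_below τ YY (ρ z) v hn]
      exact F_below (Γ := Γ.sub e N' K) _ _ z v hn
    have hn : Γ.n ≤ v.length := by omega
    by_cases hf : Free (Γ.sub e N' K).q v
    · have h1 : (Γ.sub e N' K).F (tB Γ e lv τ) (YB lv τ YY ρ) z v = YB lv τ YY ρ z v :=
        Phi_free _ _ _ _ hn hf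
      rw [h1]
      unfold YB
      rw [if_pos hv]
    · unfold Free at hf
      push Not at hf
      obtain ⟨c, hc, y, w, t1, t2, rfl⟩ := hf
      obtain ⟨i, hi, rfl⟩ := (mem_q (Γ := Γ.sub e N' K)).1 hc
      have hi : i < e := hi
      have hcol : (Γ.sub e N' K).col = Γ.col := rfl
      rw [hcol] at hn hv ih ⊢
      have htl := tl_le (Γ.col i) y w t1 t2
      have h1 : (Γ.sub e N' K).F (tB Γ e lv τ) (YB lv τ YY ρ) z
          (tab (Γ.col i).j (Γ.col i).B y w t1 t2) = _ :=
        Phi_tab hΓ'.wf (tB Γ e lv τ) (YB lv τ YY ρ z) hc y w t1 t2 hn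
      have h2 : Γ.F τ YY (ρ z) (tab (Γ.col i).j (Γ.col i).B y w t1 t2) = _ :=
        Phi_tab hΓ.wf τ (YY (ρ z)) (hΓ.mem (hi.trans he)) y w t1 t2 hn
      have h3 : tB Γ e lv τ (Γ.col i).j y = τ (Γ.col i).j y := tB_lt hi (by omega)
      rw [h1, h2, hcol, h3]
      cases τ (Γ.col i).j y with
      | some T => rfl
      | none =>
          simp only
          congr 2
          apply (hΓ.gd (hi.trans he)).congr
          intro u hu
          exact ih u.length (by omega) u rfl (by omega)

theorem agreeC (hΓ : Γ.OK) (he : e < Γ.J) (hK : 1 ≤ K) (hem : (Γ.col e).m ≤ lv)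
    (z : Var → Option (Fin N')) {i : ℕ} (hi : i < e) :
    ∀ u ∈ Γ.Q i, (Γ.sub e N' K).C (tB Γ e lv τ) (YB lv τ YY ρ) i z u = Γ.C τ YY i (ρ z) u := by
  intro u hu
  have h3 : 3 ≤ Γ.n := by have := hΓ.hn16; omega
  refine join_hs_congr (hΓ.gd (hi.trans he)) h3 (V := Γ.V lv) ?_ (agree hΓ he hK z) u hu
  unfold Ctx.V
  apply Nat.pow_le_pow_right (by omega)
  exact Nat.pow_le_pow_right (by norm_num) ((hΓ.hcm i e hi.le he).trans hem)

theorem agreeN (hΓ : Γ.OK) (he : e < Γ.J) (hK : 1 ≤ K)
    (z : Var → Option (Fin N')) {i : ℕ} (hi : i < e) {y : Str} (hy : tl (Γ.col i) y < Γ.V lv) :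
    nEval (Γ.col i).i ((Γ.sub e N' K).F (tB Γ e lv τ) (YB lv τ YY ρ) z) y =
      nEval (Γ.col i).i (Γ.F τ YY (ρ z)) y := by
  apply (hΓ.gd (hi.trans he)).congr
  intro v hv
  exact agree hΓ he hK z v (by omega)

end main

end BranchAux

open BranchAux in
theorem branch {Γ : Ctx} (hΓ : Γ.OK) {i0 lv lv1 D E : ℕ} {m : ℕ → ℕ → ℕ}
    {τ : ℕ → Str → Option (DT Str Bool)} {YY : Γ.W → Lang}
    {R : ℕ → Var → DT Str (Option (Fin Γ.N))} (h : Pre Γ i0 lv1 D m τ YY R)
    (hst : St Γ i0 lv E m τ YY) (hlv : lv ≤ lv1) (e : ℕ) (he : e < i0)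
    (hem : (Γ.col e).m ≤ lv) (N' K : ℕ) (hK : 1 ≤ K) (hN' : 1 ≤ N') (sh : ℕ → ℕ)
    (cN : List ℕ → Var) (hc1 : ∀ u, Lf K sh u → Γ.P i0 m (cN u))
    (hc2 : ∀ u u', Lf K sh u → Lf K sh u' → cN u = cN u' → u = u')
    (em : List ℕ → Fin N' → Fin Γ.N) (hinj : ∀ u, Function.Injective (em u)) (X : Γ.W) :
    (Γ.sub e N' K).OK ∧
    ∃ (τ' : ℕ → Str → Option (DT Str Bool)) (YY' : (Γ.sub e N' K).W → Lang)
      (R' : ℕ → Var → DT Str (Option (Fin N'))),
      Pre (Γ.sub e N' K) e lv D (fun _ => sh) τ' YY' R' ∧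
      St (Γ.sub e N' K) e lv E (fun _ => sh) τ' YY' ∧
      ∀ z v, v.length < Γ.V lv →
        (Γ.sub e N' K).F τ' YY' z v = Γ.F τ YY (rhoB e K sh cN em X z) v := by
  classical
  have heJ : e < Γ.J := lt_of_lt_of_le he h.le
  have hV : Γ.V lv ≤ Γ.V lv1 := hΓ.V_mono hlv
  set ρ : (Var → Option (Fin N')) → Γ.W := rhoB e K sh cN em X with hρ
  have hat : ∀ (z : Var → Option (Fin N')) (u : List ℕ), Lf K sh u →
      ρ z (cN u) = (z (e, u)).map (em u) := fun z u hu => rho_at hc2 z hu
  have hone : ∀ v, ∃ v', ∀ z z' : Var → Option (Fin N'), z v' = z' v' → ρ z v = ρ z' v :=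
    fun v => rho_one v
  have hdep : ∀ z z' : Var → Option (Fin N'), (∀ u, Lf K sh u → z (e, u) = z' (e, u)) →
      ρ z = ρ z' := by
    intro z z' hz
    funext v
    by_cases hv : ∃ u, Lf K sh u ∧ v = cN u
    · obtain ⟨u, hu, rfl⟩ := hv
      rw [hat z u hu, hat z' u hu, hz u hu]
    · rw [hρ, rho_off z hv, rho_off z' hv]
  have hnew : ∀ v, (Γ.sub e N' K).P e (fun _ => sh) v → v = (e, v.2) ∧ Lf K sh v.2 := by
    intro v hv
    obtain ⟨h1, h2⟩ := P_iff.1 hv
    exact ⟨Prod.ext h1 rfl, h2⟩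
  have htr : ∀ {g : Γ.W → Bool}, Steady (Γ.P i0 m) E g →
      Steady (N := N') ((Γ.sub e N' K).P e (fun _ => sh)) E (fun z => g (ρ z)) := by
    intro g hg z v hv
    obtain ⟨h1, h2⟩ := hnew v hv
    have h3 : ∀ o, ρ (Function.update z v o) =
        Function.update (ρ z) (cN v.2) (o.map (em v.2)) := by
      intro o
      rw [h1]
      exact rho_upd hc2 z h2 o
    refine le_trans ?_ (hg (ρ z) (cN v.2) (hc1 _ h2))
    apply Finset.card_le_card_of_injOn (em v.2)
    · intro y hy
      simp only [Finset.coe_filter, Finset.mem_univ, true_and, Set.mem_ofPred_eq] at hy ⊢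
      rw [h3, h3] at hy
      exact hy
    · exact (hinj v.2).injOn
  let R' : ℕ → Var → DT Str (Option (Fin N')) := fun i v =>
    (R i (cN v.2)).map (Function.invFun (Option.map (em v.2)))
  refine ⟨ok hΓ heJ hK, tB Γ e lv τ, YB lv τ YY ρ, R', ?_, ?_, fun z v hv => agree hΓ heJ hK z v hv⟩
  · refine ⟨le_rfl, ?_, ?_, ?_, ?_, ?_, ?_, ?_, ?_⟩
    · intro z z' hz
      have h1 : ρ z = ρ z' := hdep z z' (fun u hu => hz (e, u) (P_iff.2 ⟨rfl, hu⟩))
      unfold YB
      rw [h1]
    · intro v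
      by_cases hv : v.length < Γ.V lv
      · obtain ⟨T, hT1, hT2⟩ := Pre.bits hΓ h v (lt_of_lt_of_le hv hV)
        obtain ⟨T', hT3, hT4⟩ := MT.exists_comap ρ hone hT1
        refine ⟨T', hT3, fun z => ?_⟩
        unfold YB
        rw [if_pos hv]
        exact (hT2 (ρ z)).trans (hT4 z).symm
      · refine ⟨MT.leaf false, trivial, fun z => ?_⟩
        unfold YB
        rw [if_neg hv]
        rfl
    · intro i hi hlo y h1 h2
      have hi : i < e := hi
      have h2 : tl (Γ.col i) y < Γ.V lv := h2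
      show (tB Γ e lv τ (Γ.col i).j y).isSome
      rw [tB_lt hi h2]
      exact h.tab1 i (hi.trans heJ) hlo y h1 (lt_of_lt_of_le h2 hV)
    · intro i hi y h1
      have hi : i < e := hi
      show tB Γ e lv τ (Γ.col i).j y = none
      by_cases h2 : tl (Γ.col i) y < Γ.V lv
      · rw [tB_lt hi h2]
        apply h.tab0 i (hi.trans heJ) y
        rcases h1 with h1 | h1 | h1
        · exact Or.inl h1
        · exact Or.inr (Or.inl h1)
        · have h1 : Γ.V lv ≤ tl (Γ.col i) y := h1
          omega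
      · exact tB_ge hΓ heJ hi (by omega)
    · intro i hi y T hT
      have hi : i < e := hi
      have hT : tB Γ e lv τ (Γ.col i).j y = some T := hT
      by_cases h2 : tl (Γ.col i) y < Γ.V lv
      · rw [tB_lt hi h2] at hT
        obtain ⟨a1, a2, a3, a4⟩ := h.tab i (hi.trans heJ) y T hT
        refine ⟨fun z => ?_, a2, a3, fun h5 => absurd h5 (by omega)⟩
        have e1 := agreeN (τ := τ) (YY := YY) (ρ := ρ) hΓ heJ hK z hi h2
        refine Eq.trans ?_ e1.symm
        rw [← a1 (ρ z)]
        exact DT.eval_congr (agreeC hΓ heJ hK hem z hi) a2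
      · rw [tB_ge hΓ heJ hi (by omega)] at hT
        simp at hT
    · intro i hi hlo y hy
      have hi : i < e := hi
      have hy : tl (Γ.col i) y < Γ.V lv := hy
      obtain ⟨T, hT1, hT2⟩ := h.low i (hi.trans heJ) hlo y (lt_of_lt_of_le hy hV)
      obtain ⟨T', hT3, hT4⟩ := MT.exists_comap ρ hone hT1
      refine ⟨T', hT3, fun z => ?_⟩
      refine Eq.trans (agreeN hΓ heJ hK z hi hy) ?_
      exact (hT2 (ρ z)).trans (hT4 z).symm
    · intro i hi
      have hi : i < e := hi
      exact ⟨fun _ => (hΓ.hcm i e hi.le heJ).trans hem, fun h5 => absurd h5 (by omega)⟩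
    · intro i hi hlo v hv
      obtain ⟨h1, h2⟩ := hnew v hv
      obtain ⟨a1, a2, a3⟩ := h.read i (hi.trans he) hlo (cN v.2) (hc1 _ h2)
      refine ⟨fun z => ?_, DT.QIn.map _ a2, ?_⟩
      · have e1 := DT.eval_congr (agreeC (τ := τ) (YY := YY) (ρ := ρ) (N' := N') hΓ heJ hK hem z hi) a2
        have e2 := (a1 (ρ z)).trans (hat z v.2 h2)
        have e3 : Function.invFun (Option.map (em v.2)) (Option.map (em v.2) (z (e, v.2))) =
            z (e, v.2) :=
          Function.leftInverse_invFun (Option.map_injective (hinj v.2)) _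
        have e4 : z (e, v.2) = z v := by rw [← h1]
        exact (DT.eval_map _ _ _).trans
          ((congrArg (Function.invFun (Option.map (em v.2))) (e1.trans e2)).trans (e3.trans e4))
      · show ((R i (cN v.2)).map (Function.invFun (Option.map (em v.2)))).depth ≤ _
        rw [DT.depth_map]
        exact a3
  · refine ⟨?_, ?_⟩
    · intro v
      by_cases hv : v.length < Γ.V lv
      · have h1 := htr (St.bits hΓ h hst hlv v hv)
        have h2 : (fun z => YB lv τ YY ρ z v) = fun z => Γ.F τ YY (ρ z) v := by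
          funext z
          unfold YB
          rw [if_pos hv]
        exact Eq.mpr (congrArg (Steady ((Γ.sub e N' K).P e (fun _ => sh)) E) h2) h1
      · apply Steady.const (b := false)
        intro z
        unfold YB
        rw [if_neg hv]
    · intro i hi hlo y hy
      have hi : i < e := hi
      have hy : tl (Γ.col i) y < Γ.V lv := hy
      have h1 := htr (hst.low i (hi.trans heJ) hlo y hy)
      have h2 : (fun z => nEval (Γ.col i).i
          ((Γ.sub e N' K).F (tB Γ e lv τ) (YB lv τ YY ρ) z) y) =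
          fun z => nEval (Γ.col i).i (Γ.F τ YY (ρ z)) y := by
        funext z
        exact agreeN hΓ heJ hK z hi hy
      exact Eq.mpr (congrArg (Steady ((Γ.sub e N' K).P e (fun _ => sh)) E) h2) h1

end Pool.Agent.Lib.Pa76659B
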