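import Pool.Agent.Lib.Pa76659B.AB
import Pool.Agent.Lib.Pa76659B.Branch

/-!
MODULE Abl: the low values of one more level become steady.

Choose for each low `e < J` with `(col e).m ≤ lv` the constants `g e, a e, n1 e` of `hNR` (others 0).
Numbers: `A := max over e < J of ∑ h ∈ range (col e).l.length, seqE (a e) h`, `t := A + 3`,
`g := max (max_e g e) (2 ^ (lv + 1)) + d + J + 5`, `n1 := max (max_e n1 e) (J + 16)`.
Let `E' := E * n ^ g`, `V1 := V (lv + 1)`. Apply `ab` with `Θ := Fin J × {y // y.length < V1}` (or all of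
`ℕ × Str`), `f (i, y) x := if (col i).lo ∧ tl (col i) y < V1 then nEval (col i).i (F x) y else
false`, `I := Icc i0 J`, `m := shp Nb ee`, `G := Nb ^ t`, `D := n ^ d`, `K := (N + 1) * n ^ d`,
`M := (J + 1) * Nb ^ A`. `hmt`: `Pre.low` (`V1 ≤ V lv1`). `h1`: `nEval_st` with `V := V lv` (bits steady by
`St.bits`; `view2`), `w := V1`, `V1 * E ≤ E'`. `hG`: `2 * (2 * K + 1) * M ≤ Nb ^ 3 * Nb ^ A`.
(A): `patch_rs` with `ch := chj G j` (`thinM_shp2`), `Pre.rs`, and St: `fr` by `St.rs` and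
`Steady.mono`, `low` from (A).
(B): pigeonhole on `(θ j).1`: there are `e < J` and `S' ⊆ S` with `(J + 1) * S'.card ≥ S.card` (`S ≠ ∅`, so `J ≠ 0`), so
`Nb ^ A ≤ S'.card` (`Finset.exists_le_card_fiber_of_mul_le_card_of_maps_to`), and `(θ j).1 = e` on `S'`. Since `Y j ≠ ∅`, the value of `f (θ j)` is false
for `o = fun _ => none` and true for `o = fun i => if i = j then some y else none` (`y ∈ Y j`); hence `(col e).lo`,
`tl (col e) y_j < V1`, and the value is not constant, so `m_e < lv` (if `lv ≤ m_e` then `lowC` makes it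
constant); and if `i0 ≤ e` then `lvl` gives `lv1 ≤ m_e < lv < lv1`, contradiction; so `e < i0`.
Let `K := (col e).l.length`, `sh h := Nb ^ seqE (a e) h`, `N' := E' + 1`; the leaves `u` of `sh` (`names`, `card_nm`, product)
number `Nb ^ (∑ ..) ≤ Nb ^ A ≤ S'.card`, so there is an injection `jj` from the leaves to `S'`; `cN u := c (jj u)`,
`em u : Fin N' → Fin N` injective with values in `Y (jj u)` (arbitrary injective for non-leaves, `N' ≤ N`).
`branch` gives the family for `Γ.sub e N' K`; for its worlds `z`, `rhoB z = put S c o X` with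
`o j := (z (e, u)).map (em u)` if `j = jj u`, `none` for other `j` of `S` (take `put S c (fun _ => none) X` as the
constant world of `branch`), so `nEval (col e).i (F (rhoB z)) y_(jj u) = (z (e, u)).isSome`, and the same for `F'`
(views of `y` with `tl < V (lv + 1)` are below `V lv`: `view2`). Contradiction to `NR col e lv d`:
`Rg (Γ.sub ..) Nb E (g e)`: `N' ≤ N ≤ Nb` (`N' ≤ (Y j).card`), `E * n ^ g e ≤ E' + 1`;
`Nb ^ (∑ ..) ≤ Nb ^ t ≤ Nb ^ ee J 0 ≤ 2 ^ n` (`0 < k J`); `(Γ.sub e N' K).qq i = Γ.qq i` (rfl), `hJL`.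
-/

set_option maxHeartbeats 4000000

namespace Pool.Agent.Lib.Pa76659B

open Pool.Agent.Lib.Pa76659 Pool.Agent.Lib.Pa76659H Pool.Agent.Lib.Pa76659.Hier

theorem imp_ex3a {P : Prop} {Q : ℕ → ℕ → ℕ → Prop} (h : P → ∃ a b c, Q a b c) :
    ∃ a b c, P → Q a b c := by
  by_cases hP : P
  · obtain ⟨a, b, c, h1⟩ := h hP
    exact ⟨a, b, c, fun _ => h1⟩
  · exact ⟨0, 0, 0, fun h1 => absurd h1 hP⟩

theorem put_same {N : ℕ} {S : Finset ℕ} {c : ℕ → Var} (hc : Set.InjOn c S)
    (o : ℕ → Option (Fin N)) (X : Var → Option (Fin N)) {j : ℕ} (hj : j ∈ S) :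
    put S c o X (c j) = o j := by
  have h : ∃ j' ∈ S, c j = c j' := ⟨j, hj, rfl⟩
  unfold put
  rw [dif_pos h]
  congr 1
  exact (hc hj h.choose_spec.1 h.choose_spec.2).symm

theorem put_other {N : ℕ} {S : Finset ℕ} {c : ℕ → Var}
    (o : ℕ → Option (Fin N)) (X : Var → Option (Fin N)) {v : Var} (hv : ∀ j ∈ S, v ≠ c j) :
    put S c o X v = X v := by
  unfold put
  rw [dif_neg]
  rintro ⟨j, hj, h⟩
  exact hv j hj h

theorem rhoB_same {N N' e K : ℕ} {sh : ℕ → ℕ} {cN : List ℕ → Var}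
    (hc : ∀ u u', Lf K sh u → Lf K sh u' → cN u = cN u' → u = u')
    (em : List ℕ → Fin N' → Fin N) (X : Var → Option (Fin N)) (z : Var → Option (Fin N'))
    {u : List ℕ} (hu : Lf K sh u) : rhoB e K sh cN em X z (cN u) = (z (e, u)).map (em u) := by
  have h : ∃ u', Lf K sh u' ∧ cN u = cN u' := ⟨u, hu, rfl⟩
  unfold rhoB
  rw [dif_pos h]
  have e1 := hc _ _ hu h.choose_spec.1 h.choose_spec.2
  rw [← e1]

theorem rhoB_other {N N' e K : ℕ} {sh : ℕ → ℕ} {cN : List ℕ → Var}
    (em : List ℕ → Fin N' → Fin N) (X : Var → Option (Fin N)) (z : Var → Option (Fin N'))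
    {v : Var} (hv : ∀ u, Lf K sh u → v ≠ cN u) : rhoB e K sh cN em X z v = X v := by
  unfold rhoB
  rw [dif_neg]
  rintro ⟨u, hu, h⟩
  exact hv u hu h

theorem abl_step (col : ℕ → Col) (J lv d : ℕ)
    (hNR : ∀ e < J, (col e).lo = true → (col e).m ≤ lv → NR col e lv d) :
    ∃ t g n1 : ℕ, ∀ (Γ : Ctx), Γ.OK → Γ.col = col → Γ.J = J →
    n1 ≤ Γ.n → Γ.JL → ∀ (Nb E : ℕ), Rg Γ Nb E g →
    ∀ (i0 lv1 : ℕ) (ee : ℕ → ℕ → ℕ) (τ : ℕ → Str → Option (DT Str Bool)) (YY : Γ.W → Lang)
      (R : ℕ → Var → DT Str (Option (Fin Γ.N))), lv < lv1 →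
    Pre Γ i0 lv1 (Γ.n ^ d) (shp Nb ee) τ YY R → St Γ i0 lv E (shp Nb ee) τ YY →
    (∀ i, t ≤ ee i 0) → (∀ i ∈ Finset.Icc i0 Γ.J, ∀ h < Γ.k i, Nb ^ ee i h ≤ 2 ^ Γ.n) →
    ∃ (ρ : Γ.W → Γ.W) (R' : ℕ → Var → DT Str (Option (Fin Γ.N))),
      Pre Γ i0 lv1 (Γ.n ^ d) (shp Nb (decT t ee)) τ (fun z => YY (ρ z)) R' ∧
      St Γ i0 (lv + 1) (E * Γ.n ^ g) (shp Nb (decT t ee)) τ (fun z => YY (ρ z)) ∧
      Rs Γ i0 (shp Nb ee) (shp Nb (decT t ee)) ρ := by
  classical
  choose gE aE nE hE using fun e => imp_ex3a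
    (fun h : e < J ∧ (col e).lo = true ∧ (col e).m ≤ lv =>
      (show ∃ g a n1 : ℕ, _ from hNR e h.1 h.2.1 h.2.2))
  set A := ∑ e ∈ Finset.range J, ∑ h ∈ Finset.range (col e).l.length, seqE (aE e) h with hA
  set gg := ∑ e ∈ Finset.range J, gE e with hgg
  set nn := ∑ e ∈ Finset.range J, nE e with hnn
  have hAle : ∀ e < J, ∑ h ∈ Finset.range (col e).l.length, seqE (aE e) h ≤ A := fun e he =>
    Finset.single_le_sum (f := fun e => ∑ h ∈ Finset.range (col e).l.length, seqE (aE e) h)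
      (fun _ _ => Nat.zero_le _) (Finset.mem_range.2 he)
  have hgle : ∀ e < J, gE e ≤ gg := fun e he =>
    Finset.single_le_sum (f := gE) (fun _ _ => Nat.zero_le _) (Finset.mem_range.2 he)
  have hnle : ∀ e < J, nE e ≤ nn := fun e he =>
    Finset.single_le_sum (f := nE) (fun _ _ => Nat.zero_le _) (Finset.mem_range.2 he)
  refine ⟨A + 3, gg + 2 ^ (lv + 1) + d + J + 5, nn + J + 16, ?_⟩
  intro Γ hΓ hcol hJ hn hJL Nb E hRg i0 lv1 ee τ YY R hlv hP hS ht hsz
  set g := gg + 2 ^ (lv + 1) + d + J + 5 with hg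
  have hn16 := hΓ.hn16
  have hn0 : 1 ≤ Γ.n := by omega
  have hJn := hΓ.hJ
  have hE1 := hRg.pos
  have hng : 1 ≤ Γ.n ^ g := Nat.one_le_pow _ _ hn0
  have hp2 : 0 < 2 ^ (lv + 1) := by positivity
  have hN : 1 ≤ Γ.N := by
    have h1 : 1 ≤ E * Γ.n ^ g := Nat.mul_pos (by omega) (by omega)
    exact h1.trans hRg.gap
  have hNb : 1 ≤ Nb := hN.trans hRg.le
  set E' := E * Γ.n ^ g with hE'
  have hEE' : E ≤ E' := Nat.le_mul_of_pos_right _ (by omega)
  have hV1 : Γ.V (lv + 1) ≤ Γ.V lv1 := hΓ.V_mono hlv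
  have hVE : Γ.V (lv + 1) * E ≤ E' := by
    rw [hE', mul_comm]
    apply Nat.mul_le_mul_left
    unfold Ctx.V
    exact Nat.pow_le_pow_right hn0 (by omega)
  have hVl : Γ.V lv ≤ Γ.V (lv + 1) := hΓ.V_mono (Nat.le_succ lv)
  let f : Fin Γ.J × Str → Γ.W → Bool := fun θ x =>
    if (Γ.col θ.1).lo = true ∧ tl (Γ.col θ.1) θ.2 < Γ.V (lv + 1) then
      nEval (Γ.col θ.1).i (Γ.F τ YY x) θ.2 else false
  have hK : (Γ.N + 1) * Γ.n ^ d ≤ (Γ.N + 1) * Γ.n ^ d := le_rfl
  have hG : 2 * (2 * ((Γ.N + 1) * Γ.n ^ d) + 1) * ((J + 1) * Nb ^ A) ≤ Nb ^ (A + 3) := by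
    have a0 : 1 ≤ Γ.n ^ d := Nat.one_le_pow _ _ hn0
    have a1 : (Γ.N + 1) * Γ.n ^ d ≤ 2 * Nb * Γ.n ^ d :=
      Nat.mul_le_mul_right _ (by have := hRg.le; omega)
    have a2 : 1 ≤ Nb * Γ.n ^ d := Nat.mul_pos (by omega) (by omega)
    have a3 : 2 * (2 * ((Γ.N + 1) * Γ.n ^ d) + 1) ≤ 10 * (Nb * Γ.n ^ d) := by nlinarith
    have a4 : 10 * (J + 1) ≤ Γ.n ^ 2 := by nlinarith
    have a5 : Γ.n ^ 2 * Γ.n ^ d ≤ Nb := by
      rw [← pow_add]
      exact (Nat.pow_le_pow_right hn0 (by omega)).trans hRg.pw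
    calc 2 * (2 * ((Γ.N + 1) * Γ.n ^ d) + 1) * ((J + 1) * Nb ^ A)
        ≤ 10 * (Nb * Γ.n ^ d) * ((J + 1) * Nb ^ A) := Nat.mul_le_mul_right _ a3
      _ = (10 * (J + 1)) * Γ.n ^ d * Nb * Nb ^ A := by ring
      _ ≤ Γ.n ^ 2 * Γ.n ^ d * Nb * Nb ^ A :=
          Nat.mul_le_mul_right _ (Nat.mul_le_mul_right _ (Nat.mul_le_mul_right _ a4))
      _ ≤ Nb * Nb * Nb ^ A := Nat.mul_le_mul_right _ (Nat.mul_le_mul_right _ a5)
      _ ≤ Nb * (Nb * Nb * Nb ^ A) := Nat.le_mul_of_pos_left _ hNb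
      _ = Nb ^ (A + 3) := by ring
  have hG1 : 1 ≤ Nb ^ (A + 3) := Nat.one_le_pow _ _ hNb
  have hmt : ∀ θ, ∃ T : MT Var (Option (Fin Γ.N)) Bool, T.dle (Γ.n ^ d) ∧
      ∀ x, f θ x = T.eval x := by
    intro θ
    by_cases hc : (Γ.col θ.1).lo = true ∧ tl (Γ.col θ.1) θ.2 < Γ.V (lv + 1)
    · obtain ⟨T, hT1, hT2⟩ := hP.low θ.1 θ.1.2 hc.1 θ.2 (by omega)
      refine ⟨T, hT1, fun x => ?_⟩
      simp only [f, if_pos hc]
      exact hT2 x
    · refine ⟨MT.leaf false, trivial, fun x => ?_⟩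
      simp only [f, if_neg hc, MT.eval]
  have h1 : ∀ θ x v, Vld (Finset.Icc i0 Γ.J) Γ.k (shp Nb ee) v →
      f θ (Function.update x v none) = true →
      (Finset.univ.filter (fun y : Fin Γ.N =>
        f θ (Function.update x v (some y)) = false)).card ≤ E' := by
    intro θ x v hv hx
    by_cases hc : (Γ.col θ.1).lo = true ∧ tl (Γ.col θ.1) θ.2 < Γ.V (lv + 1)
    · simp only [f, if_pos hc] at hx ⊢
      have hvw := view2 hΓ θ.1.2 hc.2
      exact (nEval_st (Γ.F τ YY) (fun w hw => St.bits hΓ hP hS (by omega) w hw) (Γ.col θ.1).i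
        (hΓ.gd θ.1.2).hI θ.2 hvw (show _ ≤ Γ.V (lv + 1) by omega) x v hv hx).trans hVE
    · simp only [f, if_neg hc] at hx
      simp at hx
  rcases ab (Finset.Icc i0 Γ.J) Γ.k (shp Nb ee) (Nb ^ (A + 3)) (Γ.n ^ d) E'
    ((Γ.N + 1) * Γ.n ^ d) ((J + 1) * Nb ^ A) f (fun i hi => hΓ.hk1 i (Finset.mem_Icc.1 hi).2) hN
    hmt h1 hK hG hG1 with ⟨j, hj, hst⟩ | ⟨S, c, Y, θ, X, hM, hc, hinj, hY, hf⟩
  · -- steady
    have hρ : Rs Γ i0 (shp Nb ee) (thinM (Nb ^ (A + 3)) (shp Nb ee))
        (fun z => patch (Finset.Icc i0 Γ.J) Γ.k (shp Nb ee) (Nb ^ (A + 3))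
          (chj (Nb ^ (A + 3)) j) (fun _ => some ⟨0, hN⟩) z) := by
      apply patch_rs hΓ hG1 (fun _ => rfl)
      intro i u g' _
      show g' * Nb ^ (A + 3) ≤ g' * Nb ^ (A + 3) + j ∧
        g' * Nb ^ (A + 3) + j < (g' + 1) * Nb ^ (A + 3)
      refine ⟨Nat.le_add_right _ _, ?_⟩
      rw [show (g' + 1) * Nb ^ (A + 3) = g' * Nb ^ (A + 3) + Nb ^ (A + 3) by ring]
      omega
    have hst' : ∀ θ, Steady (Γ.P i0 (thinM (Nb ^ (A + 3)) (shp Nb ee))) E'
        (fun z => f θ (patch (Finset.Icc i0 Γ.J) Γ.k (shp Nb ee) (Nb ^ (A + 3))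
          (chj (Nb ^ (A + 3)) j) (fun _ => some ⟨0, hN⟩) z)) := hst
    rw [thinM_shp2 hNb ht] at hρ hst'
    obtain ⟨R', hR'⟩ := hP.rs hρ
    have hS' := hS.rs hρ
    refine ⟨_, R', hR', ⟨fun v => (hS'.fr v).mono hEE', ?_⟩, hρ⟩
    intro i hi hlo y hy
    have h2 := hst' (⟨i, hi⟩, y)
    have hc : (Γ.col i).lo = true ∧ tl (Γ.col i) y < Γ.V (lv + 1) := ⟨hlo, hy⟩
    simp only [f, if_pos hc] at h2
    exact h2
  · -- readable names
    exfalso
    have hMpos : 1 ≤ (J + 1) * Nb ^ A := Nat.mul_pos (by omega) (Nat.pow_pos hNb)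
    -- facts on the readings
    have hfact : ∀ j ∈ S, (col (θ j).1).lo = true ∧ tl (col (θ j).1) (θ j).2 < Γ.V (lv + 1) ∧
        (col (θ j).1).m ≤ lv ∧ ((θ j).1 : ℕ) < i0 := by
      intro j hj
      obtain ⟨y, hy⟩ : (Y j).Nonempty := by
        rw [← Finset.card_pos]
        have := hY j hj
        omega
      have e1 := hf (fun i => if i = j then some y else none) (by
        intro i _ y' hy'
        by_cases hij : i = j
        · subst hij
          simp only [if_true, Option.some.injEq] at hy'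
          rw [← hy']; exact hy
        · simp [hij] at hy') j hj
      have e0 := hf (fun _ => none) (by intro i _ y' hy'; simp at hy') j hj
      simp only [if_true, Option.isSome_some] at e1
      simp only [Option.isSome_none] at e0
      have hcnd : (Γ.col (θ j).1).lo = true ∧ tl (Γ.col (θ j).1) (θ j).2 < Γ.V (lv + 1) := by
        by_contra hcon
        simp only [f, if_neg hcon] at e1
        simp at e1
      simp only [f, if_pos hcnd] at e1 e0
      have hm : (Γ.col (θ j).1).m < lv := by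
        by_contra hcon
        have l1 := lowC hΓ (θ j).1.2 (show lv ≤ (Γ.col (θ j).1).m by omega) hcnd.2 τ YY
        rw [l1] at e1 e0
        rw [e1] at e0
        simp at e0
      have hi : ((θ j).1 : ℕ) < i0 := by
        by_contra hcon
        have := (hP.lvl _ (θ j).1.2).2 (by omega)
        omega
      rw [hcol] at hcnd hm
      exact ⟨hcnd.1, hcnd.2, by omega, hi⟩
    have hSne : S.Nonempty := by
      rw [← Finset.card_pos]; omega
    obtain ⟨j0, hj0⟩ := hSne
    obtain ⟨e, heJ, hS'⟩ := Finset.exists_le_card_fiber_of_mul_le_card_of_maps_to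
      (s := S) (t := Finset.range J) (f := fun j => ((θ j).1 : ℕ)) (n := Nb ^ A) (by
        intro j _
        rw [Finset.mem_range, ← hJ]
        exact (θ j).1.2) ⟨((θ j0).1 : ℕ), by
        rw [Finset.mem_range, ← hJ]
        exact (θ j0).1.2⟩ (by
        rw [Finset.card_range]
        refine le_trans ?_ hM
        exact Nat.mul_le_mul_right _ (by omega))
    rw [Finset.mem_range] at heJ
    set S' := S.filter (fun j => ((θ j).1 : ℕ) = e) with hS'def
    have hS'S : ∀ j ∈ S', j ∈ S := fun j hj => (Finset.mem_filter.1 hj).1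
    have hS'e : ∀ j ∈ S', ((θ j).1 : ℕ) = e := fun j hj => (Finset.mem_filter.1 hj).2
    have hS'ne : S'.Nonempty := by
      rw [← Finset.card_pos]
      have : 1 ≤ Nb ^ A := Nat.one_le_pow _ _ hNb
      omega
    obtain ⟨j1, hj1⟩ := hS'ne
    have hfe := hfact j1 (hS'S j1 hj1)
    rw [hS'e j1 hj1] at hfe
    obtain ⟨he1, _, he3, he4⟩ := hfe
    set K := (col e).l.length with hKdef
    have hK1 : 1 ≤ K := by
      have h2 := (hΓ.gd (show e < Γ.J by omega)).hl
      rw [hcol] at h2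
      exact List.length_pos_of_ne_nil h2
    set sh : ℕ → ℕ := fun h => Nb ^ seqE (aE e) h with hsh
    have hLv : Fintype.card ↥(nm sh 0 K) ≤ Fintype.card ↥S' := by
      rw [Fintype.card_coe, Fintype.card_coe, card_nm]
      refine le_trans ?_ hS'
      simp only [hsh, zero_add]
      rw [Finset.prod_pow_eq_pow_sum]
      exact Nat.pow_le_pow_right hNb (hAle e heJ)
    obtain ⟨emb⟩ := Function.Embedding.nonempty_of_card_le hLv
    set jj : List ℕ → ℕ := fun u => if h : u ∈ nm sh 0 K then (emb ⟨u, h⟩ : ℕ) else 0 with hjj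
    have hLf : ∀ u, Lf K sh u ↔ u ∈ nm sh 0 K := fun u => (mem_nm sh K 0 u).symm
    have hjj1 : ∀ u, Lf K sh u → jj u ∈ S' := by
      intro u hu
      have hu' := (hLf u).1 hu
      simp only [hjj, dif_pos hu']
      exact (emb ⟨u, hu'⟩).2
    have hjj2 : ∀ u u', Lf K sh u → Lf K sh u' → jj u = jj u' → u = u' := by
      intro u u' hu hu' he
      have a1 := (hLf u).1 hu
      have a2 := (hLf u').1 hu'
      simp only [hjj, dif_pos a1, dif_pos a2] at he
      have := emb.injective (Subtype.ext he)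
      simpa using this
    have hN'N : E' + 1 ≤ Γ.N := by
      have h2 := hY j1 (hS'S j1 hj1)
      have h3 : (Y j1).card ≤ Γ.N := by
        have := Finset.card_le_univ (Y j1)
        rwa [Fintype.card_fin] at this
      omega
    have hem : ∀ j, ∃ em : Fin (E' + 1) → Fin Γ.N, Function.Injective em ∧
        (j ∈ S → ∀ a, em a ∈ Y j) := by
      intro j
      by_cases hj : j ∈ S
      · have h2 : Fintype.card (Fin (E' + 1)) ≤ Fintype.card ↥(Y j) := by
          rw [Fintype.card_fin, Fintype.card_coe]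
          exact hY j hj
        obtain ⟨em⟩ := Function.Embedding.nonempty_of_card_le h2
        exact ⟨fun a => (em a).1, fun a b hab => em.injective (Subtype.ext hab),
          fun _ a => (em a).2⟩
      · exact ⟨Fin.castLE hN'N, fun a b hab => by
          have := congrArg Fin.val hab
          exact Fin.ext this, fun h => absurd h hj⟩
    choose em hem1 hem2 using hem
    set cN : List ℕ → Var := fun u => c (jj u) with hcN
    have hcN2 : ∀ u u', Lf K sh u → Lf K sh u' → cN u = cN u' → u = u' := by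
      intro u u' hu hu' he
      exact hjj2 u u' hu hu' (hinj (hS'S _ (hjj1 u hu)) (hS'S _ (hjj1 u' hu')) he)
    set X' : Γ.W := put S c (fun _ => none) X with hX'
    obtain ⟨hOK', τ', YY', R', hP', hSt', hag⟩ := branch hΓ hP hS hlv.le e he4
      (by rw [hcol]; exact he3) (E' + 1) K hK1 (by omega) sh cN
      (fun u hu => hc _ (hS'S _ (hjj1 u hu))) hcN2 (fun u => em (jj u))
      (fun u => hem1 (jj u)) X'
    -- the worlds of the branch
    have hput : ∀ z : (Γ.sub e (E' + 1) K).W, ∃ o : ℕ → Option (Fin Γ.N),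
        (∀ j ∈ S, ∀ y, o j = some y → y ∈ Y j) ∧
        (∀ u, Lf K sh u → (o (jj u)).isSome = (z (e, u)).isSome) ∧
        rhoB e K sh cN (fun u => em (jj u)) X' z = put S c o X := by
      intro z
      refine ⟨fun j => if h : ∃ u, Lf K sh u ∧ jj u = j then
        (z (e, h.choose)).map (em j) else none, ?_, ?_, ?_⟩
      · intro j hj y hy
        beta_reduce at hy
        split_ifs at hy with h
        obtain ⟨a, _, ha⟩ := Option.map_eq_some_iff.1 hy
        rw [← ha]
        exact hem2 j hj a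
      · intro u hu
        have h : ∃ u', Lf K sh u' ∧ jj u' = jj u := ⟨u, hu, rfl⟩
        beta_reduce
        rw [dif_pos h]
        have e1 := hjj2 _ _ h.choose_spec.1 hu h.choose_spec.2
        rw [e1]
        show ((z (e, u)).map (em (jj u))).isSome = _
        cases z (e, u) <;> rfl
      · funext v
        by_cases hv : ∃ j ∈ S, v = c j
        · obtain ⟨j, hj, rfl⟩ := hv
          rw [put_same hinj _ _ hj]
          by_cases h : ∃ u, Lf K sh u ∧ jj u = j
          · rw [dif_pos h]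
            obtain ⟨h1', h2'⟩ := h.choose_spec
            have e1 : c j = cN h.choose := by simp only [hcN, h2']
            have e2 := rhoB_same (N' := E' + 1) (e := e) hcN2 (fun u => em (jj u)) X' z h1'
            rw [← e1, h2'] at e2
            exact e2
          · rw [dif_neg h]
            have e2 := rhoB_other (N' := E' + 1) (e := e) (K := K) (sh := sh) (cN := cN)
              (fun u => em (jj u)) X' z (v := c j) (fun u hu he =>
                h ⟨u, hu, (hinj hj (hS'S _ (hjj1 u hu)) he).symm⟩)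
            rw [hX', put_same hinj _ _ hj] at e2
            rw [hX']
            exact e2
        · push Not at hv
          have e2 := rhoB_other (N' := E' + 1) (e := e) (K := K) (sh := sh) (cN := cN)
              (fun u => em (jj u)) X' z (v := v) (fun u hu =>
                hv _ (hS'S _ (hjj1 u hu)))
          rw [put_other _ _ hv]
          rw [hX', put_other _ _ hv] at e2
          rw [hX']
          exact e2
    have hΓn : (Γ.sub e (E' + 1) K).n = Γ.n := rfl
    refine hE e ⟨heJ, he1, he3⟩ (Γ.sub e (E' + 1) K) hOK' hcol rfl ?_ ?_ ?_ Nb E ?_ ?_ τ' YY' R'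
      hP' hSt' ?_
    · show Function.update Γ.k e K e = _
      rw [Function.update_self]
    · have := hnle e heJ
      show nE e ≤ Γ.n
      omega
    · intro i hi hlo
      have h2 := hJL i (by omega) (by rw [hcol]; exact hlo)
      rw [hcol] at h2
      exact h2
    · refine ⟨?_, ?_, hE1, ?_⟩
      · show Γ.n ^ gE e ≤ Nb
        refine le_trans (Nat.pow_le_pow_right hn0 ?_) hRg.pw
        have := hgle e heJ
        omega
      · show E' + 1 ≤ Nb
        exact hN'N.trans hRg.le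
      · show E * Γ.n ^ gE e ≤ E' + 1
        have h2 : E * Γ.n ^ gE e ≤ E' := by
          apply Nat.mul_le_mul_left
          apply Nat.pow_le_pow_right hn0
          have := hgle e heJ
          omega
        omega
    · show Nb ^ (∑ h ∈ Finset.range (Function.update Γ.k e K e), seqE (aE e) h) ≤ 2 ^ Γ.n
      rw [Function.update_self]
      have h2 := hsz Γ.J (Finset.mem_Icc.2 ⟨hP.le, le_rfl⟩) 0 (hΓ.hk1 Γ.J le_rfl)
      refine le_trans (Nat.pow_le_pow_right hNb ?_) h2
      have h3 : ∑ h ∈ Finset.range K, seqE (aE e) h ≤ A := hAle e heJ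
      have h4 := ht Γ.J
      omega
    · intro u hu
      have hu' : Lf K sh u := by
        obtain ⟨_, h2, h3⟩ := hu
        refine ⟨?_, h3⟩
        have h4 : u.length = Function.update Γ.k e K e := h2
        rwa [Function.update_self] at h4
      have hjS' := hjj1 u hu'
      have hjS := hS'S _ hjS'
      obtain ⟨b1, b2, b3, b4⟩ := hfact (jj u) hjS
      have hje := hS'e _ hjS'
      rw [hje] at b1 b2 b3 b4
      refine ⟨(θ (jj u)).2, b2, fun z => ?_⟩
      obtain ⟨o, o1, o2, o3⟩ := hput z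
      have h2 := hf o o1 (jj u) hjS
      have hcnd : (Γ.col (θ (jj u)).1).lo = true ∧
          tl (Γ.col (θ (jj u)).1) (θ (jj u)).2 < Γ.V (lv + 1) := by
        rw [hje, hcol]; exact ⟨b1, b2⟩
      simp only [f, if_pos hcnd] at h2
      rw [o2 u hu'] at h2
      rw [← h2, ← o3, hje, hcol]
      have hgd := hΓ.gd (show e < Γ.J by omega)
      have hvw := view2 hΓ (show e < Γ.J by omega) (lv := lv) (y := (θ (jj u)).2)
        (by rw [hcol]; exact b2)
      rw [hcol] at hgd hvw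
      apply hgd.hI.congr
      intro v hv
      exact hag z v (by omega)

end Pool.Agent.Lib.Pa76659B
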