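import Pool.Agent.Lib.Pa76659B.StLem

/-!
MODULE Bits: the bits of the oracle of a world.

`Pre.bits` is `Inv.bits` of Pa76659H/Frame.lean: below `n` constant; free strings: `mt`; a string
`tab .. y w t1 t2` of column `i` (`Phi_tab`): if `τ = some T` it is the constant `tbit T w t1 t2`; if
`τ = none` it is `t1 && (t2 || nEval (col i).i (F x) y)`, where either the column is low and
`tl (col i) y < V lv` (field `low`; apply the Boolean function to the leaves, or split on t1, t2), or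
`tl (col i) y < n` (`tab1`) and the value does not depend on `x` (`Gd.congr`, `F_below`).
`St.bits` is the same with steadiness (`lv' ≤ lv`; for a high column with `n ≤ tl < V lv'` the entry
is some, because `V lv' ≤ V lv`).
`Pre.mem` is `Inv.mem` (`Phi_mem` with `n1 = V lv`; for low columns `tab0`).
`view2`: `Gd.view` with `v` of length `(y.length + 2) ^ bI`, see `hview` in `Inv.level` (Pa76659H/Step).
`lowC`: if `tl (col i) y < V (lv + 1)` and `lv + 1 ≤ m + 1` then `view ^ (2 ^ (m + 1)) < n ^ (2 ^ (lv + 1))`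
gives view < n and the value is a constant.
-/

set_option maxHeartbeats 4000000

namespace Pool.Agent.Lib.Pa76659B

open Pool.Agent.Lib.Pa76659 Pool.Agent.Lib.Pa76659H Pool.Agent.Lib.Pa76659.Hier

theorem Gd.lev {c : Col} (hc : Gd c) {n : ℕ} (hn : 3 ≤ n) :
    (n ^ c.bM + 2) ^ c.bA < n ^ (2 ^ c.m) ∧ n ^ (2 * c.bM + 5) ≤ n ^ (2 ^ c.m) := by
  have h1 : 1 ≤ n ^ c.bM := Nat.one_le_pow _ _ (by omega)
  have h2 : n ^ c.bM + 2 ≤ n ^ (c.bM + 1) := by
    rw [pow_succ]; nlinarith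
  have h3 := hc.hAM
  constructor
  · calc (n ^ c.bM + 2) ^ c.bA ≤ (n ^ (c.bM + 1)) ^ c.bA := Nat.pow_le_pow_left h2 _
      _ = n ^ ((c.bM + 1) * c.bA) := by rw [← pow_mul]
      _ < n ^ (2 ^ c.m) := Nat.pow_lt_pow_right (by omega) (by omega)
  · exact Nat.pow_le_pow_right (by omega) (by omega)

theorem Gd.lev1 {c : Col} (hc : Gd c) {n : ℕ} (hn : 3 ≤ n) : n ^ c.bM < n ^ (2 ^ c.m) :=
  lt_of_lt_of_le (Nat.pow_lt_pow_right (by omega) (by omega)) (hc.lev hn).2

/-- the questions of the column only see short strings -/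
theorem join_hs_congr {c : Col} (hc : Gd c) {n V : ℕ} (hn : 3 ≤ n) (hV : n ^ (2 ^ c.m) ≤ V)
    {X X' : Lang} (h : ∀ v : Str, v.length < V → X v = X' v) (u : Str)
    (hu : u.length ≤ n ^ c.bM) : join X (hs c X) u = join X' (hs c X') u := by
  rcases u with _ | ⟨b, v⟩
  · rfl
  · simp only [List.length_cons] at hu
    have h1 := hc.lev1 hn
    cases b
    · exact h v (by omega)
    · apply hc.hA.congr
      intro w hw
      apply h
      have h2 : (v.length + 2) ^ c.bA ≤ (n ^ c.bM + 2) ^ c.bA := Nat.pow_le_pow_left (by omega) _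
      have := (hc.lev hn).1
      omega

variable {Γ : Ctx} (hΓ : Γ.OK) {i0 lv D E : ℕ} {m : ℕ → ℕ → ℕ}
  {τ : ℕ → Str → Option (DT Str Bool)} {YY : Γ.W → Lang} {R : ℕ → Var → DT Str (Option (Fin Γ.N))}

theorem mem_qq {c : Col} {e : ℕ} : c ∈ (Γ.qq e).cols ↔ ∃ i < e, c = Γ.col i := by
  simp only [Ctx.qq, List.mem_map, List.mem_range]
  constructor
  · rintro ⟨i, hi, rfl⟩; exact ⟨i, hi, rfl⟩
  · rintro ⟨i, hi, rfl⟩; exact ⟨i, hi, rfl⟩

theorem mem_q {c : Col} : c ∈ Γ.q.cols ↔ ∃ i < Γ.J, c = Γ.col i := mem_qq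

include hΓ

theorem Ctx.OK.mem {i : ℕ} (hi : i < Γ.J) : Γ.col i ∈ Γ.q.cols := mem_q.2 ⟨i, hi, rfl⟩

theorem Ctx.OK.gd {i : ℕ} (hi : i < Γ.J) : Gd (Γ.col i) := hΓ.wf.gd _ (hΓ.mem hi)

theorem Ctx.OK.n_le_V (l : ℕ) : Γ.n ≤ Γ.V l := by
  unfold Ctx.V
  exact Nat.le_self_pow (by positivity) _

theorem Ctx.OK.V_mono {l l' : ℕ} (h : l ≤ l') : Γ.V l ≤ Γ.V l' := by
  unfold Ctx.V
  have := hΓ.hn16
  exact Nat.pow_le_pow_right (by omega) (Nat.pow_le_pow_right (by norm_num) h)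

omit hΓ in
theorem V_succ (l : ℕ) : Γ.V (l + 1) = Γ.V l ^ 2 := by
  unfold Ctx.V
  rw [← pow_mul, pow_succ]

omit hΓ in
theorem F_below (τ : ℕ → Str → Option (DT Str Bool)) (YY : Γ.W → Lang) (x : Γ.W) (v : Str)
    (h : v.length < Γ.n) : Γ.F τ YY x v = Γ.σ v :=
  Phi_below _ _ _ _ h

omit hΓ in
theorem F_false (τ : ℕ → Str → Option (DT Str Bool)) (YY : Γ.W → Lang) (x : Γ.W) (v : Str)
    (h : Γ.n ≤ (false :: v).length) : Γ.F τ YY x (false :: v) = YY x (false :: v) :=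
  Phi_free _ _ _ _ h (free_false _ _)

/-- views of table entries below the next level -/
theorem view2 {i : ℕ} (hi : i < Γ.J) {lv : ℕ} {y : Str} (hy : tl (Γ.col i) y < Γ.V (lv + 1)) :
    (y.length + 2) ^ (Γ.col i).bI < Γ.V lv := by
  have h1 := (hΓ.gd hi).view y (List.replicate ((y.length + 2) ^ (Γ.col i).bI) true) (by simp)
  rw [List.length_replicate] at h1
  set v := (y.length + 2) ^ (Γ.col i).bI
  have h2 : v ^ 2 ≤ v ^ (2 ^ ((Γ.col i).m + 1)) := by
    rcases Nat.eq_zero_or_pos v with h3 | h3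
    · rw [h3]; simp
    · apply Nat.pow_le_pow_right h3
      rw [pow_succ]
      have : 1 ≤ 2 ^ (Γ.col i).m := Nat.one_le_two_pow
      omega
  rw [V_succ] at hy
  exact lt_of_pow_lt_pow_left₀ 2 (Nat.zero_le _) (by omega)

/-- the values of columns with `lv ≤ m` are constant up to level `lv` -/
theorem lowC {i : ℕ} (hi : i < Γ.J) {lv : ℕ} (hm : lv ≤ (Γ.col i).m) {y : Str}
    (hy : tl (Γ.col i) y < Γ.V (lv + 1)) (τ : ℕ → Str → Option (DT Str Bool)) (YY : Γ.W → Lang)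
    (x : Γ.W) : nEval (Γ.col i).i (Γ.F τ YY x) y = nEval (Γ.col i).i Γ.σ y := by
  apply (hΓ.gd hi).hI.congr
  intro v hv
  apply F_below
  have h1 := (hΓ.gd hi).view y v hv
  by_contra hcon
  have h3 : Γ.n ^ (2 ^ ((Γ.col i).m + 1)) ≤ v.length ^ (2 ^ ((Γ.col i).m + 1)) :=
    Nat.pow_le_pow_left (by omega) _
  have h4 : Γ.V (lv + 1) ≤ Γ.n ^ (2 ^ ((Γ.col i).m + 1)) := by
    unfold Ctx.V
    apply Nat.pow_le_pow_right
    · have := hΓ.hn16; omega
    · exact Nat.pow_le_pow_right (by norm_num) (by omega)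
  omega

/-- the bits of the oracle: constant, free, or the value of a low column -/
theorem BitsAux.cases (h : Pre Γ i0 lv D m τ YY R) {lv' : ℕ} (hlv : lv' ≤ lv) (v : Str)
    (hv : v.length < Γ.V lv') :
    (∃ b, ∀ x, Γ.F τ YY x v = b) ∨ (∀ x, Γ.F τ YY x v = YY x v) ∨
    ∃ i < Γ.J, (Γ.col i).lo = true ∧ ∃ y, tl (Γ.col i) y < Γ.V lv' ∧ ∃ t1 t2 : Bool,
      ∀ x, Γ.F τ YY x v = (t1 && (t2 || nEval (Γ.col i).i (Γ.F τ YY x) y)) := by
  by_cases hn : v.length < Γ.n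
  · exact Or.inl ⟨Γ.σ v, fun x => F_below τ YY x v hn⟩
  have hn : Γ.n ≤ v.length := by omega
  by_cases hf : Free Γ.q v
  · exact Or.inr (Or.inl fun x => Phi_free _ _ _ _ hn hf)
  · unfold Free at hf
    push Not at hf
    obtain ⟨c, hc, y, w, t1, t2, rfl⟩ := hf
    obtain ⟨i, hi, rfl⟩ := mem_q.1 hc
    have h1 := tl_le (Γ.col i) y w t1 t2
    have h2 : ∀ x, Γ.F τ YY x (Pool.Agent.Lib.Pa76659H.tab (Γ.col i).j (Γ.col i).B y w t1 t2) =
        match τ (Γ.col i).j y with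
        | some T => tbit T w t1 t2
        | none => t1 && (t2 || nEval (Γ.col i).i (Γ.F τ YY x) y) :=
      fun x => Phi_tab hΓ.wf τ (YY x) hc y w t1 t2 hn
    cases hT : τ (Γ.col i).j y with
    | some T =>
        refine Or.inl ⟨tbit T w t1 t2, fun x => ?_⟩
        rw [h2, hT]
    | none =>
        cases hlo : (Γ.col i).lo with
        | true =>
            refine Or.inr (Or.inr ⟨i, hi, hlo, y, by omega, t1, t2, fun x => ?_⟩)
            rw [h2, hT]
        | false =>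
            have hVV := hΓ.V_mono hlv
            have h3 : tl (Γ.col i) y < Γ.n := by
              by_contra hcon
              have := h.tab1 i hi hlo y (by omega) (by omega)
              rw [hT] at this
              simp at this
            refine Or.inl ⟨t1 && (t2 || nEval (Γ.col i).i Γ.σ y), fun x => ?_⟩
            rw [h2, hT]
            simp only
            congr 2
            apply (hΓ.gd hi).congr
            intro u hu
            exact F_below τ YY x u (by omega)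

theorem Pre.bits (h : Pre Γ i0 lv D m τ YY R) (v : Str) (hv : v.length < Γ.V lv) :
    ∃ T : MT Var (Option (Fin Γ.N)) Bool, T.dle D ∧ ∀ x, Γ.F τ YY x v = T.eval x := by
  rcases BitsAux.cases hΓ h le_rfl v hv with ⟨b, hb⟩ | hb | ⟨i, hi, hlo, y, hy, t1, t2, hb⟩
  · exact ⟨MT.leaf b, by simp [MT.dle], hb⟩
  · obtain ⟨T, hT1, hT2⟩ := h.mt v
    exact ⟨T, hT1, fun x => by rw [hb, hT2]⟩
  · obtain ⟨T, hT1, hT2⟩ := h.low i hi hlo y hy
    refine ⟨T.bind (fun b => MT.leaf (t1 && (t2 || b))), ?_, fun x => ?_⟩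
    · have := MT.dle_bind (g := fun b => (MT.leaf (t1 && (t2 || b)) :
        MT Var (Option (Fin Γ.N)) Bool)) (e := 0) (fun b => by simp [MT.dle]) hT1
      simpa using this
    · rw [MT.eval_bind, ← hT2, hb]
      rfl

theorem St.bits {lv' : ℕ} (h : Pre Γ i0 lv D m τ YY R) (hst : St Γ i0 lv' E m τ YY)
    (hlv : lv' ≤ lv) (v : Str) (hv : v.length < Γ.V lv') :
    Steady (Γ.P i0 m) E (fun x => Γ.F τ YY x v) := by
  rcases BitsAux.cases hΓ h hlv v hv with ⟨b, hb⟩ | hb | ⟨i, hi, hlo, y, hy, t1, t2, hb⟩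
  · intro x u hu
    simp [hb]
  · have : (fun x => Γ.F τ YY x v) = fun x => YY x v := funext hb
    rw [this]
    exact hst.fr v
  · intro x u hu
    refine le_trans (Finset.card_le_card ?_) (hst.low i hi hlo y hy x u hu)
    intro c hc
    rw [Finset.mem_filter] at hc ⊢
    refine ⟨hc.1, fun he => hc.2 ?_⟩
    beta_reduce
    beta_reduce at he
    rw [hb, hb, he]

theorem Pre.mem (h : Pre Γ i0 lv D m τ YY R) (x : Γ.W) : Mem Γ.q (Γ.F τ YY x) := by
  apply Phi_mem hΓ.wf τ (YY x) _ (Γ.V lv)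
  · intro c hc y hy
    obtain ⟨i, hi, rfl⟩ := mem_q.1 hc
    exact h.tab0 i hi y (Or.inr (Or.inr hy))
  · intro c hc hlo y
    obtain ⟨i, hi, rfl⟩ := mem_q.1 hc
    exact h.tab0 i hi y (Or.inl hlo)
  · intro c hc y T hT
    obtain ⟨i, hi, rfl⟩ := mem_q.1 hc
    obtain ⟨h1, h2, ⟨d, h3, h4⟩, _⟩ := h.tab i hi y T hT
    exact ⟨h1 x, Γ.n ^ (Γ.col i).bM, d, h3, h2, h4⟩

end Pool.Agent.Lib.Pa76659B
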