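import Pool.Agent.Lib.Pa76659B.InvD

/-!
MODULE Connect2: processing a high column (adaptation of `Inv.connect`, Pa76659H/Ext.lean, with the
literal depth `D` instead of `n ^ bM + 2`; `rho`, `tie'`, `decBits`, `readN` of Pa76659H/Ext.lean do not depend on columns and
can be used). New: `Pre.gen` instead of `Inv.reparam`: its hypothesis `h1` (each old name, valid or not, depends
on at most one new name): names `(i0, ψ γ β :: b)` on `γ`, other names of family `i0` constant, `patch` on one name;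
`h2`: only valid new names are used.
-/

set_option maxHeartbeats 4000000
set_option linter.unusedSectionVars false
set_option linter.unusedVariables false

namespace Pool.Agent.Lib.Pa76659B

open Pool.Agent.Lib.Pa76659 Pool.Agent.Lib.Pa76659H Pool.Agent.Lib.Pa76659.Hier

theorem Inv.connect {Γ : Ctx} (hΓ : Γ.OK) {i0 lv D : ℕ} {m : ℕ → ℕ → ℕ}
    {τ : ℕ → Str → Option (DT Str Bool)} {YY : Γ.W → Lang}
    {R : ℕ → Var → DT Str (Option (Fin Γ.N))} (h : Inv Γ i0 lv D m τ YY R) (hi : i0 < Γ.J)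
    (hlo : (Γ.col i0).lo = false) (hl : (Γ.col i0).m ≤ lv)
    (hN : 1 ≤ Γ.N) (hNν : Γ.N = 2 ^ Γ.ν)
    (hC : ∀ u ∈ Γ.Q i0, ∃ T : MT Var (Option (Fin Γ.N)) Bool,
      T.dle D ∧ ∀ x, Γ.C τ YY i0 x u = T.eval x)
    (b : List ℕ) (x0 : List ℕ → Option (Fin Γ.N)) (Good : Finset ℕ)
    (hb1 : b.length + 1 = Γ.k i0) (hb2 : VP (m i0) 1 b) (hGd : Good ⊆ Finset.range (m i0 0))
    (hL : ∀ a ∈ Good, ∃ L : DT Str Bool, L.depth ≤ Γ.n ^ (Γ.col i0).bM ∧ L.QIn (Γ.Q i0) ∧
      ∀ o, L.eval (Γ.C τ YY i0 (Function.update (emb hN i0 x0) (i0, a :: b) o)) = o.isSome)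
    (K G : ℕ) (hK : (Γ.N + 1) * (Γ.n ^ (Γ.col i0).bM * D) ≤ K)
    (hG : 2 * K + 1 ≤ G)
    (hGood : 2 * (2 * K + 1) *
      ((names (Finset.Icc (i0 + 1) Γ.J) Γ.k (thinM G m)).card * (Γ.ν + 1)) ≤ Good.card) :
    ∃ (ρ : Γ.W → Γ.W) (R' : ℕ → Var → DT Str (Option (Fin Γ.N))),
      Inv Γ (i0 + 1) lv D (thinM G m) τ (fun z => YY (ρ z)) R' := by
  classical
  set I' := Finset.Icc (i0 + 1) Γ.J with hI'
  set Γ0 := names I' Γ.k (thinM G m) with hΓ0
  set t := Γ.n ^ (Γ.col i0).bM with ht
  set z0 : Γ.W := emb hN i0 x0 with hz0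
  -- trees
  have hL' : ∀ a, ∃ L : DT Str Bool, a ∈ Good → L.depth ≤ t ∧ L.QIn (Γ.Q i0) ∧
      ∀ o, L.eval (Γ.C τ YY i0 (Function.update z0 (i0, a :: b) o)) = o.isSome := by
    intro a
    by_cases ha : a ∈ Good
    · obtain ⟨L, hL⟩ := hL a ha
      exact ⟨L, fun _ => hL⟩
    · exact ⟨DT.leaf true, fun h => absurd h ha⟩
  choose L hL using hL'
  have hU : ∀ a, ∃ U : MT Var (Option (Fin Γ.N)) Bool, a ∈ Good → U.dle (t * D) ∧
      ∀ x, U.eval x = (L a).eval (Γ.C τ YY i0 x) := by
    intro a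
    by_cases ha : a ∈ Good
    · obtain ⟨U, hU⟩ := MT.exists_ofDT (Γ.C τ YY i0) (Γ.Q i0) D hC (L a) t (hL a ha).1
        (hL a ha).2.1
      exact ⟨U, fun _ => hU⟩
    · exact ⟨MT.leaf true, fun h => absurd h ha⟩
  choose U hU using hU
  -- classification of variables
  let cls : Var → Option (ℕ ⊕ Var) := fun v =>
    if v.1 = i0 then
      match v.2 with
      | [] => none
      | a :: u => if u = b then some (Sum.inl a) else none
    else some (Sum.inr v)
  let cert : ℕ → Finset (ℕ ⊕ Var) := fun a =>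
    (Finset.univ : Finset (Option (Fin Γ.N))).biUnion (fun o =>
      (((U a).path (Function.update z0 (i0, a :: b) o)).filterMap cls).toFinset)
  have hcert : ∀ a ∈ Good, (cert a).card ≤ K := by
    intro a ha
    refine (Finset.card_biUnion_le.trans ?_).trans hK
    calc ∑ o : Option (Fin Γ.N),
          ((((U a).path (Function.update z0 (i0, a :: b) o)).filterMap cls).toFinset).card
        ≤ ∑ _o : Option (Fin Γ.N), t * D := by
          apply Finset.sum_le_sum
          intro o _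
          exact ((List.toFinset_card_le _).trans (List.length_filterMap_le _ _)).trans
            (MT.path_length _ (hU a ha).1)
      _ = _ := by
          rw [Finset.sum_const, Finset.card_univ, smul_eq_mul]
          simp
  let grp : Var → Finset Var := fun γ => match γ with
    | (i, []) => ∅
    | (i, g :: u) => (Finset.range G).image (fun y => (i, (g * G + y) :: u))
  have hvne : ∀ γ, Vld I' Γ.k (thinM G m) γ → ∃ i g u, γ = (i, g :: u) := by
    rintro ⟨i, u⟩ hγ
    have hk1 := hΓ.hk1 i (Finset.mem_Icc.1 hγ.1).2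
    rcases u with _ | ⟨g, u⟩
    · have := hγ.2.1
      simp only [List.length_nil] at this
      omega
    · exact ⟨i, g, u, rfl⟩
  have hG0 : 1 ≤ G := by omega
  obtain ⟨chV, S', hS1, hS2, hch, hS3, hS4⟩ := select Good cert K hcert Γ0 grp (by
      intro γ hγ γ' hγ' hne
      obtain ⟨i, g, u, rfl⟩ := hvne γ (mem_names.1 hγ)
      obtain ⟨i', g', u', rfl⟩ := hvne γ' (mem_names.1 hγ')
      rw [Finset.disjoint_left]
      intro v hv hv'
      simp only [grp, Finset.mem_image, Finset.mem_range] at hv hv'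
      obtain ⟨y, hy, rfl⟩ := hv
      obtain ⟨y', hy', he⟩ := hv'
      simp only [Prod.mk.injEq, List.cons.injEq] at he
      obtain ⟨e1, e2, e3⟩ := he
      apply hne
      have e4 : g = g' := by
        have h1 : (g' * G + y') / G = g' := by
          rw [mul_comm, Nat.mul_add_div (by omega), Nat.div_eq_of_lt hy', add_zero]
        have h2 : (g * G + y) / G = g := by
          rw [mul_comm, Nat.mul_add_div (by omega), Nat.div_eq_of_lt hy, add_zero]
        rw [← h1, ← h2, e2]
      rw [e1, e3, e4]) (by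
      intro γ hγ
      obtain ⟨i, g, u, rfl⟩ := hvne γ (mem_names.1 hγ)
      simp only [grp]
      rw [Finset.card_image_of_injective _ (by intro y y' h; simpa using h), Finset.card_range]
      exact hG) (Γ0.card * (Γ.ν + 1)) hGood
  -- the chosen names
  let ch : Var → ℕ := fun γ => match (chV γ).2 with
    | [] => 0
    | a :: _ => a
  have hchV : ∀ i u g, Vld I' Γ.k (thinM G m) (i, g :: u) →
      chV (i, g :: u) = (i, ch (i, g :: u) :: u) ∧
      g * G ≤ ch (i, g :: u) ∧ ch (i, g :: u) < (g + 1) * G := by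
    intro i u g hγ
    have h1 := hch _ (mem_names.2 hγ)
    simp only [grp, Finset.mem_image, Finset.mem_range] at h1
    obtain ⟨y, hy, he⟩ := h1
    have h2 : ch (i, g :: u) = g * G + y := by simp only [ch, ← he]
    rw [h2]
    exact ⟨he.symm, by omega, by rw [show (g + 1) * G = g * G + G by ring]; omega⟩
  have hch2 : ∀ i u g, Vld I' Γ.k (thinM G m) (i, g :: u) →
      g * G ≤ ch (i, g :: u) ∧ ch (i, g :: u) < (g + 1) * G := fun i u g h => (hchV i u g h).2
  -- the assignment of the names of the family to the pairs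
  have hψ : ∃ ψ : Var → ℕ → ℕ, (∀ γ ∈ Γ0, ∀ β ≤ Γ.ν, ψ γ β ∈ S') ∧
      ∀ γ ∈ Γ0, ∀ γ' ∈ Γ0, ∀ β ≤ Γ.ν, ∀ β' ≤ Γ.ν, ψ γ β = ψ γ' β' → γ = γ' ∧ β = β' := by
    have h1 : Fintype.card (↥Γ0 × Fin (Γ.ν + 1)) ≤ Fintype.card ↥S' := by
      rw [Fintype.card_prod, Fintype.card_coe, Fintype.card_fin, Fintype.card_coe]
      exact hS2
    obtain ⟨e⟩ := Function.Embedding.nonempty_of_card_le h1
    refine ⟨fun γ β => if hh : γ ∈ Γ0 ∧ β ≤ Γ.ν then
      (e (⟨γ, hh.1⟩, ⟨β, by omega⟩) : ℕ) else 0, ?_, ?_⟩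
    · intro γ hγ β hβ
      beta_reduce
      rw [dif_pos ⟨hγ, hβ⟩]
      exact (e _).2
    · intro γ hγ γ' hγ' β hβ β' hβ' he
      beta_reduce at he
      rw [dif_pos ⟨hγ, hβ⟩, dif_pos ⟨hγ', hβ'⟩] at he
      have := e.injective (Subtype.ext he)
      simp only [Prod.mk.injEq, Subtype.mk.injEq, Fin.mk.injEq] at this
      exact this
  obtain ⟨ψ, hψ1, hψ2⟩ := hψ
  set ρ : Γ.W → Γ.W := rho Γ.ν i0 I' Γ.k m G ch (some ⟨0, hN⟩) b ψ x0 with hρ
  have hρψ : ∀ z, ∀ γ ∈ Γ0, ∀ β ≤ Γ.ν, ρ z (i0, ψ γ β :: b) = tie' Γ.ν β (z γ) := by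
    intro z γ hγ β hβ
    have hh : ∃ t : Var × ℕ, Vld I' Γ.k (thinM G m) t.1 ∧ t.2 ≤ Γ.ν ∧
        (i0, ψ γ β :: b).2 = ψ t.1 t.2 :: b := ⟨(γ, β), mem_names.1 hγ, hβ, rfl⟩
    simp only [hρ, rho, if_true]
    rw [dif_pos hh]
    obtain ⟨a1, a2, a3⟩ := hh.choose_spec
    obtain ⟨e1, e2⟩ := hψ2 γ hγ _ (mem_names.2 a1) β hβ _ a2 (List.cons.inj a3).1
    rw [← e1, ← e2]
  have hρother : ∀ z u, (∀ γ ∈ Γ0, ∀ β ≤ Γ.ν, u ≠ ψ γ β :: b) → ρ z (i0, u) = x0 u := by
    intro z u hu
    simp only [hρ, rho, if_true]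
    rw [dif_neg]
    rintro ⟨t, a1, a2, a3⟩
    exact hu t.1 (mem_names.2 a1) t.2 a2 a3
  have hρpatch : ∀ z (v : Var), v.1 ≠ i0 → ρ z v =
      patch I' Γ.k m G ch (fun _ => some ⟨0, hN⟩) z v := by
    intro z v hv
    simp only [hρ, rho]
    rw [if_neg hv]
  -- the leaf trees read the names
  have hread : ∀ z, ∀ γ ∈ Γ0, ∀ β ≤ Γ.ν,
      (L (ψ γ β)).eval (Γ.C τ YY i0 (ρ z)) = (tie' Γ.ν β (z γ)).isSome := by
    intro z γ hγ β hβ
    have ha := hψ1 γ hγ β hβ
    have haG := hS1 ha
    set a := ψ γ β with hadef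
    set o := tie' Γ.ν β (z γ) with ho
    rw [← (hL a haG).2.2 o, ← (hU a haG).2, ← (hU a haG).2]
    apply MT.eval_path
    intro v hv
    have hcl : ∀ w, cls v = some w → w ∈ cert a := by
      intro w hw
      simp only [cert, Finset.mem_biUnion]
      exact ⟨o, Finset.mem_univ _, List.mem_toFinset.2 (List.mem_filterMap.2 ⟨v, hv, hw⟩)⟩
    obtain ⟨i, u⟩ := v
    by_cases hii : i = i0
    · subst hii
      by_cases hu : ∃ a', u = a' :: b
      · obtain ⟨a', rfl⟩ := hu
        by_cases haa : a' = a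
        · subst haa
          rw [Function.update_self, hadef, hρψ z γ hγ β hβ]
        · have h1 : Sum.inl a' ∈ cert a := hcl _ (by simp [cls])
          have h2 : a' ∉ S' := fun h2 => hS4 a ha a' h2 haa h1
          rw [hρother z (a' :: b) (by
            intro γ' hγ' β' hβ' he
            simp only [List.cons.injEq, and_true] at he
            rw [he] at h2
            exact h2 (hψ1 γ' hγ' β' hβ'))]
          rw [Function.update_of_ne (by simp [haa])]
          simp [hz0, emb]
      · rw [hρother z u (by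
          intro γ' _ β' _ he
          exact hu ⟨_, he⟩)]
        rw [Function.update_of_ne (by
          intro he
          simp only [Prod.mk.injEq, true_and] at he
          exact hu ⟨_, he⟩)]
        simp [hz0, emb]
    · rw [hρpatch z (i, u) hii, Function.update_of_ne (by simp [hii])]
      have h1 : Sum.inr (i, u) ∈ cert a := hcl _ (by simp [cls, hii])
      have h2 : z0 (i, u) = some ⟨0, hN⟩ := by simp [hz0, emb, hii]
      rw [h2]
      rcases u with _ | ⟨a', u⟩
      · rfl
      · simp only [patch]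
        rw [if_neg]
        rintro ⟨h3, h4⟩
        apply hS3 a ha _ (mem_names.2 h3)
        rw [(hchV _ _ _ h3).1, ← h4]
        exact h1
  have hsrc : ∀ v : Var, Src (Γ.P (i0 + 1) (thinM G m)) ρ v := by
    rintro ⟨i, u⟩
    by_cases hii : i = i0
    · subst hii
      by_cases hu : ∃ γ ∈ Γ0, ∃ β ≤ Γ.ν, u = ψ γ β :: b
      · obtain ⟨γ, hγ, β, hβ, rfl⟩ := hu
        right
        refine ⟨γ, mem_names.1 hγ, ?_⟩
        by_cases hβν : β < Γ.ν
        · right
          refine ⟨β, fun z => ?_⟩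
          rw [hρψ z γ hγ β hβ]
          simp [tie', hβν]
        · left
          intro z
          rw [hρψ z γ hγ β hβ]
          simp [tie', hβν]
      · left
        push Not at hu
        exact ⟨x0 u, fun z => hρother z u hu⟩
    · rcases u with _ | ⟨a', u⟩
      · left
        exact ⟨_, fun z => by rw [hρpatch z _ hii]; rfl⟩
      · by_cases hc : Vld I' Γ.k (thinM G m) (i, (a' / G) :: u) ∧ a' = ch (i, (a' / G) :: u)
        · right
          refine ⟨(i, (a' / G) :: u), hc.1, Or.inl fun z => ?_⟩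
          rw [hρpatch z _ hii]
          simp only [patch]
          rw [if_pos hc]
        · left
          refine ⟨some ⟨0, hN⟩, fun z => ?_⟩
          rw [hρpatch z _ hii]
          simp only [patch]
          rw [if_neg hc]
  have hlv : ∀ i < Γ.J, i < i0 + 1 → (Γ.col i).m ≤ lv := by
    intro i hiJ hlt
    by_cases hii : i = i0
    · rw [hii]; exact hl
    · exact (h.pre.lvl i hiJ).1 (by omega)
  refine ⟨ρ, fun i v => if i = i0 then
      (readN (fun β => L (ψ v β)) (Γ.ν + 1) (fun _ => false)).map (decBits Γ.N Γ.ν)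
    else R i (chV v), ?_, fun v => (h.lit v).comp (fun v _ => hsrc v), ?_⟩
  · refine h.pre.gen (Nat.le_succ _) hi hlv ρ ?_ ?_ ?_
    · intro v
      rcases hsrc v with ⟨c, hc⟩ | ⟨v', _, h1 | ⟨β, h1⟩⟩
      · exact ⟨v, fun z z' _ => by rw [hc, hc]⟩
      · exact ⟨v', fun z z' e => by rw [h1, h1, e]⟩
      · exact ⟨v', fun z z' e => by rw [h1, h1, e]⟩
    · intro z z' hzz v _
      rcases hsrc v with ⟨c, hc⟩ | ⟨v', hv', h1 | ⟨β, h1⟩⟩
      · rw [hc, hc]
      · rw [h1, h1, hzz v' hv']
      · rw [h1, h1, hzz v' hv']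
    · intro i hlt hlo' v hv
      have hvm := mem_names.2 hv
      by_cases hii : i = i0
      · subst hii
        simp only [if_true]
        refine ⟨fun z => ?_, ?_, ?_⟩
        · rw [DT.eval_map, readN_eval]
          apply decBits_eq hNν
          intro β hβ
          simp only [show β < Γ.ν + 1 by omega, if_true]
          exact hread z v hvm β hβ
        · apply DT.QIn.map
          apply readN_qin
          intro β hβ
          exact (hL _ (hS1 (hψ1 v hvm β (by omega)))).2.1
        · rw [DT.depth_map]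
          apply readN_depth
          intro β hβ
          exact (hL _ (hS1 (hψ1 v hvm β (by omega)))).1
      · simp only [if_neg hii]
        obtain ⟨j, g, u, rfl⟩ := hvne v hv
        have hj : j ≠ i0 := by
          have := (Finset.mem_Icc.1 hv.1).1
          simp only at this
          omega
        obtain ⟨e1, e2, e3⟩ := hchV j u g hv
        have hP : Γ.P i0 m (chV (j, g :: u)) := by
          rw [e1]
          obtain ⟨h1, h2, h3⟩ := Thin.vld_old hv e3
          refine ⟨?_, h2, h3⟩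
          have := Finset.mem_Icc.1 h1
          simp only at this
          rw [Finset.mem_Icc]
          exact ⟨by show i0 ≤ j; omega, this.2⟩
        obtain ⟨a1, a2, a3⟩ := h.pre.read i (by omega) hlo' _ hP
        refine ⟨fun z => ?_, a2, a3⟩
        rw [a1, hρpatch z _ (by rw [e1]; exact hj), e1]
        exact (patch_sel _ z hG0 hch2 hv).2.1
  · intro i hiI z X hX
    have hii : i ≠ i0 := by
      have := (Finset.mem_Icc.1 hiI).1
      omega
    have hi' : i ∈ Finset.Icc i0 Γ.J := by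
      rw [Finset.mem_Icc] at hiI ⊢
      exact ⟨by omega, hiI.2⟩
    rw [h.tree i hi' (ρ z) X hX]
    rw [← (patch_rs (i0 := i0 + 1) hΓ hG0 (x0 := fun _ => some ⟨0, hN⟩) (fun _ => rfl) hch2).tr
      i hiI z]
    congr 1
    funext u
    rw [hρpatch z (i, u) hii]

end Pool.Agent.Lib.Pa76659B
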