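import Pool.Agent.Lib.Pa76659B.Lim

/-!
Families of worlds at one scale, with low and high columns.
-/

set_option maxHeartbeats 4000000
set_option linter.unusedSectionVars false

namespace Pool.Agent.Lib.Pa76659B

open Pool.Agent.Lib.Pa76659 Pool.Agent.Lib.Pa76659H Pool.Agent.Lib.Pa76659.Hier

/-- Context: the oracle is frozen (as `σ`) below length `n`; the columns are `col i`, `i < J`; the
names of family `i ≤ J` are the leaves of a tree of height `k i`; names have values in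
`Option (Fin N)`; `ν` bounds the depth of reading trees. -/
structure Ctx where
  n : ℕ
  σ : Lang
  J : ℕ
  col : ℕ → Col
  k : ℕ → ℕ
  N : ℕ
  ν : ℕ

namespace Ctx

variable (Γ : Ctx)

abbrev W := Var → Option (Fin Γ.N)

/-- the condition with the columns before `e` -/
def qq (e : ℕ) : Cnd := ⟨Γ.n, Γ.σ, (List.range e).map Γ.col⟩

def q : Cnd := Γ.qq Γ.J

/-- the oracle of the world `x` -/
noncomputable def F (τ : ℕ → Str → Option (DT Str Bool)) (YY : Γ.W → Lang) (x : Γ.W) : Lang :=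
  Phi Γ.q τ (YY x)

/-- the oracle of the world `x` joined with the set of column `i` -/
noncomputable def C (τ : ℕ → Str → Option (DT Str Bool)) (YY : Γ.W → Lang) (i : ℕ) (x : Γ.W) :
    Lang := join (Γ.F τ YY x) (hs (Γ.col i) (Γ.F τ YY x))

/-- valid names -/
def P (i0 : ℕ) (m : ℕ → ℕ → ℕ) : Var → Prop := Vld (Finset.Icc i0 Γ.J) Γ.k m

/-- strings asked by the machine of column `i` -/
def Q (i : ℕ) : Set Str := {u | u.length ≤ Γ.n ^ (Γ.col i).bM}

/-- level -/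
def V (lv : ℕ) : ℕ := Γ.n ^ (2 ^ lv)

/-- the context with the columns before `e` only, family `e` having height `K` and values in
`Fin N'` -/
def sub (e N' K : ℕ) : Ctx := ⟨Γ.n, Γ.σ, e, Γ.col, Function.update Γ.k e K, N', Γ.ν⟩

structure OK : Prop where
  wf : WF Γ.q
  inj : ∀ i < Γ.J, ∀ i' < Γ.J, (Γ.col i).j = (Γ.col i').j → i = i'
  hcm : ∀ i i', i ≤ i' → i' < Γ.J → (Γ.col i).m ≤ (Γ.col i').m
  hk : ∀ i < Γ.J, (Γ.col i).lo = false → Γ.k i = (Γ.col i).l.length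
  hk1 : ∀ i ≤ Γ.J, 1 ≤ Γ.k i
  hn16 : 16 ≤ Γ.n
  hJ : Γ.J + 2 ≤ Γ.n
  hν : Γ.ν + 1 ≤ Γ.n
  hj : ∀ i < Γ.J, 2 * ((Γ.col i).j + 7) ≤ Γ.n

/-- the low columns are justified -/
def JL : Prop := ∀ i < Γ.J, (Γ.col i).lo = true → JustL (Γ.qq i) (Γ.col i)

end Ctx

/-- A family of worlds: names of the families `i0, ..., J` are alive, the high columns before `i0`
are processed (they read all names by `R`), the tables and low values are understood up to length
`V lv`; all bits of the free part `YY` are multi-valued trees of depth at most `D`. -/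
structure Pre (Γ : Ctx) (i0 lv D : ℕ) (m : ℕ → ℕ → ℕ) (τ : ℕ → Str → Option (DT Str Bool))
    (YY : Γ.W → Lang) (R : ℕ → Var → DT Str (Option (Fin Γ.N))) : Prop where
  le : i0 ≤ Γ.J
  dep : ∀ x x' : Γ.W, (∀ v, Γ.P i0 m v → x v = x' v) → YY x = YY x'
  mt : ∀ v : Str, ∃ T : MT Var (Option (Fin Γ.N)) Bool, T.dle D ∧ ∀ x, YY x v = T.eval x
  tab1 : ∀ i < Γ.J, (Γ.col i).lo = false → ∀ y, Γ.n ≤ tl (Γ.col i) y →
    tl (Γ.col i) y < Γ.V lv → (τ (Γ.col i).j y).isSome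
  tab0 : ∀ i < Γ.J, ∀ y, ((Γ.col i).lo = true ∨ tl (Γ.col i) y < Γ.n ∨
    Γ.V lv ≤ tl (Γ.col i) y) → τ (Γ.col i).j y = none
  tab : ∀ i < Γ.J, ∀ y T, τ (Γ.col i).j y = some T →
    (∀ x, T.eval (Γ.C τ YY i x) = nEval (Γ.col i).i (Γ.F τ YY x) y) ∧ T.QIn (Γ.Q i) ∧
    (∃ d, T.depth ≤ d ∧ d * (Γ.n ^ (Γ.col i).bM + 1) + 1 ≤ fuel (Γ.col i) y) ∧
    (i0 ≤ i → ∃ b, T = DT.leaf b)
  low : ∀ i < Γ.J, (Γ.col i).lo = true → ∀ y, tl (Γ.col i) y < Γ.V lv →
    ∃ T : MT Var (Option (Fin Γ.N)) Bool, T.dle D ∧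
      ∀ x, nEval (Γ.col i).i (Γ.F τ YY x) y = T.eval x
  lvl : ∀ i < Γ.J, (i < i0 → (Γ.col i).m ≤ lv) ∧ (i0 ≤ i → lv ≤ (Γ.col i).m)
  read : ∀ i < i0, (Γ.col i).lo = false → ∀ v, Γ.P i0 m v →
    (∀ x, (R i v).eval (Γ.C τ YY i x) = x v) ∧
    (R i v).QIn (Γ.Q i) ∧ (R i v).depth ≤ (Γ.ν + 1) * Γ.n ^ (Γ.col i).bM

/-- Changing one name from none to some `y` changes the bit for at most `E` values of `y`. -/
def Steady {N : ℕ} (P : Var → Prop) (E : ℕ) (g : (Var → Option (Fin N)) → Bool) : Prop :=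
  ∀ x v, P v → (Finset.univ.filter (fun y : Fin N =>
    g (Function.update x v (some y)) ≠ g (Function.update x v none))).card ≤ E

/-- the free bits, and the low values up to level `lv`, are steady -/
structure St (Γ : Ctx) (i0 lv E : ℕ) (m : ℕ → ℕ → ℕ) (τ : ℕ → Str → Option (DT Str Bool))
    (YY : Γ.W → Lang) : Prop where
  fr : ∀ v, Steady (Γ.P i0 m) E (fun x => YY x v)
  low : ∀ i < Γ.J, (Γ.col i).lo = true → ∀ y, tl (Γ.col i) y < Γ.V lv →
    Steady (Γ.P i0 m) E (fun x => nEval (Γ.col i).i (Γ.F τ YY x) y)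

/-- Restriction of the worlds: each new name controls exactly one old name, the other old names
are constant, and the trees keep their values. -/
structure Rs (Γ : Ctx) (i0 : ℕ) (m m' : ℕ → ℕ → ℕ) (ρ : Γ.W → Γ.W) : Prop where
  one : ∀ v, ∃ v', ∀ z z' : Γ.W, z v' = z' v' → ρ z v = ρ z' v
  src : ∀ v, Γ.P i0 m v → (∃ c, ∀ z, ρ z v = c) ∨ ∃ v', Γ.P i0 m' v' ∧ ∀ z, ρ z v = z v'
  upd : ∀ v', Γ.P i0 m' v' → ∃ v, Γ.P i0 m v ∧
    ∀ (z : Γ.W) o, ρ (Function.update z v' o) = Function.update (ρ z) v o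
  tr : ∀ i ∈ Finset.Icc i0 Γ.J, ∀ z : Γ.W,
    tr (m i) (Γ.k i) (fun u => (ρ z (i, u)).isSome) [] =
      tr (m' i) (Γ.k i) (fun u => (z (i, u)).isSome) []

/-- numerical regime: polynomials in `n` of degree `g` are small compared with the base `Nb` of
the block sizes and with the quotient of the number of values and the steadiness bound -/
structure Rg (Γ : Ctx) (Nb E g : ℕ) : Prop where
  pw : Γ.n ^ g ≤ Nb
  le : Γ.N ≤ Nb
  pos : 1 ≤ E
  gap : E * Γ.n ^ g ≤ Γ.N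

/-- subtract `t` from the exponents of the leaf blocks -/
def decT (t : ℕ) (ee : ℕ → ℕ → ℕ) : ℕ → ℕ → ℕ := fun i => Function.update (ee i) 0 (ee i 0 - t)

/-- No reading: the set of the low column `e` does not read none/some of all names of a tree of
height `K` (its level of lowness). -/
def NR (col : ℕ → Col) (e lv d : ℕ) : Prop := ∃ g a n1 : ℕ, ∀ Γ : Ctx, Γ.OK → Γ.col = col →
  Γ.J = e → Γ.k e = (col e).l.length → n1 ≤ Γ.n →
  (∀ i ≤ e, (col i).lo = true → JustL (Γ.qq i) (col i)) →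
  ∀ Nb E, Rg Γ Nb E g → Nb ^ (∑ h ∈ Finset.range (Γ.k e), seqE a h) ≤ 2 ^ Γ.n →
  ∀ (τ : ℕ → Str → Option (DT Str Bool)) (YY : Γ.W → Lang)
    (R : ℕ → Var → DT Str (Option (Fin Γ.N))),
  Pre Γ e lv (Γ.n ^ d) (shp Nb (fun _ h => seqE a h)) τ YY R →
  St Γ e lv E (shp Nb (fun _ h => seqE a h)) τ YY →
  (∀ u, Γ.P e (shp Nb (fun _ h => seqE a h)) (e, u) → ∃ y, tl (col e) y < Γ.V (lv + 1) ∧
    ∀ x, nEval (col e).i (Γ.F τ YY x) y = (x (e, u)).isSome) → False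

end Pool.Agent.Lib.Pa76659B
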