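import Pool.Agent.Lib.Pa76659B.Sw2
import Pool.Agent.Lib.Pa76659H.Thin

/-!
MODULE Thin2: restriction of a family of worlds (adaptation of Pa76659H/Thin.lean; uses `switch2`
as a black box).

PROOF as in Pa76659H/Thin.lean: apply `switch2` with `ι = ↥(names I k m)`, `α = Option (Fin N)`,
`r = some` to each `f θ ∘ ext`, where `ext x v = x v` on valid names and `some 0` elsewhere. `hpc`
and `hr1` pass to `f θ ∘ ext` (for a point certificate `T` take the subset of valid names: two
extended worlds agree outside the names). The old proof used certificates, everything else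
(counting, choice of a live name in each group, pulling the tree back by `MT.exists_comap`) is
unchanged; the dead value of an invalid name is `some 0`, of a valid name `some (ξ v)`.
-/

set_option maxHeartbeats 4000000

namespace Pool.Agent.Lib.Pa76659B

open Pool.Agent.Lib.Pa76659 Pool.Agent.Lib.Pa76659H

namespace Thin2Aux

/-- `Function.update` does not depend on the decidability instance. -/
theorem upd_irrel {ι β : Type} (d1 d2 : DecidableEq ι) (x : ι → β) (i : ι) (b : β) :
    @Function.update ι (fun _ => β) d1 x i b = @Function.update ι (fun _ => β) d2 x i b := by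
  funext j
  by_cases h : j = i
  · subst h
    rw [@Function.update_self ι (fun _ => β) d1, @Function.update_self ι (fun _ => β) d2]
  · rw [@Function.update_of_ne ι (fun _ => β) d1 _ _ h, @Function.update_of_ne ι (fun _ => β) d2 _ _ h]

open Classical in
/-- Existence of a good restriction. -/
theorem exists_good2 {ι Θ K : Type} [Fintype ι] [Fintype Θ] (N R w s A c : ℕ)
    (F : Θ → (ι → Option (Fin N)) → Bool) (hN : 1 ≤ N)
    (hpc : ∀ θ x, F θ x = true → ∃ T : Finset ι, T.card ≤ w ∧
      ∀ y, (∀ i ∈ T, y i = x i) → F θ y = true)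
    (hr1 : ∀ θ x i, F θ x = true → ∃ c : Fin N, F θ (Function.update x i (some c)) = true)
    (hΘ : Fintype.card Θ ≤ 2 ^ A) (hs : A + 1 ≤ s) (hR : 4 * w * (N + 1) * N + 1 ≤ R)
    (G0 : Finset K) (grp : K → Finset ι) (hG : ∀ γ ∈ G0, (R + 1) * c ≤ (grp γ).card)
    (hc : 4 * G0.card ≤ 2 ^ c) :
    ∃ (κ : ι → Fin (R + 1)) (ξ : ι → Fin N), (∀ θ, Sh {i | κ i = 0} (some ∘ ξ) s (F θ)) ∧
      ∀ γ ∈ G0, ∃ e ∈ grp γ, κ e = 0 := by
  by_contra hcon
  push Not at hcon
  have : NeZero N := ⟨by omega⟩
  set M := Fintype.card ((ι → Fin (R + 1)) × (ι → Fin N)) with hM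
  have hM0 : 0 < M := Fintype.card_pos
  let B1 : Θ → Finset ((ι → Fin (R + 1)) × (ι → Fin N)) := fun θ =>
    Finset.univ.filter (fun p => ¬ Sh {i | p.1 i = 0} (some ∘ p.2) s (F θ))
  let B2 : K → Finset ((ι → Fin (R + 1)) × (ι → Fin N)) := fun γ =>
    Finset.univ.filter (fun p => ∀ e ∈ grp γ, p.1 e ≠ 0)
  have h1 : ∀ θ, (B1 θ).card * 2 ^ (s + 1) ≤ M := by
    intro θ
    have h : (B1 θ).card * R ^ (s + 1) ≤ M * (2 * w * Fintype.card (Option (Fin N)) * N) ^ (s + 1) :=
      switch2 N R w s (some : Fin N → Option (Fin N)) (F θ) (hpc θ) (hr1 θ)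
    rw [Fintype.card_option, Fintype.card_fin] at h
    set X := 2 * w * (N + 1) * N with hX
    have hRX : 2 * X ≤ R := by
      rw [hX]
      calc 2 * (2 * w * (N + 1) * N) = 4 * w * (N + 1) * N := by ring
        _ ≤ R := by omega
    rcases Nat.eq_zero_or_pos X with h0 | h0
    · rw [h0] at h
      have hR1 : 0 < R ^ (s + 1) := by
        apply Nat.pow_pos; omega
      have h2 : (B1 θ).card = 0 := by
        have h3 : (B1 θ).card * R ^ (s + 1) ≤ 0 := by simpa using h
        rcases Nat.mul_eq_zero.1 (Nat.le_zero.1 h3) with h4 | h4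
        · exact h4
        · omega
      rw [h2]; omega
    · have h2 : (B1 θ).card * (2 * X) ^ (s + 1) ≤ M * X ^ (s + 1) :=
        (Nat.mul_le_mul_left _ (Nat.pow_le_pow_left hRX _)).trans h
      rw [mul_pow, ← mul_assoc] at h2
      exact Nat.le_of_mul_le_mul_right h2 (Nat.pow_pos h0)
  have h2 : ∀ γ ∈ G0, (B2 γ).card * 2 ^ c ≤ M := by
    intro γ hγ
    have h := Switch.count_nonzero R (grp γ) c (hG γ hγ) (by omega)
    have e1 : B2 γ = (Finset.univ.filter (fun f : ι → Fin (R + 1) => ∀ e ∈ grp γ, f e ≠ 0)) ×ˢ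
        (Finset.univ : Finset (ι → Fin N)) := by
      ext p
      simp [B2]
    have e2 : M = Fintype.card (ι → Fin (R + 1)) * Fintype.card (ι → Fin N) := by
      rw [hM, Fintype.card_prod]
    rw [e1, Finset.card_product, Finset.card_univ, e2]
    calc _ = ((Finset.univ.filter (fun f : ι → Fin (R + 1) => ∀ e ∈ grp γ, f e ≠ 0)).card * 2 ^ c)
          * Fintype.card (ι → Fin N) := by ring
      _ ≤ _ := Nat.mul_le_mul_right _ (by convert h)
  have h3 : (Finset.univ : Finset ((ι → Fin (R + 1)) × (ι → Fin N))) ⊆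
      (Finset.univ.biUnion B1) ∪ (G0.biUnion B2) := by
    intro p _
    by_contra hp
    simp only [Finset.mem_union, Finset.mem_biUnion, Finset.mem_univ, true_and, not_or,
      not_exists, not_and] at hp
    obtain ⟨γ, hγ, hγ2⟩ := hcon p.1 p.2 (fun θ => by
      have := hp.1 θ
      simpa [B1] using this)
    apply hp.2 γ hγ
    simp only [B2, Finset.mem_filter, Finset.mem_univ, true_and]
    exact hγ2
  have h4 := Finset.card_le_card h3
  rw [Finset.card_univ] at h4
  have h5 : M ≤ ∑ θ, (B1 θ).card + ∑ γ ∈ G0, (B2 γ).card :=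
    h4.trans ((Finset.card_union_le _ _).trans
      (Nat.add_le_add Finset.card_biUnion_le Finset.card_biUnion_le))
  have h6 : (∑ θ, (B1 θ).card) * 4 ≤ M := by
    have h7 : (∑ θ, (B1 θ).card) * 2 ^ (s + 1) ≤ 2 ^ A * M := by
      rw [Finset.sum_mul]
      calc ∑ θ, (B1 θ).card * 2 ^ (s + 1) ≤ ∑ _θ : Θ, M := Finset.sum_le_sum (fun i _ => h1 i)
        _ = Fintype.card Θ * M := by simp
        _ ≤ 2 ^ A * M := Nat.mul_le_mul_right _ hΘ
    have h8 : 2 ^ (A + 2) ≤ 2 ^ (s + 1) := Nat.pow_le_pow_right (by norm_num) (by omega)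
    have h9 : 2 ^ A * ((∑ θ, (B1 θ).card) * 4) ≤ 2 ^ A * M := by
      calc 2 ^ A * ((∑ θ, (B1 θ).card) * 4) = (∑ θ, (B1 θ).card) * 2 ^ (A + 2) := by ring
        _ ≤ (∑ θ, (B1 θ).card) * 2 ^ (s + 1) := Nat.mul_le_mul_left _ h8
        _ ≤ _ := h7
    exact Nat.le_of_mul_le_mul_left h9 (by positivity)
  have h7 : (∑ γ ∈ G0, (B2 γ).card) * 4 ≤ M := by
    rcases Nat.eq_zero_or_pos G0.card with h0 | h0
    · rw [Finset.card_eq_zero.1 h0]; simp
    · have h8 : (∑ γ ∈ G0, (B2 γ).card) * 2 ^ c ≤ G0.card * M := by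
        rw [Finset.sum_mul]
        calc ∑ γ ∈ G0, (B2 γ).card * 2 ^ c ≤ ∑ _γ ∈ G0, M := Finset.sum_le_sum (fun i hi => h2 i hi)
          _ = G0.card * M := by simp
      have h9 : G0.card * ((∑ γ ∈ G0, (B2 γ).card) * 4) ≤ G0.card * M := by
        calc G0.card * ((∑ γ ∈ G0, (B2 γ).card) * 4)
            = (∑ γ ∈ G0, (B2 γ).card) * (4 * G0.card) := by ring
          _ ≤ (∑ γ ∈ G0, (B2 γ).card) * 2 ^ c := Nat.mul_le_mul_left _ hc
          _ ≤ _ := h8
      exact Nat.le_of_mul_le_mul_left h9 h0
  omega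

end Thin2Aux

open Classical Pa76659H.Thin Thin2Aux in
theorem thin2 (N R w s A c G : ℕ) (I : Finset ℕ) (k : ℕ → ℕ) (m : ℕ → ℕ → ℕ)
    (hk : ∀ i ∈ I, 1 ≤ k i) {Θ : Type} [Fintype Θ]
    (f : Θ → (Var → Option (Fin N)) → Bool) (hN : 1 ≤ N)
    (hpc : ∀ θ x, f θ x = true → ∃ T : Finset Var, T.card ≤ w ∧
      ∀ y, (∀ v ∈ T, y v = x v) → f θ y = true)
    (hr1 : ∀ θ x v, Vld I k m v → f θ x = true →
      ∃ y : Fin N, f θ (Function.update x v (some y)) = true)
    (hΘ : Fintype.card Θ ≤ 2 ^ A) (hs : A + 1 ≤ s) (hR : 4 * w * (N + 1) * N + 1 ≤ R)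
    (hG : (R + 1) * c ≤ G) (hG0 : 1 ≤ G) (hc : 4 * (names I k (thinM G m)).card ≤ 2 ^ c) :
    ∃ (x0 : Var → Option (Fin N)) (ch : Var → ℕ), (∀ v, (x0 v).isSome) ∧
      (∀ i u g, Vld I k (thinM G m) (i, g :: u) →
        g * G ≤ ch (i, g :: u) ∧ ch (i, g :: u) < (g + 1) * G) ∧
      ∀ θ, ∃ T : MT Var (Option (Fin N)) Bool, T.dle s ∧
        ∀ z, f θ (patch I k m G ch x0 z) = T.eval z := by
  let ι : Type := {v : Var // v ∈ names I k m}
  let z0 : Fin N := ⟨0, hN⟩
  let lift : (ι → Option (Fin N)) → (Var → Option (Fin N)) := fun x v =>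
    if h : v ∈ names I k m then x ⟨v, h⟩ else some z0
  have hlift : ∀ (x : ι → Option (Fin N)) (i : ι), lift x i.1 = x i := by
    intro x i
    simp only [lift]
    rw [dif_pos i.2]
  have hlift2 : ∀ (x : ι → Option (Fin N)) (i : ι) (o : Option (Fin N)),
      lift (Function.update x i o) = Function.update (lift x) i.1 o := by
    intro x i o
    funext v
    by_cases hv : v = i.1
    · subst hv
      rw [Function.update_self, hlift, Function.update_self]
    · rw [Function.update_of_ne hv]
      simp only [lift]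
      split_ifs with h
      · rw [Function.update_of_ne]
        intro he
        exact hv (congrArg Subtype.val he)
      · rfl
  have hpc' : ∀ θ (x : ι → Option (Fin N)), f θ (lift x) = true → ∃ T : Finset ι, T.card ≤ w ∧
      ∀ y : ι → Option (Fin N), (∀ i ∈ T, y i = x i) → f θ (lift y) = true := by
    intro θ x hx
    obtain ⟨T, hT1, hT2⟩ := hpc θ _ hx
    refine ⟨T.subtype (fun v => v ∈ names I k m), ?_, fun y hy => hT2 _ fun v hv => ?_⟩
    · rw [Finset.card_subtype]
      exact (Finset.card_filter_le _ _).trans hT1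
    · simp only [lift]
      split_ifs with h
      · exact hy ⟨v, h⟩ (Finset.mem_subtype.2 hv)
      · rfl
  have hr1' : ∀ θ (x : ι → Option (Fin N)) (i : ι), f θ (lift x) = true →
      ∃ c : Fin N, f θ (lift (Function.update x i (some c))) = true := by
    intro θ x i hx
    obtain ⟨c, hc⟩ := hr1 θ _ i.1 (mem_names.1 i.2) hx
    exact ⟨c, by rw [hlift2]; exact hc⟩
  -- the groups
  let grp : Var → Finset ι := fun v => match v with
    | (i, []) => ∅
    | (i, g :: u) => Finset.univ.filter (fun e : ι => ∃ y < G, e.1 = (i, (g * G + y) :: u))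
  have hgrp : ∀ γ ∈ names I k (thinM G m), (R + 1) * c ≤ (grp γ).card := by
    rintro ⟨i, u⟩ hγ
    rw [mem_names] at hγ
    rcases u with _ | ⟨g, u⟩
    · exfalso
      have h1 := hk i hγ.1
      have h2 := hγ.2.1
      simp only [List.length_nil] at h2
      omega
    · refine hG.trans ?_
      have hval : ∀ y : Fin G, (i, (g * G + y.1) :: u) ∈ names I k m := by
        intro y
        rw [mem_names]
        apply vld_old hγ
        have := y.2
        calc g * G + y.1 < g * G + G := by omega
          _ = (g + 1) * G := by ring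
      calc G = Fintype.card (Fin G) := by simp
        _ = ((Finset.univ : Finset (Fin G)).image
              (fun y => (⟨(i, (g * G + y.1) :: u), hval y⟩ : ι))).card := by
            rw [Finset.card_image_of_injective, Finset.card_univ]
            intro y y' h
            have h1 := congrArg Subtype.val h
            simp only [Prod.mk.injEq, List.cons.injEq, true_and, and_true] at h1
            exact Fin.ext (by omega)
        _ ≤ _ := by
            apply Finset.card_le_card
            intro e he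
            rw [Finset.mem_image] at he
            obtain ⟨y, _, rfl⟩ := he
            simp only [grp, Finset.mem_filter, Finset.mem_univ, true_and]
            exact ⟨y.1, y.2, rfl⟩
  obtain ⟨κ, ξ, hκ1, hκ2⟩ := exists_good2 N R w s A c (fun θ (x : ι → Option (Fin N)) =>
      f θ (lift x)) hN hpc' (fun θ x i hx => by
      obtain ⟨c, hc⟩ := hr1' θ x i hx
      refine ⟨c, ?_⟩
      rw [upd_irrel _ (inferInstanceAs (DecidableEq ι)) x i (some c)]
      exact hc) hΘ hs hR (names I k (thinM G m)) grp hgrp hc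
  -- the choice
  have hch : ∀ v : Var, ∃ a : ℕ, ∀ i g u, v = (i, g :: u) → Vld I k (thinM G m) v →
      g * G ≤ a ∧ a < (g + 1) * G ∧ ∀ h : (i, a :: u) ∈ names I k m, κ ⟨(i, a :: u), h⟩ = 0 := by
    rintro ⟨i, u⟩
    rcases u with _ | ⟨g, u⟩
    · refine ⟨0, ?_⟩
      intro i' g' u' h _
      simp at h
    · by_cases hv : Vld I k (thinM G m) (i, g :: u)
      · obtain ⟨e, he1, he2⟩ := hκ2 _ (mem_names.2 hv)
        simp only [grp, Finset.mem_filter, Finset.mem_univ, true_and] at he1
        obtain ⟨y, hy, hy2⟩ := he1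
        refine ⟨g * G + y, ?_⟩
        intro i' g' u' h _
        simp only [Prod.mk.injEq, List.cons.injEq] at h
        obtain ⟨rfl, rfl, rfl⟩ := h
        refine ⟨by omega, ?_, ?_⟩
        · calc g * G + y < g * G + G := by omega
            _ = (g + 1) * G := by ring
        · intro h
          have : e = ⟨(i, (g * G + y) :: u), h⟩ := Subtype.ext hy2
          rw [← this]; exact he2
      · refine ⟨0, ?_⟩
        intro i' g' u' _ h2
        exact absurd h2 hv
  choose ch hch using hch
  let x0 : Var → Option (Fin N) := fun v => if h : v ∈ names I k m then some (ξ ⟨v, h⟩) else some z0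
  refine ⟨x0, ch, ?_, ?_, ?_⟩
  · intro v
    simp only [x0]
    split_ifs <;> rfl
  · intro i u g hv
    obtain ⟨h1, h2, _⟩ := hch (i, g :: u) i g u rfl hv
    exact ⟨h1, h2⟩
  · intro θ
    obtain ⟨T, hT1, hT2⟩ := hκ1 θ
    obtain ⟨T', hT3, hT4⟩ := MT.exists_comap (ι' := Var) (α' := Option (Fin N))
      (fun z (e : ι) => patch I k m G ch x0 z e.1) (by
        rintro ⟨⟨i, u⟩, he⟩
        rcases u with _ | ⟨a, u⟩
        · exact ⟨(i, []), fun x y _ => rfl⟩
        · refine ⟨(i, (a / G) :: u), fun x y hxy => ?_⟩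
          simp only [patch]
          rw [hxy]) hT1
    refine ⟨T', hT3, fun z => ?_⟩
    rw [hT4, ← hT2]
    · congr 1
      funext v
      simp only [lift]
      split_ifs with hv
      · rfl
      · obtain ⟨i, u⟩ := v
        rcases u with _ | ⟨a, u⟩
        · simp only [patch, x0]
          rw [dif_neg hv]
        · simp only [patch]
          rw [if_neg]
          · simp only [x0]
            rw [dif_neg hv]
          · rintro ⟨h1, h2⟩
            obtain ⟨_, h3, _⟩ := hch (i, (a / G) :: u) i (a / G) u rfl h1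
            rw [← h2] at h3
            exact hv (mem_names.2 (Thin.vld_old h1 h3))
    · rintro ⟨⟨i, u⟩, he⟩ hi
      simp only [Set.mem_setOf_eq] at hi
      rcases u with _ | ⟨a, u⟩
      · simp only [patch, x0, Function.comp]
        rw [dif_pos he]
      · simp only [patch, Function.comp]
        rw [if_neg]
        · simp only [x0]
          rw [dif_pos he]
        · rintro ⟨h1, h2⟩
          obtain ⟨_, _, h3⟩ := hch (i, (a / G) :: u) i (a / G) u rfl h1
          apply hi
          rw [← h2] at h3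
          exact h3 he


end Pool.Agent.Lib.Pa76659B
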