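import Pool.Agent.Lib.Pa76659B.Up
import Pool.Agent.Lib.Pa76659B.RsLem
import Pool.Agent.Lib.Pa76659B.Thin2

/-!
The step to the next level: the worlds are restricted with `thin2` (exponents of the leaf blocks drop by
`4`), so that all values of the columns below the next level become multi-valued trees of small depth.
-/

set_option maxHeartbeats 4000000

namespace Pool.Agent.Lib.Pa76659B

open Pool.Agent.Lib.Pa76659 Pool.Agent.Lib.Pa76659H Pool.Agent.Lib.Pa76659.Hier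

/-- strings of length less than `L` -/
abbrev LvS (L : ℕ) : Type := Σ n : Fin L, List.Vector Bool n

theorem card_LvS (L : ℕ) : Fintype.card (LvS L) ≤ 2 ^ L := by
  rw [Fintype.card_sigma]
  simp only [card_vector, Fintype.card_bool]
  rw [Fin.sum_univ_eq_sum_range (fun n => 2 ^ n) L]
  have := Nat.geomSum_eq (m := 2) (by norm_num) L
  rw [this]
  simp

theorem exists_LvS {L : ℕ} (y : Str) (hy : y.length < L) : ∃ t : LvS L, t.2.1 = y :=
  ⟨⟨⟨y.length, hy⟩, ⟨y, rfl⟩⟩, rfl⟩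

/-- fuel is enough -/
theorem lvl_fuel_large {c : Col} {y : Str} {V : ℕ} (hV : 16 ≤ V) (hj : 2 * (c.j + 7) ≤ V)
    (h : V ≤ tl c y) : V ^ 16 ≤ fuel c y := by
  unfold tl at h
  unfold fuel
  set P := (y.length + 2) ^ (2 ^ c.B) with hP
  have h1 : y.length + 2 ≤ P := Nat.le_self_pow (by positivity) _
  have h2 : V ≤ 4 * P := by omega
  have h3 : V ≤ P ^ 2 := by nlinarith
  have h4 : (y.length + 2) ^ (2 ^ (c.B + 5)) = P ^ 32 := by
    rw [hP, ← pow_mul]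
    congr 1
    rw [pow_add]; norm_num
  rw [h4]
  calc V ^ 16 ≤ (P ^ 2) ^ 16 := Nat.pow_le_pow_left h3 _
    _ = P ^ 32 := by rw [← pow_mul]

theorem lvl_card_names {I : Finset ℕ} {k : ℕ → ℕ} {m : ℕ → ℕ → ℕ} {n kk J : ℕ}
    (hI : I.card ≤ J + 1) (hk : ∀ i ∈ I, k i ≤ kk) (hm : ∀ i ∈ I, ∀ h < k i, m i h ≤ 2 ^ n) :
    4 * (names I k m).card ≤ 2 ^ (n * kk + J + 3) := by
  have h1 : (names I k m).card ≤ (J + 1) * 2 ^ (n * kk) := by
    refine (card_names I k m).trans ?_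
    calc ∑ i ∈ I, ∏ j ∈ Finset.range (k i), m i j ≤ ∑ _i ∈ I, 2 ^ (n * kk) := by
          apply Finset.sum_le_sum
          intro i hi
          calc ∏ j ∈ Finset.range (k i), m i j ≤ ∏ _j ∈ Finset.range (k i), 2 ^ n :=
                Finset.prod_le_prod' (fun j hj => hm i hi j (Finset.mem_range.1 hj))
            _ = 2 ^ (n * k i) := by
                rw [Finset.prod_const, Finset.card_range, ← pow_mul]
            _ ≤ 2 ^ (n * kk) := Nat.pow_le_pow_right (by norm_num)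
                (Nat.mul_le_mul_left _ (hk i hi))
      _ = I.card * 2 ^ (n * kk) := by rw [Finset.sum_const, smul_eq_mul]
      _ ≤ (J + 1) * 2 ^ (n * kk) := Nat.mul_le_mul_right _ hI
  have h2 : J + 1 ≤ 2 ^ J := Nat.lt_two_pow_self
  calc 4 * (names I k m).card ≤ 4 * ((J + 1) * 2 ^ (n * kk)) := Nat.mul_le_mul_left _ h1
    _ ≤ 4 * (2 ^ J * 2 ^ (n * kk)) := Nat.mul_le_mul_left _ (Nat.mul_le_mul_right _ h2)
    _ ≤ 2 ^ (n * kk + J + 3) := by
        rw [pow_add, pow_add]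
        nlinarith [Nat.pos_of_ne_zero (show 2 ^ (n * kk) * 2 ^ J ≠ 0 by positivity)]

/-- the numbers of the step -/
theorem lvl_num {n J kk l d N Nb : ℕ} (hn : kk + J + 16 ≤ n) (hN1 : 1 ≤ N) (hNb : N ≤ Nb)
    (hg : n ^ (l + d + 4) ≤ Nb) :
    (4 * (n ^ l * n ^ d) * (N + 1) * N + 1 + 1) * (n * kk + J + 3) ≤ Nb ^ 4 := by
  set w := n ^ l * n ^ d with hw
  have hw1 : 1 ≤ w := Nat.one_le_iff_ne_zero.2 (by
    have : n ≠ 0 := by omega
    positivity)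
  have hB1 : 1 ≤ Nb := hN1.trans hNb
  have h1 : 4 * w * (N + 1) * N + 1 + 1 ≤ 10 * w * Nb ^ 2 := by
    have a1 : N + 1 ≤ 2 * Nb := by omega
    have a2 : 4 * w * (N + 1) * N ≤ 4 * w * (2 * Nb) * Nb :=
      Nat.mul_le_mul (Nat.mul_le_mul_left _ a1) hNb
    have a3 : 1 ≤ w * Nb ^ 2 := Nat.one_le_iff_ne_zero.2 (by positivity)
    nlinarith
  have h2 : n * kk + J + 3 ≤ n ^ 2 := by nlinarith
  have h3 : n ^ (l + d + 4) = n * n ^ 3 * w := by
    rw [hw]; ring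
  have h4 : 10 * w * n ^ 2 ≤ Nb := by
    refine le_trans ?_ hg
    rw [h3]
    have b1 : 10 ≤ n := by omega
    have b2 : n ^ 2 ≤ n ^ 3 := Nat.pow_le_pow_right (by omega) (by norm_num)
    calc 10 * w * n ^ 2 = 10 * n ^ 2 * w := by ring
      _ ≤ n * n ^ 3 * w := Nat.mul_le_mul_right _ (Nat.mul_le_mul b1 b2)
  calc _ ≤ 10 * w * Nb ^ 2 * n ^ 2 := Nat.mul_le_mul h1 h2
    _ = (10 * w * n ^ 2) * Nb ^ 2 := by ring
    _ ≤ Nb * Nb ^ 2 := Nat.mul_le_mul_right _ h4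
    _ = Nb ^ 3 := by ring
    _ ≤ Nb ^ 4 := Nat.pow_le_pow_right hB1 (by norm_num)

theorem lvl_step (J lv d kk : ℕ) (hd : 2 ^ (lv + 1) + 1 ≤ d) : ∃ t g n1 : ℕ, ∀ (Γ : Ctx), Γ.OK →
    Γ.J = J → n1 ≤ Γ.n → ∀ (Nb E : ℕ), Rg Γ Nb E g →
    ∀ (i0 : ℕ), (∀ i ∈ Finset.Icc i0 Γ.J, Γ.k i ≤ kk) → ∀ (ee : ℕ → ℕ → ℕ) (τ : ℕ → Str → Option (DT Str Bool)) (YY : Γ.W → Lang)
      (R : ℕ → Var → DT Str (Option (Fin Γ.N))),
    Pre Γ i0 lv (Γ.n ^ d) (shp Nb ee) τ YY R → St Γ i0 lv E (shp Nb ee) τ YY →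
    (∀ i < Γ.J, i0 ≤ i → lv + 1 ≤ (Γ.col i).m) → (∀ i, t ≤ ee i 0) →
    (∀ i ∈ Finset.Icc i0 Γ.J, ∀ h < Γ.k i, Nb ^ ee i h ≤ 2 ^ Γ.n) →
    ∃ (τ' : ℕ → Str → Option (DT Str Bool)) (ρ : Γ.W → Γ.W)
      (R' : ℕ → Var → DT Str (Option (Fin Γ.N))),
      Pre Γ i0 (lv + 1) (Γ.n ^ d) (shp Nb (decT t ee)) τ' (fun z => YY (ρ z)) R' ∧
      St Γ i0 lv E (shp Nb (decT t ee)) τ' (fun z => YY (ρ z)) ∧
      Rs Γ i0 (shp Nb ee) (shp Nb (decT t ee)) ρ ∧
      ∀ z v, v.length < Γ.V lv → Γ.F τ' (fun z => YY (ρ z)) z v = Γ.F τ YY (ρ z) v := by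
  classical
  refine ⟨4, 2 ^ (lv + 1) + d + 4, kk + J + 16, ?_⟩
  rintro Γ hΓ rfl hn Nb E hRg i0 hkk ee τ YY R h hst hlv hee hsm
  have hn16 := hΓ.hn16
  have hV1 : Γ.V (lv + 1) = Γ.n ^ (2 ^ (lv + 1)) := rfl
  have hV1pos : 1 ≤ Γ.V (lv + 1) := Nat.one_le_pow _ _ (by omega)
  have hng : 1 ≤ Γ.n ^ (2 ^ (lv + 1) + d + 4) := Nat.one_le_pow _ _ (by omega)
  have hE1 := hRg.pos
  have hN1 : 1 ≤ Γ.N := le_trans (Nat.mul_le_mul hE1 hng) hRg.gap
  have hNb1 : 1 ≤ Nb := hN1.trans hRg.le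
  have hVE : Γ.V (lv + 1) * E < Γ.N := by
    refine lt_of_lt_of_le ?_ hRg.gap
    rw [mul_comm]
    apply Nat.mul_lt_mul_of_pos_left _ hE1
    rw [hV1]
    exact Nat.pow_lt_pow_right (by omega) (by omega)
  have hVlv : Γ.V lv ≤ Γ.V (lv + 1) := hΓ.V_mono (by omega)
  have hs : Γ.V (lv + 1) + Γ.J + 1 ≤ Γ.n ^ d := by
    calc Γ.V (lv + 1) + Γ.J + 1 ≤ Γ.V (lv + 1) * Γ.n := by nlinarith
      _ = Γ.n ^ (2 ^ (lv + 1) + 1) := by rw [hV1, ← pow_succ]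
      _ ≤ Γ.n ^ d := Nat.pow_le_pow_right (by omega) hd
  have hG0 : 1 ≤ Nb ^ 4 := Nat.one_le_pow _ _ hNb1
  have hth := thinM_shp2 (Nb := Nb) (t := 4) hNb1 hee
  let f : Fin Γ.J × LvS (Γ.V (lv + 1)) → Γ.W → Bool := fun θ x =>
    if tl (Γ.col θ.1) θ.2.2.1 < Γ.V (lv + 1) then
      nEval (Γ.col θ.1).i (Γ.F τ YY x) θ.2.2.1 else false
  obtain ⟨x0, ch, hx0, hch, hT⟩ := thin2 Γ.N
    (4 * (Γ.V (lv + 1) * Γ.n ^ d) * (Γ.N + 1) * Γ.N + 1) (Γ.V (lv + 1) * Γ.n ^ d)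
    (Γ.V (lv + 1) + Γ.J + 1) (Γ.V (lv + 1) + Γ.J) (Γ.n * kk + Γ.J + 3) (Nb ^ 4)
    (Finset.Icc i0 Γ.J) Γ.k (shp Nb ee)
    (fun i hi => hΓ.hk1 i (Finset.mem_Icc.1 hi).2) f hN1 (by
      rintro ⟨i, y⟩ x hx
      simp only [f] at hx
      split_ifs at hx with hy
      have hi := i.2
      have h3 := view2 hΓ hi hy
      obtain ⟨T, hT1, hT2⟩ := nEval_pc (V := Γ.V lv) (w := Γ.V (lv + 1)) (Γ.F τ YY)
        (fun v hv => h.bits hΓ v hv) (Γ.col i).i (hΓ.gd hi).hI y.2.1 h3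
        (h3.le.trans hVlv) x hx
      refine ⟨T, hT1, fun z hz => ?_⟩
      simp only [f]
      rw [if_pos hy]
      exact hT2 z hz) (by
      rintro ⟨i, y⟩ x v hv hx
      rcases hxv : x v with _ | y0
      · have hx0 : Function.update x v none = x := by
          rw [← hxv]; exact Function.update_eq_self _ _
        simp only [f] at hx
        split_ifs at hx with hy
        have hi := i.2
        have h3 := view2 hΓ hi hy
        have h4 := nEval_st (P := Γ.P i0 (shp Nb ee)) (V := Γ.V lv) (w := Γ.V (lv + 1)) (E := E)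
          (Γ.F τ YY) (fun u hu => St.bits hΓ h hst le_rfl u hu) (Γ.col i).i (hΓ.gd hi).hI
          y.2.1 h3 (h3.le.trans hVlv) x v hv (by rw [hx0]; exact hx)
        obtain ⟨c, hc⟩ : ∃ c : Fin Γ.N, c ∉ (Finset.univ.filter (fun c : Fin Γ.N =>
            nEval (Γ.col i).i (Γ.F τ YY (Function.update x v (some c))) y.2.1 = false)) := by
          by_contra hcon
          push Not at hcon
          have h5 := Finset.card_le_card (fun c _ => hcon c :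
            (Finset.univ : Finset (Fin Γ.N)) ⊆ _)
          rw [Finset.card_univ, Fintype.card_fin] at h5
          omega
        refine ⟨c, ?_⟩
        simp only [f]
        rw [if_pos hy]
        simpa using hc
      · refine ⟨y0, ?_⟩
        rw [← hxv, Function.update_eq_self]
        exact hx) (by
      rw [Fintype.card_prod, Fintype.card_fin]
      have h3 := card_LvS (Γ.V (lv + 1))
      have h4 : Γ.J ≤ 2 ^ Γ.J := Nat.lt_two_pow_self.le
      calc _ ≤ 2 ^ Γ.J * 2 ^ Γ.V (lv + 1) := Nat.mul_le_mul h4 h3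
        _ = 2 ^ (Γ.V (lv + 1) + Γ.J) := by rw [← pow_add, add_comm]) le_rfl le_rfl
    (lvl_num hn hN1 hRg.le hRg.pw) hG0 (by
      rw [hth]
      apply lvl_card_names
      · rw [Nat.card_Icc]; omega
      · exact hkk
      · intro i hi j hj
        refine le_trans ?_ (hsm i hi j hj)
        unfold shp decT
        apply Nat.pow_le_pow_right hNb1
        rcases Nat.eq_zero_or_pos j with rfl | hj0
        · rw [Function.update_self]; omega
        · rw [Function.update_of_ne (by omega)])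
  have hρ := patch_rs hΓ hG0 hx0 hch
  rw [hth] at hρ
  set ρ : Γ.W → Γ.W := fun z => patch (Finset.Icc i0 Γ.J) Γ.k (shp Nb ee) (Nb ^ 4) ch x0 z
    with hρdef
  obtain ⟨R', h1⟩ := h.rs hρ
  have hst1 := hst.rs hρ
  obtain ⟨τ', h2, h3, h4⟩ := h1.up hΓ hlv (Γ.V (lv + 1) + Γ.J + 1) hs hN1 (by
    intro i hi y hy
    obtain ⟨t, ht⟩ := exists_LvS y (L := Γ.V (lv + 1)) (by
      have := tl_large (Γ.col i) y
      omega)
    obtain ⟨T, hT1, hT2⟩ := hT (⟨i, hi⟩, t)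
    refine ⟨T, hT1, fun x => ?_⟩
    rw [← hT2 x]
    simp only [f, ht]
    rw [if_pos hy]
    rfl) (by
    intro i hi hi0 y hy
    have hnV := hΓ.n_le_V lv
    refine le_trans ?_ (lvl_fuel_large (V := Γ.V lv) (by omega) ((hΓ.hj i hi).trans hnV) hy)
    have hb : Γ.n ^ (Γ.col i).bM ≤ Γ.V lv := by
      have h4 : Γ.n ^ (Γ.col i).bM < Γ.n ^ (2 ^ (Γ.col i).m) := (hΓ.gd hi).lev1 (by omega)
      have h5 : Γ.n ^ (2 ^ (Γ.col i).m) ≤ Γ.V lv := by
        unfold Ctx.V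
        apply Nat.pow_le_pow_right (by omega)
        exact Nat.pow_le_pow_right (by norm_num) ((h.lvl i hi).1 hi0)
      omega
    rw [V_succ]
    have hJ := hΓ.hJ
    have hν := hΓ.hν
    set V := Γ.V lv with hV
    set b := Γ.n ^ (Γ.col i).bM with hbdef
    have e1 : V ^ 2 + Γ.J + 1 ≤ V ^ 3 := by nlinarith
    have e2 : (Γ.ν + 1) * b ≤ V * V := Nat.mul_le_mul (by omega) hb
    have e3 : b + 1 ≤ V ^ 2 := by nlinarith
    have e4 : V ^ 3 * (V * V) * V ^ 2 + 1 ≤ V ^ 16 := by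
      have : V ^ 3 * (V * V) * V ^ 2 = V ^ 7 := by ring
      rw [this]
      have h8 : V ^ 16 = V ^ 7 * V ^ 9 := by ring
      rw [h8]
      have h9 : 2 ≤ V ^ 9 := by
        calc 2 ≤ V ^ 1 := by rw [pow_one]; omega
          _ ≤ V ^ 9 := Nat.pow_le_pow_right (by omega) (by norm_num)
      have h10 : 1 ≤ V ^ 7 := Nat.one_le_pow _ _ (by omega)
      nlinarith
    calc _ ≤ V ^ 3 * (V * V) * V ^ 2 + 1 := by
          apply Nat.add_le_add_right
          exact Nat.mul_le_mul (Nat.mul_le_mul e1 e2) e3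
      _ ≤ _ := e4)
  exact ⟨τ', ρ, R', h2, h3 E hst1, hρ, fun z v hv => h4 z v hv⟩

end Pool.Agent.Lib.Pa76659B
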