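import Pool.Agent.Lib.Pa76659B.NRs
import Pool.Agent.Lib.Pa76659B.Level
import Pool.Agent.Lib.Pa76659B.Abl

/-!
The nested induction: families extend to higher levels, and low sets read nothing.
-/

set_option maxHeartbeats 4000000

namespace Pool.Agent.Lib.Pa76659B

open Pool.Agent.Lib.Pa76659 Pool.Agent.Lib.Pa76659H Pool.Agent.Lib.Pa76659.Hier

theorem decT_decT (t t' : ℕ) (ee : ℕ → ℕ → ℕ) : decT t' (decT t ee) = decT (t + t') ee := by
  funext i h
  unfold decT
  rcases Nat.eq_zero_or_pos h with rfl | hh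
  · simp only [Function.update_self]; omega
  · rw [Function.update_of_ne (by omega), Function.update_of_ne (by omega),
      Function.update_of_ne (by omega)]

theorem decT_zero (t : ℕ) (ee : ℕ → ℕ → ℕ) (i : ℕ) : decT t ee i 0 = ee i 0 - t := by
  simp [decT]

theorem decT_le (t : ℕ) (ee : ℕ → ℕ → ℕ) (i h : ℕ) : decT t ee i h ≤ ee i h := by
  unfold decT
  rcases Nat.eq_zero_or_pos h with rfl | hh
  · simp
  · rw [Function.update_of_ne (by omega)]

theorem decT_self (ee : ℕ → ℕ → ℕ) : decT 0 ee = ee := by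
  funext i h
  unfold decT
  rcases Nat.eq_zero_or_pos h with rfl | hh
  · simp
  · rw [Function.update_of_ne (by omega)]

theorem Rg.mono {Γ : Ctx} {Nb E g g' : ℕ} (h : Rg Γ Nb E g) (hn : 1 ≤ Γ.n) (hg : g' ≤ g) :
    Rg Γ Nb E g' :=
  ⟨(Nat.pow_le_pow_right hn hg).trans h.pw, h.le, h.pos,
    (Nat.mul_le_mul_left _ (Nat.pow_le_pow_right hn hg)).trans h.gap⟩

theorem Rg.mul {Γ : Ctx} {Nb E g g1 g2 : ℕ} (h : Rg Γ Nb E g) (hn : 1 ≤ Γ.n)
    (hg : g1 + g2 ≤ g) : Rg Γ Nb (E * Γ.n ^ g1) g2 := by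
  have h' := h.mono hn hg
  refine ⟨(Nat.pow_le_pow_right hn (Nat.le_add_left _ _)).trans h'.pw, h.le, ?_, ?_⟩
  · have := h.pos
    exact Nat.one_le_iff_ne_zero.2 (Nat.mul_ne_zero (by omega) (by positivity))
  · rw [mul_assoc, ← pow_add]; exact h'.gap

theorem ext_all (col : ℕ → Col) (J : ℕ) (hnr : ∀ e < J, (col e).lo = true → ∀ lv d,
    (col e).m ≤ lv → NR col e lv d) (kk : ℕ) :
    ∀ (δ lv M d : ℕ), lv + δ = M → 2 ^ M + 1 ≤ d → EXT col J lv M d kk := by
  intro δ
  induction δ with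
  | zero =>
      intro lv M d hM hd
      obtain rfl : lv = M := by omega
      refine ⟨0, 0, 0, 0, fun Γ hΓ hcol hJ hk hn hJL Nb E hRg ee τ YY R hP hS ht hsz => ?_⟩
      refine ⟨τ, id, R, ?_, ?_, ?_, fun z v _ => rfl⟩
      · rw [decT_self]; exact hP
      · rw [decT_self, pow_zero, mul_one]; exact hS
      · rw [decT_self]; exact Rs.refl
  | succ δ ih =>
      intro lv M d hM hd
      have hd1 : 2 ^ (lv + 1) + 1 ≤ d := by
        refine le_trans ?_ hd
        have : 2 ^ (lv + 1) ≤ 2 ^ M := Nat.pow_le_pow_right (by norm_num) (by omega)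
        omega
      obtain ⟨t1, g1, n1, h1⟩ := lvl_step J lv d kk hd1
      obtain ⟨t2, g2, n2, h2⟩ := abl_step col J lv d (fun e he hlo hm => hnr e he hlo lv d hm)
      obtain ⟨t3, g3, g3', n3, h3⟩ := ih (lv + 1) M d (by omega) hd
      refine ⟨t1 + t2 + t3, g1 + g2 + g3, g2 + g3', max (max n1 n2) n3, ?_⟩
      intro Γ hΓ hcol hJ hk hn hJL Nb E hRg ee τ YY R hP hS ht hsz
      have hn0 : 1 ≤ Γ.n := by have := hΓ.hn16; omega
      have hIcc : ∀ i ∈ Finset.Icc J Γ.J, i = J := by
        intro i hi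
        rw [Finset.mem_Icc, hJ] at hi
        omega
      obtain ⟨τ1, ρ1, R1, hP1, hS1, hρ1, hF1⟩ := h1 Γ hΓ hJ (by omega) Nb E
        (hRg.mono hn0 (by omega)) J (by
          intro i hi
          rw [hIcc i hi]; exact hk) ee τ YY R hP hS (by
          intro i hi hi2; omega) (fun i => by have := ht i; omega) (by
          intro i hi
          rw [hIcc i hi]; exact hsz)
      obtain ⟨ρ2, R2, hP2, hS2, hρ2⟩ := h2 Γ hΓ hcol hJ (by omega) hJL Nb E
        (hRg.mono hn0 (by omega)) J (lv + 1) _ _ _ _ (Nat.lt_succ_self _) hP1 hS1 (by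
          intro i
          rw [decT_zero]
          have := ht i; omega) (by
          intro i hi h hh
          rw [hIcc i hi] at hh ⊢
          refine le_trans ?_ (hsz h hh)
          exact Nat.pow_le_pow_right (by
            have := hRg.pw
            have h5 : 1 ≤ Γ.n ^ (g1 + g2 + g3) := Nat.one_le_pow _ _ hn0
            omega) (decT_le _ _ _ _))
      obtain ⟨τ3, ρ3, R3, hP3, hS3, hρ3, hF3⟩ := h3 Γ hΓ hcol hJ hk (by omega) hJL Nb
        (E * Γ.n ^ g2) (hRg.mul hn0 (by omega)) _ _ _ _ hP2 hS2 (by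
          intro i
          rw [decT_zero, decT_zero]
          have := ht i; omega) (by
          intro h hh
          refine le_trans ?_ (hsz h hh)
          exact Nat.pow_le_pow_right (by
            have := hRg.pw
            have h5 : 1 ≤ Γ.n ^ (g1 + g2 + g3) := Nat.one_le_pow _ _ hn0
            omega) ((decT_le _ _ _ _).trans (decT_le _ _ _ _)))
      rw [decT_decT, decT_decT, ← add_assoc] at hP3 hS3
      rw [decT_decT, decT_decT] at hρ3
      rw [decT_decT] at hρ2
      refine ⟨τ3, fun z => ρ1 (ρ2 (ρ3 z)), R3, hP3, ?_, ?_, ?_⟩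
      · rw [mul_assoc, ← pow_add] at hS3
        exact hS3
      · exact Rs.trans hρ1 (Rs.trans hρ2 hρ3)
      · intro z v hv
        have hV : Γ.V lv ≤ Γ.V (lv + 1) := by
          unfold Ctx.V
          exact Nat.pow_le_pow_right hn0 (Nat.pow_le_pow_right (by norm_num) (by omega))
        exact (hF3 z v (by omega)).trans (hF1 _ v hv)

theorem nr_all (col : ℕ → Col) : ∀ e, (∀ i ≤ e, Gd (col i)) → (∀ i ≤ e, (col i).m ≤ (col e).m) →
    (∀ i i', i ≤ i' → i' ≤ e → (col i).m ≤ (col i').m) →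
    (col e).lo = true → ∀ lv d, (col e).m ≤ lv → NR col e lv d := by
  intro e
  induction e using Nat.strong_induction_on with
  | _ e ih =>
    intro hgd _ hmm hlo lv d hm
    apply nr_of_ext col e lv d hgd hlo hm
    intro M d' kk hM hd'
    refine ext_all col e (fun e' he' hlo' lv' d1 hm' => ?_) kk (M - lv) lv M
      d' (by omega) hd'
    exact ih e' he' (fun i hi => hgd i (by omega)) (fun i hi => hmm i e' hi (by omega))
      (fun i i' h1 h2 => hmm i i' h1 (by omega)) hlo' lv' d1 hm'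

end Pool.Agent.Lib.Pa76659B
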