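import Pool.Agent.Lib.Pa76659B.Lim

/-!
The low and the high classes relative to the oracle.
-/

set_option maxHeartbeats 4000000

namespace Pool.Agent.Lib.Pa76659B

open Pool.Agent.Lib.Pa76659 Pool.Agent.Lib.Pa76659H

/-- the value is read off the first string of the table -/
theorem lo_mem {X L : Lang} (j B : ℕ) (h : ∀ x, X (tab j B x [] true false) = L x) : L ∈ PO X := by
  refine ⟨Prog.seq (Pa76659H.Wk.pre j B) (Prog.seq (Prog.push 0 false) (Prog.seq
    (Prog.push 0 false) (Prog.seq (Prog.push 0 true) (Prog.seq (Prog.push 0 true)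
      (Prog.query 0 0))))), (12 * Polynomial.X + Polynomial.C B * (31 *
    ((Polynomial.X + 2) ^ (2 ^ B) + 1) ^ 2) + 4 * (Polynomial.X + 2) ^ (2 ^ B) +
    Polynomial.C (2 * j) + 50) + 20, fun x => ?_⟩
  simp only [Polynomial.eval_add, Polynomial.eval_mul, Polynomial.eval_X, Polynomial.eval_ofNat,
    Polynomial.eval_one, Polynomial.eval_C, Polynomial.eval_pow]
  have h1 := Pa76659H.Wk.exec_pre (O := X) j B x
  have h2 := Pa76659H.Wk.push_st (O := X) 0 false [code j B x, [], [], [], [], []] (by simp)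
  have h3 := Pa76659H.Wk.push_st (O := X) 0 false [false :: code j B x, [], [], [], [], []]
    (by simp)
  have h4 := Pa76659H.Wk.push_st (O := X) 0 true [false :: false :: code j B x, [], [], [], [], []]
    (by simp)
  have h5 := Pa76659H.Wk.push_st (O := X) 0 true
    [true :: false :: false :: code j B x, [], [], [], [], []] (by simp)
  have h6 := Pa76659H.Wk.query_st (O := X) 0 0
    [true :: true :: false :: false :: code j B x, [], [], [], [], []] (by simp)
  have h7 := h1.seq (h2.seq (h3.seq (h4.seq (h5.seq h6))))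
  obtain ⟨h8, h9⟩ := h7.halts (N := 12 * x.length + B * (31 * ((x.length + 2) ^ (2 ^ B) + 1) ^ 2) +
      4 * (x.length + 2) ^ (2 ^ B) + 2 * j + 50 + 20) (by omega)
  refine ⟨h8, Eq.trans ?_ h9.symm⟩
  show L x = (some (X (true :: true :: false :: false :: code j B x)) == some true)
  have h10 : X (true :: true :: false :: false :: code j B x) = L x := h x
  rw [h10]
  cases L x <;> rfl

theorem bothCollapse_of (hSL : ScaleLemma) : ∃ X : Lang, (∀ k, Sig X k ≠ Sig X (k + 1)) ∧
    (∀ k, Low X k = PO X) ∧ (∀ k, RLowSucc X k = PO X) ∧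
    (∀ k, High X k = TComp X) ∧ (∀ k, RHighSucc X k = TComp X) := by
  obtain ⟨X, hX1, hX2, hX3⟩ := exists_oracle2 hSL
  have h1 : ∀ k, High X (k + 1) ⊆ TComp X := by
    rintro k A ⟨hA, h2⟩
    refine ⟨hA, fun L hL => ?_⟩
    obtain ⟨a, ha⟩ := exists_nEval hA
    obtain ⟨i, hi⟩ := exists_nEval hL
    obtain ⟨p, l, hl, h3⟩ := exists_sEval (h2 (QQ_mem X (k + 1 + 1)))
    rcases hX2 a i p l (by rintro rfl; simp at hl) with ⟨s, hs⟩ | ⟨c, hc1, hc2, hc3⟩
    · rw [← ha, hl, ← h3] at hs
      exact absurd rfl hs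
    · apply walk_mem c.j c.B
      intro x
      have h4 := hc3 x
      unfold Wk hs fuel at h4
      rw [hc1, hc2, ← ha, ← hi] at h4
      exact h4
  have h0 : High X 0 ⊆ TComp X := by
    rintro A ⟨hA, h2⟩
    exact ⟨hA, fun L hL => h2 ⟨X, query_mem X, hL⟩⟩
  have h2 : ∀ k, High X k ⊆ TComp X := by
    intro k
    cases k with
    | zero => exact h0
    | succ k => exact h1 k
  have hl1 : ∀ k, Low X (k + 1) = PO X := by
    intro k
    apply Set.Subset.antisymm _ PO_low
    rintro A ⟨h1, h2⟩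
    obtain ⟨i, hi⟩ := exists_nEval h1
    have h3 := h2 (J_mem (join X A) (k + 1))
    obtain ⟨p, l, hl, h4⟩ := exists_sEval h3
    rcases hX3 i p l (by rintro rfl; simp at hl) with ⟨s, hs⟩ | ⟨c, h5, h6⟩
    · rw [← hi, hl, ← h4] at hs
      exact absurd rfl hs
    · apply lo_mem c.j c.B
      intro x
      rw [h6 x false, h5, ← hi, Bool.false_or]
  refine ⟨X, ?_, ?_, ?_, fun k => Set.Subset.antisymm (h2 k) tcomp_high,
    fun k => Set.Subset.antisymm (rhigh_high.trans (h2 _)) (tcomp_high.trans high_rhigh)⟩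
  · have h3 : ∀ k, Sig X (k + 1) ≠ Sig X (k + 1 + 1) := by
      intro k hk
      have h4 := QQ_mem X (k + 1 + 1)
      rw [← hk] at h4
      obtain ⟨p, l, hl, h5⟩ := exists_sEval h4
      obtain ⟨s, hs⟩ := hX1 p l (by rintro rfl; simp at hl)
      rw [hl, ← h5] at hs
      exact hs rfl
    intro k hk
    exact h3 k (sig_congr hk)
  · intro k
    exact Set.Subset.antisymm (low_succ.trans (hl1 k).subset) PO_low
  · intro k
    exact Set.Subset.antisymm (rlow_low.trans (hl1 k).subset) (PO_low.trans low_rlow)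

end Pool.Agent.Lib.Pa76659B
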