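import Pool.Agent.Lib.Pa76659B.Bits

/-!
MODULE Fin2: no circuit of depth `k J` reads the tree of height `k J` over none/some of the names (all
high columns processed). Adaptation of `Inv.fin` of Pa76659H/Start.lean.

`Pa76659H.extract` with `C y := F τ YY (emb hN J y)` (`emb`, `emb_update` of Pa76659H/Ext.lean),
`S := SL (n ^ b)`, `w = t := n ^ b`, `t0 := D` (`Pre.bits` and `MT.exists_comap (emb ..)`), `Nh := f`, gives `b`, `x0`, a
nonempty `Good`, and for `c ∈ Good` a tree `L` with `L.eval = false` at `update z0 (J, c :: b) none` and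
`true` at `update z0 (J, c :: b) (some y)` for ALL `y`. The name `(J, c :: b)` is valid
(`VP (m J) 1 b`, `c < m J 0`). By `dt_st` (bits steady: `St.bits`; `V := V lv`) at most
`n ^ b * E < N` values `y` change the value of `L`: contradiction.
-/

set_option maxHeartbeats 4000000

namespace Pool.Agent.Lib.Pa76659B

open Pool.Agent.Lib.Pa76659 Pool.Agent.Lib.Pa76659H Pool.Agent.Lib.Pa76659.Hier

theorem fin2 {Γ : Ctx} (hΓ : Γ.OK) {lv D E : ℕ} {m : ℕ → ℕ → ℕ}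
    {τ : ℕ → Str → Option (DT Str Bool)} {YY : Γ.W → Lang}
    {R : ℕ → Var → DT Str (Option (Fin Γ.N))} (h : Pre Γ Γ.J lv D m τ YY R)
    (hst : St Γ Γ.J lv E m τ YY) (b : ℕ) (f : Lang → Bool)
    (hf : IsC (SL (Γ.n ^ b)) (Γ.n ^ b) (Γ.n ^ b) (Γ.k Γ.J) f)
    (heq : ∀ x, f (Γ.F τ YY x) =
      tr (m Γ.J) (Γ.k Γ.J) (fun u => (x (Γ.J, u)).isSome) [])
    (hV : Γ.n ^ b < Γ.V lv) (hgap : Γ.n ^ b * E < Γ.N) (s a : ℕ) (hsD : Γ.n ^ b * D ≤ s)
    (ha : ∀ h < Γ.k Γ.J, m Γ.J h ≤ 2 ^ a)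
    (hs : Γ.n ^ b * Γ.k Γ.J + a * Γ.k Γ.J + 4 * Γ.k Γ.J + 4 ≤ s)
    (hm0 : 2 * ((s + 1) * (s + 2) * (4 * s * Γ.N ^ 2 + 1)) ≤ m Γ.J 0)
    (hm : ∀ h, h + 1 < Γ.k Γ.J →
      (s + 1) * (s + 2) * (4 * s * (m Γ.J h) ^ 2 + 1) ^ (h + 2) < m Γ.J (h + 1)) : False := by
  classical
  have hN : 1 ≤ Γ.N := by omega
  have hemb : ∀ v : Var, ∃ j : List ℕ, ∀ x y : List ℕ → Option (Fin Γ.N), x j = y j →
      emb hN Γ.J x v = emb hN Γ.J y v := by
    intro v
    refine ⟨v.2, fun x y hxy => ?_⟩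
    unfold emb
    rw [hxy]
  obtain ⟨bb, x0, Good, h1, h2, h3, h4, h5⟩ := extract (Γ.k Γ.J) Γ.N (Γ.n ^ b)
    (Γ.n ^ b) D s a (m Γ.J) (hΓ.hk1 Γ.J le_rfl) hN
    (fun y => Γ.F τ YY (emb hN Γ.J y)) (SL (Γ.n ^ b)) (by
      intro u hu
      have hu' : u.length ≤ Γ.n ^ b := hu
      obtain ⟨T, hT1, hT2⟩ := h.bits hΓ u (by omega)
      obtain ⟨T', hT'1, hT'2⟩ := MT.exists_comap (emb hN Γ.J) hemb hT1
      exact ⟨T', hT'1, fun x => by rw [hT'2, ← hT2]⟩)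
    f hf (by
      intro y
      refine (heq _).trans ?_
      have e : ∀ u, emb hN Γ.J y (Γ.J, u) = y u := by intro u; simp [emb]
      simp only [e]) hsD ha hs hm0 hm
  have hne : Good.Nonempty := by
    rw [← Finset.card_pos]
    have : 0 < m Γ.J 0 := lt_of_lt_of_le (by positivity) hm0
    omega
  obtain ⟨c, hc⟩ := hne
  obtain ⟨L, a1, a2, a3, a4⟩ := h5 c hc
  set z0 : Γ.W := emb hN Γ.J x0 with hz0
  have a3' : L.eval (Γ.F τ YY (Function.update z0 (Γ.J, c :: bb) none)) = false := by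
    rw [hz0, ← emb_update]; exact a3
  have a4' : ∀ y, L.eval (Γ.F τ YY (Function.update z0 (Γ.J, c :: bb) (some y))) = true := by
    intro y
    rw [hz0, ← emb_update]; exact a4 y
  have hval : Γ.P Γ.J m (Γ.J, c :: bb) := by
    refine ⟨Finset.mem_Icc.2 ⟨le_rfl, le_rfl⟩, by simpa using h1, ?_⟩
    exact ⟨Finset.mem_range.1 (h3 hc), h2⟩
  have h6 := dt_st (P := Γ.P Γ.J m) (E := E) (t := Γ.n ^ b) (V := Γ.V lv) (Γ.F τ YY)
    (fun v hv => hst.bits hΓ h le_rfl v hv) L (a2.mono (by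
      intro u hu
      have hu' : u.length ≤ Γ.n ^ b := hu
      show u.length < Γ.V lv
      omega)) a1 z0 (Γ.J, c :: bb) hval
  have h7 : (Finset.univ.filter (fun c_1 : Fin Γ.N => L.eval (Γ.F τ YY
      (Function.update z0 (Γ.J, c :: bb) (some c_1))) ≠
      L.eval (Γ.F τ YY (Function.update z0 (Γ.J, c :: bb) none)))) = Finset.univ := by
    rw [Finset.filter_eq_self]
    intro y _
    rw [a3', a4' y]
    simp
  rw [h7, Finset.card_univ, Fintype.card_fin] at h6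
  omega

end Pool.Agent.Lib.Pa76659B
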