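import Pool.Agent.Lib.Pa76659B.Bits

/-!
MODULE Instr: instructions in the oracle make `J K (X + A)` evaluate a tree whose leaves are
questions to `A`.

Apply `univJ` (Pa76659/JEnc.lean) with `k := K - 1`, `cx := some`, `S := {y | y.length ≤ a}`, `w`, `t := 1`,
`m := a`, `f Y := tr sh K (fun u => Y (q u)) []`. `f` is `IsC S w 1 K`: induction on the height with
`IsC.of_exists` (fan-ins `sh h ≤ 2 ^ w`; at height 0 the tree `DT.node (q u) (leaf false) (leaf true)`;
for invalid leaves `q u` may be a long string: replace `q` by `q' u := if (q u).length ≤ a then q u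
else []`, or use `tr_congr'`: only leaves with `VP sh 0 u` matter). The tables `Tab v` ask nothing (`{u | u ∈ S ∧ cx u = none} = ∅`), so
`T v := (Tab v).eval (fun _ => false)` works, as in `exists_tables` (Pa76659/Limit.lean).
-/

set_option maxHeartbeats 4000000

namespace Pool.Agent.Lib.Pa76659B

open Pool.Agent.Lib.Pa76659 Pool.Agent.Lib.Pa76659H Pool.Agent.Lib.Pa76659.Hier

/-- a tree of questions is an OR-NOT circuit on top of single questions -/
theorem instr_tr_isC (S : Set Str) (w K : ℕ) (sh : ℕ → ℕ) (hsh : ∀ h < K, sh h ≤ 2 ^ w)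
    (q : List ℕ → Str) (hq : ∀ u, q u ∈ S) : ∀ (j : ℕ), j ≤ K → ∀ u : List ℕ,
    IsC S w 1 j (fun Y : Str → Bool => tr sh j (fun u => Y (q u)) u) := by
  intro j
  induction j with
  | zero =>
      intro _ u
      refine ⟨DT.node (q u) (DT.leaf false) (DT.leaf true), by simp [DT.depth],
        ⟨hq u, trivial, trivial⟩, fun Y => ?_⟩
      simp only [tr, DT.eval]
      cases Y (q u) <;> simp
  | succ j ih =>
      intro hj u
      refine IsC.of_exists (ι := Fin (sh j)) (by rw [Fintype.card_fin]; exact hsh j (by omega))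
        (fun y Y => tr sh j (fun u => Y (q u)) ((y : ℕ) :: u))
        (fun y => ih (by omega) _) (fun Y => ?_)
      rw [tr, decide_eq_true_iff]
      constructor
      · rintro ⟨y, hy, hy2⟩
        exact ⟨⟨y, hy⟩, hy2⟩
      · rintro ⟨y, hy2⟩
        exact ⟨y, y.2, hy2⟩

theorem instr (K w a : ℕ) (hK : 1 ≤ K) (sh : ℕ → ℕ) (hsh : ∀ h < K, sh h ≤ 2 ^ w)
    (q : List ℕ → Str) (hq : ∀ u, u.length = K → VP sh 0 u → (q u).length ≤ a) (s : Str)
    (hs : w + 1 + 1 + 1 * (3 * a + 3) ≤ s.length) :
    ∃ T : Lang, ∀ X A : Lang,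
      (∀ r : Str, r.length + s.length = 2 ^ K * s.length → X (s ++ r) = T (s ++ r)) →
      J K (join X A) s = tr sh K (fun u => A (q u)) [] := by
  obtain ⟨k, rfl⟩ : ∃ k, K = k + 1 := ⟨K - 1, by omega⟩
  have hq' : ∀ u, (if (q u).length ≤ a then q u else []) ∈ {y : Str | y.length ≤ a} := by
    intro u
    split_ifs with h
    · exact h
    · exact Nat.zero_le a
  obtain ⟨Tab, -, ht2, ht3⟩ := univJ some {y : Str | y.length ≤ a} w 1 a (by
      intro v hv x hx
      simp only [Option.some.injEq] at hx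
      rw [← hx]; exact hv) k _
    (instr_tr_isC {y : Str | y.length ≤ a} w (k + 1) sh hsh
      (fun u => if (q u).length ≤ a then q u else []) hq' (k + 1) le_rfl []) s hs
  refine ⟨fun v => (Tab v).eval (fun _ => false), fun X A hX => ?_⟩
  rw [ht3 A (join X A) ?_ ?_]
  · apply tr_congr' sh _ _ (k + 1) [] trivial
    intro v hv hvp
    simp only [List.length_nil, add_zero] at hv
    simp only [if_pos (hq v hv hvp)]
  · intro r hr
    show X (s ++ r) = _
    rw [hX r hr]
    apply DT.eval_congr (S := ∅) (by simp)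
    apply (ht2 _).mono
    rintro u ⟨_, hu⟩
    simp at hu
  · intro u _ v hv
    simp only [Option.some.injEq] at hv
    rw [← hv]; rfl

end Pool.Agent.Lib.Pa76659B
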