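import Pool.Agent.Lib.Pa76659B.Bits
import Pool.Agent.Lib.Pa76659B.RsLem

/-!
MODULE InvD: the main family of worlds. (Statements about `Inv` under restrictions; literals are
steady.)

`Inv.rs`: `Pre.rs`; `lit`: `LitF.comp` (Pa76659H/Lit.lean) with `Src` from `Rs.src`; `tree`: `Rs.tr`.
`st_zero`: `fr`: `Steady.lit`; `low`: `tl (col i) y < V 0 = n`, so the view is below `n` and the value is
constant (`lowC` with `lv = 0`, `V 0 ≤ V 1`), `Steady.const`.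
`skip`: `ρ z v := if v.1 = i0 then some ⟨0, _⟩ else z v`; `Pre.gen` with `R' := R`; `Src`; trees of the families `i > i0`
do not change; for `i0 + 1 ≤ J`: valid names for `i0 + 1` are the valid names of families `> i0`. `St`: the new worlds are
`ρ z`, and `ρ (update z v o) = update (ρ z) v o` for `v.1 ≠ i0`.
-/

set_option maxHeartbeats 4000000

namespace Pool.Agent.Lib.Pa76659B

open Pool.Agent.Lib.Pa76659 Pool.Agent.Lib.Pa76659H Pool.Agent.Lib.Pa76659.Hier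

/-- the main family: the free bits are literals, the value of the formula `QQ` at the root `rs i n`
is the value of the tree `i` -/
structure Inv (Γ : Ctx) (i0 lv D : ℕ) (m : ℕ → ℕ → ℕ) (τ : ℕ → Str → Option (DT Str Bool))
    (YY : Γ.W → Lang) (R : ℕ → Var → DT Str (Option (Fin Γ.N))) : Prop where
  pre : Pre Γ i0 lv D m τ YY R
  lit : ∀ v : Str, LitF (Γ.P i0 m) (fun x => YY x v)
  tree : ∀ i ∈ Finset.Icc i0 Γ.J, ∀ (x : Γ.W) (X : Lang),
    (∀ v : Str, Γ.n ≤ (false :: v).length → X (false :: v) = YY x (false :: v)) →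
    QQ (Γ.k i + 1) X (rs i Γ.n) = tr (m i) (Γ.k i) (fun u => (x (i, u)).isSome) []

variable {Γ : Ctx} {i0 lv D E : ℕ} {m m' : ℕ → ℕ → ℕ}
  {τ : ℕ → Str → Option (DT Str Bool)} {YY : Γ.W → Lang} {R : ℕ → Var → DT Str (Option (Fin Γ.N))}
  {ρ : Γ.W → Γ.W}

theorem Inv.rs (h : Inv Γ i0 lv D m τ YY R) (hρ : Rs Γ i0 m m' ρ)
    {R' : ℕ → Var → DT Str (Option (Fin Γ.N))} {lv' : ℕ}
    {τ' : ℕ → Str → Option (DT Str Bool)}
    (hP : Pre Γ i0 lv' D m' τ' (fun z => YY (ρ z)) R') :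
    Inv Γ i0 lv' D m' τ' (fun z => YY (ρ z)) R' := by
  refine ⟨hP, fun v => ?_, fun i hi z X hX => ?_⟩
  · refine LitF.comp (ρ := ρ) (fun v hv => ?_) (h.lit v)
    rcases hρ.src v hv with h1 | ⟨v', h1, h2⟩
    · exact Or.inl h1
    · exact Or.inr ⟨v', h1, Or.inl h2⟩
  · rw [h.tree i hi (ρ z) X hX, hρ.tr i hi z]

theorem Inv.st_zero (hΓ : Γ.OK) (h : Inv Γ i0 lv D m τ YY R) : St Γ i0 0 1 m τ YY := by
  refine ⟨fun v => Steady.lit (h.lit v), fun i hi _ y hy => ?_⟩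
  exact Steady.const (fun x => lowC hΓ hi (Nat.zero_le _)
    (lt_of_lt_of_le hy (hΓ.V_mono (Nat.zero_le _))) τ YY x)

theorem Inv.skip (hΓ : Γ.OK) (h : Inv Γ i0 lv D m τ YY R) (hN : 1 ≤ Γ.N) (hi : i0 < Γ.J)
    (hlo : (Γ.col i0).lo = true) (hm : (Γ.col i0).m ≤ lv) (hst : St Γ i0 lv E m τ YY) :
    ∃ (ρ : Γ.W → Γ.W), Inv Γ (i0 + 1) lv D m τ (fun z => YY (ρ z)) R ∧
      St Γ (i0 + 1) lv E m τ (fun z => YY (ρ z)) := by
  have hup : ∀ v, Γ.P (i0 + 1) m v → Γ.P i0 m v ∧ v.1 ≠ i0 := by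
    rintro v ⟨h1, h2⟩
    rw [Finset.mem_Icc] at h1
    exact ⟨⟨Finset.mem_Icc.2 ⟨by omega, h1.2⟩, h2⟩, by omega⟩
  have hdn : ∀ v, Γ.P i0 m v → v.1 ≠ i0 → Γ.P (i0 + 1) m v := by
    rintro v ⟨h1, h2⟩ h3
    rw [Finset.mem_Icc] at h1
    exact ⟨Finset.mem_Icc.2 ⟨by omega, h1.2⟩, h2⟩
  let ρ : Γ.W → Γ.W := fun z v => if v.1 = i0 then some ⟨0, hN⟩ else z v
  have hρ0 : ∀ z v, v.1 = i0 → ρ z v = some ⟨0, hN⟩ := fun z v hv => if_pos hv
  have hρ1 : ∀ z v, v.1 ≠ i0 → ρ z v = z v := fun z v hv => if_neg hv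
  have hupd : ∀ (z : Γ.W) v o, v.1 ≠ i0 → ρ (Function.update z v o) = Function.update (ρ z) v o := by
    intro z v o hv
    funext v'
    by_cases h1 : v' = v
    · subst h1
      rw [hρ1 _ _ hv, Function.update_self, Function.update_self]
    · rw [Function.update_of_ne h1]
      by_cases h2 : v'.1 = i0
      · rw [hρ0 _ _ h2, hρ0 _ _ h2]
      · rw [hρ1 _ _ h2, hρ1 _ _ h2, Function.update_of_ne h1]
  have hP : Pre Γ (i0 + 1) lv D m τ (fun z => YY (ρ z)) R := by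
    refine h.pre.gen (Nat.le_succ _) hi (fun i h1 h2 => ?_) ρ (fun v => ⟨v, fun z z' h1 => ?_⟩)
      (fun z z' h1 v hv => ?_) (fun i h1 h2 v hv => ?_)
    · rcases Nat.lt_succ_iff_lt_or_eq.1 h2 with h3 | rfl
      · exact (h.pre.lvl i h1).1 h3
      · exact hm
    · by_cases h2 : v.1 = i0
      · rw [hρ0 _ _ h2, hρ0 _ _ h2]
      · rw [hρ1 _ _ h2, hρ1 _ _ h2, h1]
    · by_cases h2 : v.1 = i0
      · rw [hρ0 _ _ h2, hρ0 _ _ h2]
      · rw [hρ1 _ _ h2, hρ1 _ _ h2, h1 v (hdn v hv h2)]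
    · obtain ⟨h3, h4⟩ := hup v hv
      have h5 : i < i0 := by
        rcases Nat.lt_succ_iff_lt_or_eq.1 h1 with h6 | rfl
        · exact h6
        · rw [hlo] at h2; cases h2
      obtain ⟨h6, h7, h8⟩ := h.pre.read i h5 h2 v h3
      exact ⟨fun z => by rw [h6 (ρ z), hρ1 _ _ h4], h7, h8⟩
  refine ⟨ρ, ⟨hP, fun v => ?_, fun i h1 z X hX => ?_⟩, ⟨fun v => ?_, fun i h1 h2 y hy => ?_⟩⟩
  · refine LitF.comp (ρ := ρ) (fun v hv => ?_) (h.lit v)
    by_cases h2 : v.1 = i0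
    · exact Or.inl ⟨_, fun z => hρ0 z v h2⟩
    · exact Or.inr ⟨v, hdn v hv h2, Or.inl fun z => hρ1 z v h2⟩
  · rw [Finset.mem_Icc] at h1
    rw [h.tree i (Finset.mem_Icc.2 ⟨by omega, h1.2⟩) (ρ z) X hX]
    congr 1
    funext u
    rw [hρ1 z (i, u) (by show i ≠ i0; omega)]
  · intro x v' hv'
    obtain ⟨h3, h4⟩ := hup v' hv'
    have := hst.fr v (ρ x) v' h3
    simp only [hupd _ _ _ h4]
    exact this
  · intro x v' hv'
    obtain ⟨h3, h4⟩ := hup v' hv'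
    have := hst.low i h1 h2 y hy (ρ x) v' h3
    have h5 : ∀ o, Γ.F τ (fun z => YY (ρ z)) (Function.update x v' o) =
        Γ.F τ YY (Function.update (ρ x) v' o) := by
      intro o
      show Phi Γ.q τ (YY (ρ (Function.update x v' o))) = Phi Γ.q τ (YY (Function.update (ρ x) v' o))
      rw [hupd _ _ _ h4]
    simp only [h5]
    exact this

end Pool.Agent.Lib.Pa76659B
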