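import Pool.Agent.Lib.Pa76659B.InvD

/-!
MODULE Leaves2: the leaf trees of a high column (adaptation of `Inv.leaves`, Pa76659H/Ext.lean,
with `t0 := D` instead of `n ^ bM + 2`).
-/

set_option maxHeartbeats 4000000

namespace Pool.Agent.Lib.Pa76659B

open Pool.Agent.Lib.Pa76659 Pool.Agent.Lib.Pa76659H Pool.Agent.Lib.Pa76659.Hier

theorem Inv.leaves {Γ : Ctx} (hΓ : Γ.OK) {i0 lv D : ℕ} {m : ℕ → ℕ → ℕ}
    {τ : ℕ → Str → Option (DT Str Bool)} {YY : Γ.W → Lang}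
    {R : ℕ → Var → DT Str (Option (Fin Γ.N))} (h : Inv Γ i0 lv D m τ YY R) (hi : i0 < Γ.J)
    (hlo : (Γ.col i0).lo = false) (hJust : JustH Γ.q (Γ.col i0)) (hN : 1 ≤ Γ.N)
    (hC : ∀ u ∈ Γ.Q i0, ∃ T : MT Var (Option (Fin Γ.N)) Bool,
      T.dle D ∧ ∀ x, Γ.C τ YY i0 x u = T.eval x)
    (s a : ℕ) (hst : Γ.n ^ (Γ.col i0).bM * D ≤ s)
    (ha : ∀ h < Γ.k i0, m i0 h ≤ 2 ^ a)
    (hs : Γ.n ^ (Γ.col i0).bM * Γ.k i0 + a * Γ.k i0 + 4 * Γ.k i0 + 4 ≤ s)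
    (hm0 : 2 * ((s + 1) * (s + 2) * (4 * s * Γ.N ^ 2 + 1)) ≤ m i0 0)
    (hm : ∀ h, h + 1 < Γ.k i0 →
      (s + 1) * (s + 2) * (4 * s * (m i0 h) ^ 2 + 1) ^ (h + 2) < m i0 (h + 1)) :
    ∃ (b : List ℕ) (x0 : List ℕ → Option (Fin Γ.N)) (Good : Finset ℕ), b.length + 1 = Γ.k i0 ∧
      VP (m i0) 1 b ∧ Good ⊆ Finset.range (m i0 0) ∧ m i0 0 ≤ 2 * Good.card ∧
      ∀ a ∈ Good, ∃ L : DT Str Bool, L.depth ≤ Γ.n ^ (Γ.col i0).bM ∧ L.QIn (Γ.Q i0) ∧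
        ∀ o, L.eval (Γ.C τ YY i0 (Function.update (emb hN i0 x0) (i0, a :: b) o)) = o.isSome := by
  have hgd := hΓ.gd hi
  have hin : i0 + 2 ≤ Γ.n := by
    have := hΓ.hJ
    omega
  have hemb : ∀ v : Var, ∃ j : List ℕ, ∀ x y : List ℕ → Option (Fin Γ.N), x j = y j →
      emb hN i0 x v = emb hN i0 y v := by
    intro v
    refine ⟨v.2, fun x y hxy => ?_⟩
    unfold emb
    rw [hxy]
  obtain ⟨b, x0, Good, h1, h2, h3, h4, h5⟩ := extract (Γ.k i0) Γ.N (Γ.n ^ (Γ.col i0).bM)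
    (Γ.n ^ (Γ.col i0).bM) D s a (m i0) (hΓ.hk1 i0 (by omega)) hN
    (fun y => Γ.C τ YY i0 (emb hN i0 y)) (Γ.Q i0) (by
      intro u hu
      obtain ⟨T, hT1, hT2⟩ := hC u hu
      obtain ⟨T', hT'1, hT'2⟩ := MT.exists_comap (emb hN i0) hemb hT1
      exact ⟨T', hT'1, fun x => by rw [hT'2, ← hT2]⟩)
    (fun O => sEval (Γ.col i0).p (Γ.col i0).l O (Pa76659H.rs i0 Γ.n)) (by
      rw [hΓ.hk i0 hi hlo]
      have := hgd.hM Γ.n (by omega) (Pa76659H.rs i0 Γ.n) (by rw [rs_length hin])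
      exact this) (by
      intro y
      have h6 := hJust (Γ.F τ YY (emb hN i0 y)) (Pre.mem hΓ h.pre _) (Pa76659H.rs i0 Γ.n)
      have h7 := h.tree i0 (Finset.mem_Icc.2 ⟨le_rfl, hi.le⟩) (emb hN i0 y)
        (Γ.F τ YY (emb hN i0 y)) (fun v hv => F_false τ YY _ v hv)
      rw [← hΓ.hk i0 hi hlo] at h6
      refine (h6.trans h7).trans ?_
      have e : ∀ u, emb hN i0 y (i0, u) = y u := by intro u; simp [emb]
      simp only [e]) hst ha hs hm0 hm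
  refine ⟨b, x0, Good, h1, h2, h3, h4, fun a ha => ?_⟩
  obtain ⟨L, a1, a2, a3, a4⟩ := h5 a ha
  refine ⟨L, a1, a2, fun o => ?_⟩
  cases o with
  | none =>
      rw [← emb_update]
      exact a3
  | some y =>
      rw [← emb_update]
      exact a4 y

end Pool.Agent.Lib.Pa76659B
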