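import Pool.Agent.Lib.Pa76659B.Cnd

/-!
Freezing, adding columns, requirements and the limit.
-/

set_option maxHeartbeats 4000000

namespace Pool.Agent.Lib.Pa76659B

open Pool.Agent.Lib.Pa76659 Pool.Agent.Lib.Pa76659H

def frz (q : Cnd) (X : Lang) (n : ℕ) : Cnd := ⟨n, X, q.cols⟩

theorem exists_frz {q : Cnd} (hq : WF q) {X : Lang} (hX : Mem q X) :
    ∃ n0, ∀ n, n0 ≤ n → q.N ≤ n ∧ WF (frz q X n) := by
  obtain ⟨hX1, hX2, hX4, n1, hX3⟩ := hX
  obtain ⟨n2, hn2⟩ := list_bound q.cols (fun c n => c.lo = false → ∀ x, tl c x < n1 →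
      ∀ X' : Lang, (∀ v : Str, v.length < n → X' v = X v) → Wk c X' x) (by
    intro c hc
    set f1 := (n1 + 2) ^ (2 ^ (c.B + 5)) with hf1
    obtain ⟨m, hm⟩ := (loc_join (loc_nEval c.a)) f1
    obtain ⟨m', hm'⟩ := (loc_nEval c.i) n1
    refine ⟨max (max (m + 1) (m' + 1)) (n1 + 2 * f1 + 1), fun n hn hcl x hx X' hX' => ?_⟩
    have e1 : m + 1 ≤ n := le_trans (le_trans (le_max_left _ _) (le_max_left _ _)) hn
    have e2 : m' + 1 ≤ n := le_trans (le_trans (le_max_right _ _) (le_max_left _ _)) hn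
    have e3 : n1 + 2 * f1 + 1 ≤ n := le_trans (le_max_right _ _) hn
    have hxl := tl_large c x
    have hfu : fuel c x ≤ f1 := Nat.pow_le_pow_left (by omega) _
    have h1 := hX2 c hc hcl x
    have hC : ∀ u : Str, u.length ≤ f1 → join X' (hs c X') u = join X (hs c X) u :=
      fun u hu => hm X' X (fun v hv => hX' v (by omega)) u hu
    unfold Wk at h1 ⊢
    rw [walk_congr (X' := X) (C' := join X (hs c X)) (M := n1 + 2 * f1) (K := f1)
      (fun v hv => hX' v (by omega)) hC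
      _ _ _ (by rw [tl_eq]; omega) (by simp; omega), h1]
    congr 1
    exact hm' X X' (fun v hv => (hX' v (by omega)).symm) x (by omega))
  refine ⟨max (max n1 n2) q.N, fun n hn => ?_⟩
  have e1 : n1 ≤ n := le_trans (le_trans (le_max_left _ _) (le_max_left _ _)) hn
  have e2 : n2 ≤ n := le_trans (le_trans (le_max_right _ _) (le_max_left _ _)) hn
  have e3 : q.N ≤ n := le_trans (le_max_right _ _) hn
  refine ⟨e3, hq.gd, hq.uniq, fun c hc => lt_of_lt_of_le (hq.lt c hc) e3, hq.sorted, ?_, ?_⟩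
  · intro c hc hcl x hx X' hX'
    have hX' : ∀ v : Str, v.length < n → X' v = X v := hX'
    have hx : tl c x < n := hx
    by_cases hx1 : tl c x < n1
    · exact hn2 n e2 c hc hcl x hx1 X' hX'
    · have hd := hX3 c hc x (by omega)
      obtain ⟨n', hn'⟩ : ∃ n', fuel c x = n' + 1 := ⟨fuel c x - 1, by
        have := fuel_pos c x; omega⟩
      unfold Wk
      rw [hn', walk, hX' _ (by rw [tl_eq]; exact hx), hX' _ (by rw [tl_eq]; exact hx), hd true,
        hd false]
      simp only [Bool.true_or, if_true, Bool.false_or, Option.some.injEq]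
      exact (hq.gd c hc).congr x X X' (fun v hv => (hX' v (by omega)).symm)
  · intro c hc hcl x hx X' hX' t2
    have hX' : ∀ v : Str, v.length < n → X' v = X v := hX'
    have hx : tl c x < n := hx
    rw [hX' _ (by rw [tl_eq]; exact hx), hX4 c hc hcl x t2]
    congr 1
    exact (hq.gd c hc).congr x X X' (fun v hv => (hX' v (by omega)).symm)

theorem agree_frz {q : Cnd} {X : Lang} (hX : Agree q X) {n : ℕ} (hn : q.N ≤ n) {X' : Lang}
    (h : Agree (frz q X n) X') : Agree q X' := fun v hv => by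
  rw [h v (lt_of_lt_of_le hv hn)]
  exact hX v hv

theorem frz_mem {q : Cnd} {X : Lang} (hX : Agree q X) {n : ℕ} (hn : q.N ≤ n) {X' : Lang}
    (h : Mem (frz q X n) X') : Mem q X' := ⟨agree_frz hX hn h.1, h.2⟩

/-- the set of the column is high at level `l.length` on the whole condition -/
def JustH (q : Cnd) (c : Col) : Prop := ∀ X, Mem q X → ∀ s,
  sEval c.p c.l (join X (hs c X)) s = QQ (c.l.length + 1) X s

/-- the set of the column is low at level `l.length` on the whole condition -/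
def JustL (q : Cnd) (c : Col) : Prop := ∀ X, Mem q X → ∀ s,
  J c.l.length (join X (nEval c.i X)) s = sEval c.p c.l X s

/-- The invariant of the construction; the lowness of a low column holds for all members of the
condition with the earlier columns only. -/
def PP (q : Cnd) : Prop := WF q ∧ (∀ c ∈ q.cols, c.lo = false → JustH q c) ∧
  ∀ pre c post, q.cols = pre ++ c :: post → c.lo = true → JustL ⟨q.N, q.σ, pre⟩ c

theorem PP.frz {q : Cnd} (h : PP q) {X : Lang} (hX : Mem q X) {n : ℕ} (hn : q.N ≤ n)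
    (hw : WF (frz q X n)) : PP (frz q X n) := by
  refine ⟨hw, fun c hc hcl X' hX' => h.2.1 c hc hcl X' (frz_mem hX.1 hn hX'), ?_⟩
  intro pre c post hq hc X' hX' s
  refine h.2.2 pre c post hq hc X' ⟨?_, hX'.2⟩ s
  exact agree_frz hX.1 hn hX'.1

/-- add a column -/
def addc (q : Cnd) (c : Col) : Cnd := ⟨q.N, q.σ, q.cols ++ [c]⟩

theorem addc_mem {q : Cnd} {c : Col} {X : Lang} (h : Mem (addc q c) X) : Mem q X := by
  obtain ⟨h1, h2, h4, n, h3⟩ := h
  exact ⟨h1, fun c' hc' => h2 c' (by simp [addc, hc']), fun c' hc' => h4 c' (by simp [addc, hc']),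
    n, fun c' hc' => h3 c' (by simp [addc, hc'])⟩

theorem addc_PP {q : Cnd} (h : PP q) {c : Col} (hc : Gd c) (hj : c.j + 1 = q.N)
    (hjn : ∀ c' ∈ q.cols, c'.j < c.j)
    (hm : ∀ c' ∈ q.cols, c'.m ≤ c.m) (hJH : c.lo = false → JustH q c)
    (hJL : c.lo = true → JustL q c) : PP (addc q c) := by
  refine ⟨⟨?_, ?_, ?_, ?_, ?_, ?_⟩, ?_, ?_⟩
  · intro c' hc'
    rcases List.mem_append.1 hc' with hc' | hc'
    · exact h.1.gd c' hc'
    · rw [List.mem_singleton.1 hc']; exact hc
  · intro c1 hc1 c2 hc2 he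
    rcases List.mem_append.1 hc1 with hc1 | hc1 <;> rcases List.mem_append.1 hc2 with hc2 | hc2
    · exact h.1.uniq c1 hc1 c2 hc2 he
    · rw [List.mem_singleton.1 hc2] at he
      have := hjn c1 hc1; omega
    · rw [List.mem_singleton.1 hc1] at he
      have := hjn c2 hc2; omega
    · rw [List.mem_singleton.1 hc1, List.mem_singleton.1 hc2]
  · intro c' hc'
    rcases List.mem_append.1 hc' with hc' | hc'
    · exact h.1.lt c' hc'
    · rw [List.mem_singleton.1 hc']; show c.j < q.N; omega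
  · show (q.cols ++ [c]).Pairwise _
    rw [List.pairwise_append]
    refine ⟨h.1.sorted, List.pairwise_singleton _ _, ?_⟩
    intro c1 hc1 c2 hc2
    rw [List.mem_singleton.1 hc2]
    exact ⟨hm c1 hc1, hjn c1 hc1⟩
  · intro c' hc' hcl x hx X hX
    rcases List.mem_append.1 hc' with hc' | hc'
    · exact h.1.wk c' hc' hcl x hx X hX
    · rw [List.mem_singleton.1 hc'] at hx
      have hx : tl c x < q.N := hx
      unfold tl at hx
      omega
  · intro c' hc' hcl x hx X hX
    rcases List.mem_append.1 hc' with hc' | hc'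
    · exact h.1.lok c' hc' hcl x hx X hX
    · rw [List.mem_singleton.1 hc'] at hx
      have hx : tl c x < q.N := hx
      unfold tl at hx
      omega
  · intro c' hc' hcl
    rcases List.mem_append.1 hc' with hc' | hc'
    · exact fun X hX => h.2.1 c' hc' hcl X (addc_mem hX)
    · have e := List.mem_singleton.1 hc'
      subst e
      exact fun X hX => hJH hcl X (addc_mem hX)
  · intro pre c' post he hcl
    have he : q.cols ++ [c] = pre ++ c' :: post := he
    rcases List.eq_nil_or_concat post with rfl | ⟨post', d, rfl⟩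
    · obtain ⟨e1, e2⟩ := List.append_inj' he rfl
      simp only [List.cons.injEq, and_true] at e2
      subst e2
      subst e1
      exact hJL hcl
    · have he2 : q.cols ++ [c] = (pre ++ c' :: post') ++ [d] := by
        rw [he]; simp
      obtain ⟨e1, e2⟩ := List.append_inj' he2 rfl
      exact h.2.2 pre c' post' e1 hcl

theorem exists_limit2 (S : ℕ → Cnd → Prop) (q0 : Cnd) (h0 : PP q0)
    (next : ∀ (n : ℕ) (q : Cnd), PP q → ∃ q', PP q' ∧ q.N < q'.N ∧
      (∀ X, Agree q' X → Agree q X) ∧ (∀ c ∈ q.cols, c ∈ q'.cols) ∧ S n q') :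
    ∃ X, ∀ n, ∃ q, S n q ∧ PP q ∧ Agree q X ∧ (∀ c ∈ q.cols, c.lo = false → ∀ x, Wk c X x) ∧
      ∀ c ∈ q.cols, c.lo = true → ∀ x, LoOK c X x := by
  classical
  let St := {q : Cnd // PP q}
  choose nx h1 h2 h3 h4 h5 using fun (n : ℕ) (a : St) => next n a.1 a.2
  let st : ℕ → St := fun n => Nat.rec (⟨q0, h0⟩ : St) (fun n a => ⟨nx n a, h1 n a⟩) n
  have hst : ∀ n, (st (n + 1)).1 = nx n (st n) := fun n => rfl
  have hN : ∀ n, n ≤ (st n).1.N := by
    intro n
    induction n with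
    | zero => exact Nat.zero_le _
    | succ n ih =>
        have := h2 n (st n)
        rw [hst]; omega
  have hag : ∀ n m, n ≤ m → ∀ X, Agree (st m).1 X → Agree (st n).1 X := by
    intro n m hnm
    induction m, hnm using Nat.le_induction with
    | base => exact fun X h => h
    | succ m _ ih =>
        intro X hX
        rw [hst] at hX
        exact ih X (h3 m (st m) X hX)
  have hcol : ∀ n m, n ≤ m → ∀ c ∈ (st n).1.cols, c ∈ (st m).1.cols := by
    intro n m hnm
    induction m, hnm using Nat.le_induction with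
    | base => exact fun c h => h
    | succ m _ ih =>
        intro c hc
        rw [hst]
        exact h4 m (st m) c (ih c hc)
  have hσ : ∀ n m, n ≤ m → ∀ v : Str, v.length < (st n).1.N → (st m).1.σ v = (st n).1.σ v :=
    fun n m hnm v hv => hag n m hnm _ (fun _ _ => rfl) v hv
  let X : Lang := fun v => (st (v.length + 1)).1.σ v
  have hX : ∀ n, Agree (st n).1 X := by
    intro n v hv
    show (st (v.length + 1)).1.σ v = (st n).1.σ v
    have h6 : v.length < (st (v.length + 1)).1.N := by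
      have := hN (v.length + 1); omega
    rcases le_total n (v.length + 1) with h | h
    · exact hσ n _ h v hv
    · exact (hσ _ n h v h6).symm
  refine ⟨X, fun n => ⟨(st (n + 1)).1, h5 n (st n), (st (n + 1)).2, hX (n + 1), ?_, ?_⟩⟩
  · intro c hc hcl x
    set m := max (n + 1) (tl c x + 1) with hm
    have h6 : tl c x < (st m).1.N := by
      have := hN m; omega
    exact (st m).2.1.wk c (hcol _ m (le_max_left _ _) c hc) hcl x h6 X (hX m)
  · intro c hc hcl x
    set m := max (n + 1) (tl c x + 1) with hm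
    have h6 : tl c x < (st m).1.N := by
      have := hN m; omega
    exact (st m).2.1.lok c (hcol _ m (le_max_left _ _) c hc) hcl x h6 X (hX m)

/-- requirements: infinite hierarchy, high sets, low sets -/
inductive Rq
  | inf : PIx → List NIx → Rq
  | hi : NIx → NIx → PIx → List NIx → Rq
  | low : NIx → PIx → List NIx → Rq

/-- the condition decides the requirement -/
def Sat2 (q : Cnd) : Rq → Prop
  | Rq.inf p l => l ≠ [] → ∃ s, ∀ X, Agree q X → sEval p l X s ≠ QQ (l.length + 1) X s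
  | Rq.hi a i p l => l ≠ [] →
      (∃ s, ∀ X, Agree q X → sEval p l (join X (nEval a X)) s ≠ QQ (l.length + 1) X s) ∨
      ∃ c ∈ q.cols, c.lo = false ∧ c.a = a ∧ c.i = i
  | Rq.low i p l => l ≠ [] →
      (∃ s, ∀ X, Agree q X → J l.length (join X (nEval i X)) s ≠ sEval p l X s) ∨
      ∃ c ∈ q.cols, c.lo = true ∧ c.i = i

/-- the scale lemma -/
def ScaleLemma : Prop := ∀ q, PP q → ∀ (p : PIx) (l : List NIx), l ≠ [] →
  ∃ X, Mem q X ∧ ∃ s, sEval p l X s ≠ QQ (l.length + 1) X s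

/-- freezing -/
theorem next_key {q : Cnd} (hq : PP q) : ∀ X, Mem q X → ∀ M, ∃ q', PP q' ∧ q.N < q'.N ∧ M < q'.N ∧
    (∀ X, Agree q' X → Agree q X) ∧ q'.cols = q.cols ∧
    (∀ X', Agree q' X' → ∀ v : Str, v.length ≤ M → X' v = X v) ∧
    (∀ X', Mem q' X' → Mem q X') := by
  intro X hX M
  obtain ⟨n0, hn0⟩ := exists_frz hq.1 hX
  set n := max n0 (max (q.N + 1) (M + 1)) with hn
  have e1 : n0 ≤ n := le_max_left _ _
  have e2 : q.N + 1 ≤ n := le_trans (le_max_left _ _) (le_max_right _ _)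
  have e3 : M + 1 ≤ n := le_trans (le_max_right _ _) (le_max_right _ _)
  obtain ⟨h1, h2⟩ := hn0 n e1
  refine ⟨frz q X n, hq.frz hX h1 h2, ?_, ?_, ?_, rfl, ?_, fun X' h => frz_mem hX.1 h1 h⟩
  · show q.N < n; omega
  · show M < n; omega
  · intro X' hX'
    exact agree_frz hX.1 h1 hX'
  · intro X' hX' v hv
    exact hX' v (by show v.length < n; omega)

/-- adding a column for the machine -/
theorem next_add (lo : Bool) (a i : NIx) (p : PIx) (l : List NIx) (hl : l ≠ []) {q : Cnd}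
    (hq : PP q)
    (hJH : lo = false → ∀ X, Mem q X → ∀ s,
      sEval p l (join X (nEval a X)) s = QQ (l.length + 1) X s)
    (hJL : lo = true → ∀ X, Mem q X → ∀ s, J l.length (join X (nEval i X)) s = sEval p l X s) :
    ∃ q', PP q' ∧ q.N < q'.N ∧
    (∀ X, Agree q' X → Agree q X) ∧ (∀ c ∈ q.cols, c ∈ q'.cols) ∧
    ∃ c ∈ q'.cols, c.lo = lo ∧ c.a = a ∧ c.i = i := by
  obtain ⟨X, hX⟩ := exists_mem hq.1
  obtain ⟨q', h1, h2, _, h3, h4, h5, h6⟩ := next_key hq X hX 0
  obtain ⟨m0, hm0⟩ := list_bound q'.cols (fun c n => c.m ≤ n)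
    (fun c _ => ⟨c.m, fun n hn => hn⟩)
  -- room for a new index
  obtain ⟨X1, hX1m⟩ := exists_mem h1.1
  obtain ⟨n0, hn0⟩ := exists_frz h1.1 hX1m
  set n := max n0 (q'.N + 1) with hn
  have e1 : n0 ≤ n := le_max_left _ _
  have e2 : q'.N + 1 ≤ n := le_max_right _ _
  obtain ⟨h7, h8⟩ := hn0 n e1
  obtain ⟨c, hc1, hc0, hc2, hc3, hc4, hc5, hc6, hc7⟩ := exists_col lo (n - 1) m0 a i p l hl
  have hP := h1.frz hX1m h7 h8
  refine ⟨addc (frz q' X1 n) c, addc_PP hP hc1 ?_ ?_ ?_ ?_ ?_, ?_, ?_, ?_, ?_⟩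
  · show c.j + 1 = n; omega
  · intro c' hc'
    have := h1.1.lt c' hc'
    omega
  · intro c' hc'
    exact (hm0 m0 le_rfl c' hc').trans hc3
  · intro hcl X' hX' s
    unfold hs
    rw [hc6, hc4, hc7]
    exact hJH (by rw [← hc0]; exact hcl) X' (h6 X' (frz_mem hX1m.1 h7 hX')) s
  · intro hcl X' hX' s
    rw [hc6, hc5, hc7]
    exact hJL (by rw [← hc0]; exact hcl) X' (h6 X' (frz_mem hX1m.1 h7 hX')) s
  · show q.N < n; omega
  · intro X' hX'
    apply h3
    exact agree_frz hX1m.1 h7 hX'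
  · intro c' hc'
    show c' ∈ q'.cols ++ [c]
    rw [h4]; simp [hc']
  · exact ⟨c, by show c ∈ q'.cols ++ [c]; simp, hc0, hc4, hc5⟩

theorem next2 (hSL : ScaleLemma) (r : Rq) {q : Cnd} (hq : PP q) : ∃ q', PP q' ∧ q.N < q'.N ∧
    (∀ X, Agree q' X → Agree q X) ∧ (∀ c ∈ q.cols, c ∈ q'.cols) ∧ Sat2 q' r := by
  have triv : ∀ {P : Prop}, P → ∃ q', PP q' ∧ q.N < q'.N ∧
      (∀ X, Agree q' X → Agree q X) ∧ (∀ c ∈ q.cols, c ∈ q'.cols) ∧ P := by
    intro P hP
    obtain ⟨X, hX⟩ := exists_mem hq.1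
    obtain ⟨q', h1, h2, _, h3, h4, _⟩ := next_key hq X hX 0
    exact ⟨q', h1, h2, h3, fun c hc => by rw [h4]; exact hc, hP⟩
  rcases r with ⟨p, l⟩ | ⟨a, i, p, l⟩ | ⟨i, p, l⟩
  · by_cases hl : l = []
    · obtain ⟨q', h1, h2, h3, h4, _⟩ := triv trivial
      exact ⟨q', h1, h2, h3, h4, fun h => absurd hl h⟩
    · obtain ⟨X, hX, s, hs⟩ := hSL q hq p l hl
      obtain ⟨m1, hm1⟩ := loc_sEval p l s.length
      obtain ⟨m2, hm2⟩ := loc_QQ (l.length + 1) s.length
      obtain ⟨q', h1, h2, _, h3, h4, h5, _⟩ := next_key hq X hX (max m1 m2)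
      refine ⟨q', h1, h2, h3, fun c hc => by rw [h4]; exact hc, fun _ => ⟨s, fun X' hX' => ?_⟩⟩
      rw [hm1 X' X (fun v hv => h5 X' hX' v (by omega)) s le_rfl,
        hm2 X' X (fun v hv => h5 X' hX' v (by omega)) s le_rfl]
      exact hs
  · by_cases hl : l = []
    · obtain ⟨q', h1, h2, h3, h4, _⟩ := triv trivial
      exact ⟨q', h1, h2, h3, h4, fun h => absurd hl h⟩
    by_cases hJ : ∀ X, Mem q X → ∀ s, sEval p l (join X (nEval a X)) s = QQ (l.length + 1) X s
    · obtain ⟨q', h1, h2, h3, h4, h5⟩ := next_add false a i p l hl hq (fun _ => hJ)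
        (fun h => absurd h (by simp))
      exact ⟨q', h1, h2, h3, h4, fun _ => Or.inr h5⟩
    · push Not at hJ
      obtain ⟨X, hX, s, hs⟩ := hJ
      obtain ⟨m1, hm1⟩ := ((loc_sEval p l).comp (loc_join (loc_nEval a))) s.length
      obtain ⟨m2, hm2⟩ := loc_QQ (l.length + 1) s.length
      obtain ⟨q', h1, h2, _, h3, h4, h5, _⟩ := next_key hq X hX (max m1 m2)
      refine ⟨q', h1, h2, h3, fun c hc => by rw [h4]; exact hc,
        fun _ => Or.inl ⟨s, fun X' hX' => ?_⟩⟩
      have e1 := hm1 X' X (fun v hv => h5 X' hX' v (by omega)) s le_rfl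
      beta_reduce at e1
      rw [e1, hm2 X' X (fun v hv => h5 X' hX' v (by omega)) s le_rfl]
      exact hs
  · by_cases hl : l = []
    · obtain ⟨q', h1, h2, h3, h4, _⟩ := triv trivial
      exact ⟨q', h1, h2, h3, h4, fun h => absurd hl h⟩
    by_cases hJ : ∀ X, Mem q X → ∀ s, J l.length (join X (nEval i X)) s = sEval p l X s
    · obtain ⟨q', h1, h2, h3, h4, c, h5, h6, _, h7⟩ := next_add true i i p l hl hq
        (fun h => absurd h (by simp)) (fun _ => hJ)
      exact ⟨q', h1, h2, h3, h4, fun _ => Or.inr ⟨c, h5, h6, h7⟩⟩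
    · push Not at hJ
      obtain ⟨X, hX, s, hs⟩ := hJ
      obtain ⟨m1, hm1⟩ := loc_sEval p l s.length
      obtain ⟨m2, hm2⟩ := ((loc_J l.length).comp (loc_join (loc_nEval i))) s.length
      obtain ⟨q', h1, h2, _, h3, h4, h5, _⟩ := next_key hq X hX (max m1 m2)
      refine ⟨q', h1, h2, h3, fun c hc => by rw [h4]; exact hc,
        fun _ => Or.inl ⟨s, fun X' hX' => ?_⟩⟩
      have e1 := hm2 X' X (fun v hv => h5 X' hX' v (by omega)) s le_rfl
      beta_reduce at e1
      rw [e1, hm1 X' X (fun v hv => h5 X' hX' v (by omega)) s le_rfl]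
      exact hs

noncomputable instance : Countable Rq := by
  let f : Rq → (PIx × List NIx) ⊕ (NIx × NIx × PIx × List NIx) ⊕ (NIx × PIx × List NIx) :=
    fun r => match r with
      | Rq.inf p l => Sum.inl (p, l)
      | Rq.hi a i p l => Sum.inr (Sum.inl (a, i, p, l))
      | Rq.low i p l => Sum.inr (Sum.inr (i, p, l))
  have hf : Function.Injective f := by
    intro r r' h
    cases r <;> cases r' <;> simp_all [f]
  exact hf.countable

theorem exists_oracle2 (hSL : ScaleLemma) : ∃ X : Lang,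
    (∀ (p : PIx) (l : List NIx), l ≠ [] → ∃ s, sEval p l X s ≠ QQ (l.length + 1) X s) ∧
    (∀ (a i : NIx) (p : PIx) (l : List NIx), l ≠ [] →
      (∃ s, sEval p l (join X (nEval a X)) s ≠ QQ (l.length + 1) X s) ∨
      ∃ c : Col, c.a = a ∧ c.i = i ∧ ∀ x, Wk c X x) ∧
    (∀ (i : NIx) (p : PIx) (l : List NIx), l ≠ [] →
      (∃ s, J l.length (join X (nEval i X)) s ≠ sEval p l X s) ∨
      ∃ c : Col, c.i = i ∧ ∀ x, LoOK c X x) := by
  have hne : Nonempty Rq := ⟨Rq.inf (Prog.skip, 0) []⟩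
  obtain ⟨req, hreq⟩ := exists_surjective_nat Rq
  have hq0 : PP ⟨0, fun _ => false, []⟩ := by
    refine ⟨⟨by simp, by simp, by simp, List.Pairwise.nil, by simp, by simp⟩, by simp, ?_⟩
    intro pre c post h
    simp at h
  obtain ⟨X, hX⟩ := exists_limit2 (fun n q => Sat2 q (req n)) _ hq0
    (fun n q hq => next2 hSL (req n) hq)
  refine ⟨X, fun p l hl => ?_, fun a i p l hl => ?_, fun i p l hl => ?_⟩
  · obtain ⟨n, hn⟩ := hreq (Rq.inf p l)
    obtain ⟨q, h1, _, h2, _⟩ := hX n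
    rw [hn] at h1
    obtain ⟨s, hs⟩ := h1 hl
    exact ⟨s, hs X h2⟩
  · obtain ⟨n, hn⟩ := hreq (Rq.hi a i p l)
    obtain ⟨q, h1, _, h2, h3, _⟩ := hX n
    rw [hn] at h1
    rcases h1 hl with ⟨s, hs⟩ | ⟨c, hc, h6, h4, h5⟩
    · exact Or.inl ⟨s, hs X h2⟩
    · exact Or.inr ⟨c, h4, h5, h3 c hc h6⟩
  · obtain ⟨n, hn⟩ := hreq (Rq.low i p l)
    obtain ⟨q, h1, _, h2, _, h3⟩ := hX n
    rw [hn] at h1
    rcases h1 hl with ⟨s, hs⟩ | ⟨c, hc, h6, h5⟩
    · exact Or.inl ⟨s, hs X h2⟩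
    · exact Or.inr ⟨c, h5, h3 c hc h6⟩

end Pool.Agent.Lib.Pa76659B
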