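import Pool.Agent.Lib.Pa76659B.Run2
import Pool.Agent.Lib.Pa76659B.Fin

/-!
The scale lemma, and one oracle at which the low and the high hierarchy are both trivial.
-/

set_option maxHeartbeats 4000000

namespace Pool.Agent.Lib.Pa76659B

open Pool.Agent.Lib.Pa76659 Pool.Agent.Lib.Pa76659H Pool.Agent.Lib.Pa76659.Hier

noncomputable instance : Inhabited Col :=
  ⟨⟨false, 0, (Prog.skip, 0, 0), (Prog.skip, 0, 0), 0, (Prog.skip, 0), [], 0, 0, 0, 0⟩⟩

theorem map_getD {α : Type} [Inhabited α] (L : List α) (i : ℕ) (hi : i ≤ L.length) :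
    (List.range i).map (fun j => L.getD j default) = L.take i := by
  apply List.ext_getElem
  · simp [hi]
  · intro j h1 h2
    simp only [List.length_map, List.length_range] at h1
    simp only [List.getElem_map, List.getElem_range, List.getElem_take]
    exact List.getD_eq_getElem _ _ (by omega)

theorem scaleLemma2 : ScaleLemma := by
  classical
  intro q hq p l hl
  by_contra hcon
  push Not at hcon
  set J := q.cols.length with hJ
  set col : ℕ → Col := fun i => q.cols.getD i default with hcoldef
  have hcolget : ∀ i (hi : i < J), col i = q.cols[i] := by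
    intro i hi
    simp only [hcoldef]
    exact List.getD_eq_getElem _ _ hi
  have hmemcol : ∀ i < J, col i ∈ q.cols := by
    intro i hi
    rw [hcolget i hi]
    exact List.getElem_mem _
  have hpair := List.pairwise_iff_getElem.1 hq.1.sorted
  have hcm : ∀ i i', i ≤ i' → i' < J → (col i).m ≤ (col i').m := by
    intro i i' hii hi'
    rcases hii.eq_or_lt with rfl | h1
    · exact le_rfl
    · rw [hcolget i (by omega), hcolget i' hi']
      exact (hpair i i' (by omega) hi' h1).1
  have hgd : ∀ i < J, Gd (col i) := fun i hi => hq.1.gd _ (hmemcol i hi)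
  have hnr : ∀ e < J, (col e).lo = true → ∀ lv d, (col e).m ≤ lv → NR col e lv d := by
    intro e he hlo lv d hm
    exact nr_all col e (fun i hi => hgd i (by omega)) (fun i hi => hcm i e hi he)
      (fun i i' h1 h2 => hcm i i' h1 (by omega)) hlo lv d hm
  set k : ℕ → ℕ := fun i => if i < J then (if (col i).lo = true then 1 else (col i).l.length)
    else l.length with hk
  obtain ⟨bM, hM⟩ := sEval_isC p l
  obtain ⟨m1, hm1⟩ := list_bound q.cols (fun c n => c.m ≤ n) (fun c _ => ⟨c.m, fun n hn => hn⟩)
  obtain ⟨j1, hj1⟩ := list_bound q.cols (fun c n => 2 * (c.j + 7) ≤ n)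
    (fun c _ => ⟨2 * (c.j + 7), fun n hn => hn⟩)
  set mJ := m1 + bM with hmJ
  set kk := ∑ i ∈ Finset.range (J + 1), k i with hkk
  have hkkb : ∀ i ≤ J, k i ≤ kk := fun i hi =>
    Finset.single_le_sum (f := k) (fun _ _ => Nat.zero_le _) (Finset.mem_range.2 (by omega))
  obtain ⟨C0, M', n1, d, hrun⟩ := run2 col J kk mJ bM (by
      intro i hi
      have := hm1 m1 le_rfl _ (hmemcol i hi)
      omega) hgd (by
      have : mJ < 2 ^ mJ := Nat.lt_two_pow_self
      omega) hnr
  obtain ⟨a, ha⟩ := exists_exponents J k C0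
  set cc := 1 + ∑ i ∈ Finset.range (J + 1), ∑ h ∈ Finset.range (k i), seqE (a i) h with hcc
  have hccb : ∀ i ≤ J, ∀ h < k i, seqE (a i) h ≤ cc := by
    intro i hi h hh
    have h1 : seqE (a i) h ≤ ∑ h ∈ Finset.range (k i), seqE (a i) h :=
      Finset.single_le_sum (f := fun h => seqE (a i) h) (fun _ _ => Nat.zero_le _)
        (Finset.mem_range.2 hh)
    have h2 : ∑ h ∈ Finset.range (k i), seqE (a i) h ≤
        ∑ i ∈ Finset.range (J + 1), ∑ h ∈ Finset.range (k i), seqE (a i) h :=
      Finset.single_le_sum (f := fun i => ∑ h ∈ Finset.range (k i), seqE (a i) h)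
        (fun _ _ => Nat.zero_le _) (Finset.mem_range.2 (by omega))
    omega
  obtain ⟨X0, hX0⟩ := exists_mem hq.1
  obtain ⟨n0, hn0⟩ := exists_frz hq.1 hX0
  obtain ⟨ν, n, N, hn, hNm⟩ := exists_nm J kk M' cc (n0 + j1 + n1) (by omega)
  obtain ⟨hqn, hwf⟩ := hn0 n (by omega)
  have hPP := hq.frz hX0 hqn hwf
  set Γ : Ctx := ⟨n, X0, J, col, k, N, ν⟩ with hΓdef
  have hqq : ∀ i ≤ J, Γ.qq i = ⟨n, X0, q.cols.take i⟩ := by
    intro i hi
    show (⟨n, X0, (List.range i).map col⟩ : Cnd) = _
    rw [hcoldef, map_getD _ _ (by omega)]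
  have hqJ : Γ.q = frz q X0 n := by
    show Γ.qq J = _
    rw [hqq J le_rfl, hJ, List.take_length]
    rfl
  have hn16 := hNm.T16.1
  have hΓ : Γ.OK := by
    refine ⟨?_, ?_, hcm, ?_, ?_, ?_, ?_, ?_, ?_⟩
    · rw [hqJ]; exact hwf
    · intro i hi i' hi' he
      have hi : i < J := hi
      have hi' : i' < J := hi'
      have he : (col i).j = (col i').j := he
      rw [hcolget i hi, hcolget i' hi'] at he
      rcases lt_trichotomy i i' with h1 | h1 | h1
      · have := (hpair i i' hi hi' h1).2
        omega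
      · exact h1
      · have := (hpair i' i hi' hi h1).2
        omega
    · intro i hi hlo
      have hi : i < J := hi
      have hlo : (col i).lo = false := hlo
      show k i = (col i).l.length
      simp [hk, hi, hlo]
    · intro i hi
      show 1 ≤ k i
      simp only [hk]
      split_ifs with h1 h2
      · exact le_rfl
      · exact List.length_pos_of_ne_nil (hgd i h1).hl
      · exact List.length_pos_of_ne_nil hl
    · exact hn16
    · have := hNm.hn
      show J + 2 ≤ n
      omega
    · exact hNm.hνn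
    · intro i hi
      have := hj1 j1 le_rfl _ (hmemcol i hi)
      show 2 * ((col i).j + 7) ≤ n
      omega
  have hJL : Γ.JL := by
    intro i hi hlo
    have hi : i < J := hi
    have hlo : (col i).lo = true := hlo
    rw [hqq i hi.le]
    show JustL _ (col i)
    apply hPP.2.2 (q.cols.take i) (col i) (q.cols.drop (i + 1)) _ hlo
    show q.cols = _
    rw [hcolget i hi, List.getElem_cons_drop, List.take_append_drop]
  have hkJ : Γ.k Γ.J = l.length := by
    show (if J < J then _ else l.length) = l.length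
    rw [if_neg (lt_irrefl _)]
  obtain ⟨YY, R, hI⟩ := start2 hΓ (Γ.n ^ d) (Nat.one_le_pow _ _ (by
      show 0 < n
      omega)) (shp N (fun i h => seqE (a i) h)) (by
      show N ≤ 2 ^ n
      have := hNm.hcc 1 (by omega)
      rwa [pow_one] at this) (by
      intro i hi h hh
      exact hNm.hcc _ (hccb i hi h hh))
  refine hrun Γ hΓ rfl rfl (by show n1 ≤ n; omega) hJL ?_ cc hNm hkkb p l hkJ hM ?_
    (fun i h => seqE (a i) h) YY R hI ⟨?_, ?_, ?_⟩
  · intro i hi hlo
    rw [hqJ]
    exact hPP.2.1 _ (hmemcol i hi) hlo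
  · intro X hX
    rw [hqJ] at hX
    exact hcon X (frz_mem hX0.1 hqn hX)
  · intro i hi h hh
    exact le_rfl
  · intro i
    exact ha i
  · intro i hi h hh
    exact hNm.hcc _ (hccb i hi h hh)

/-- one oracle with infinite polynomial hierarchy at which the low hierarchy collapses to `P` and the
high hierarchy to the Turing complete sets -/
theorem bothCollapse : ∃ X : Lang, (∀ k, Sig X k ≠ Sig X (k + 1)) ∧
    (∀ k, Low X k = PO X) ∧ (∀ k, RLowSucc X k = PO X) ∧
    (∀ k, High X k = TComp X) ∧ (∀ k, RHighSucc X k = TComp X) :=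
  bothCollapse_of scaleLemma2

end Pool.Agent.Lib.Pa76659B
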