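import Pool.Agent.Lib.Pa76659B.Bits

/-!
MODULE Up: going up one level, and changing the free part above the level.

`Pre.up` is `Inv.up` of Pa76659H/Frame.lean. New: low columns have no tables, their values below the
next level are the `hMT` trees (field `low`; `nEval` at `F τ'` and at `F τ` agree for
`tl (col i) y < V (lv + 1)`, since the views are below `V lv`). The old proof used that `YY` does not change when
`x` is replaced by `nrm x`; here this is the field `dep`. For St: values with `tl < V lv` do not change.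
`Pre.swap`: `F τ YY'` and `F τ YY` agree below `V lv` (`Phi_local`), so all values `nEval (col i).i` at
`tl (col i) y < V lv` agree (views are below `V lv`: `view2`-type bound, or `Gd.view_lt`), and `C` agrees on `Q i` for the
processed columns (`join_hs_congr`, `lvl`); for columns `i ≥ i0` the tables are leaves.
-/

set_option maxHeartbeats 4000000

namespace Pool.Agent.Lib.Pa76659B

open Pool.Agent.Lib.Pa76659 Pool.Agent.Lib.Pa76659H Pool.Agent.Lib.Pa76659.Hier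

variable {Γ : Ctx} (hΓ : Γ.OK) {i0 lv D E : ℕ} {m : ℕ → ℕ → ℕ}
  {τ : ℕ → Str → Option (DT Str Bool)} {YY : Γ.W → Lang} {R : ℕ → Var → DT Str (Option (Fin Γ.N))}

include hΓ

theorem Pre.up (h : Pre Γ i0 lv D m τ YY R)
    (hlv : ∀ i < Γ.J, i0 ≤ i → lv + 1 ≤ (Γ.col i).m) (s : ℕ) (hs : s ≤ D) (hN : 1 ≤ Γ.N)
    (hMT : ∀ i < Γ.J, ∀ y, tl (Γ.col i) y < Γ.V (lv + 1) →
      ∃ T : MT Var (Option (Fin Γ.N)) Bool, T.dle s ∧
        ∀ x, nEval (Γ.col i).i (Γ.F τ YY x) y = T.eval x)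
    (hfu : ∀ i < Γ.J, i < i0 → ∀ y, Γ.V lv ≤ tl (Γ.col i) y →
      s * ((Γ.ν + 1) * Γ.n ^ (Γ.col i).bM) * (Γ.n ^ (Γ.col i).bM + 1) + 1 ≤ fuel (Γ.col i) y) :
    ∃ τ', Pre Γ i0 (lv + 1) D m τ' YY R ∧ (∀ E, St Γ i0 lv E m τ YY → St Γ i0 lv E m τ' YY) ∧
      ∀ x v, v.length < Γ.V lv → Γ.F τ' YY x v = Γ.F τ YY x v := by
  classical
  have hn16 := hΓ.hn16
  have hn3 : 3 ≤ Γ.n := by omega
  have hVm : Γ.V lv ≤ Γ.V (lv + 1) := hΓ.V_mono (Nat.le_succ lv)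
  have hlev : ∀ i, (Γ.col i).m ≤ lv → Γ.n ^ (2 ^ (Γ.col i).m) ≤ Γ.V lv := by
    intro i hi
    unfold Ctx.V
    exact Nat.pow_le_pow_right (by omega) (Nat.pow_le_pow_right (by norm_num) hi)
  -- the new tables
  let R0 : ℕ → Var → DT Str (Option (Fin Γ.N)) := fun i v =>
    if Γ.P i0 m v then R i v else DT.leaf (some ⟨0, hN⟩)
  let nrm : Γ.W → Γ.W := fun x v => if Γ.P i0 m v then x v else some ⟨0, hN⟩
  have hFn : ∀ x, Γ.F τ YY (nrm x) = Γ.F τ YY x := by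
    intro x
    have : YY (nrm x) = YY x := by
      apply h.dep
      intro v hv
      simp only [nrm, hv, if_true]
    unfold Ctx.F
    rw [this]
  have hex : ∀ i y, ∃ T : DT Str Bool, i < Γ.J → (Γ.col i).lo = false → Γ.V lv ≤ tl (Γ.col i) y →
      tl (Γ.col i) y < Γ.V (lv + 1) →
      (∀ x, T.eval (Γ.C τ YY i x) = nEval (Γ.col i).i (Γ.F τ YY x) y) ∧ T.QIn (Γ.Q i) ∧
      (∃ d, T.depth ≤ d ∧ d * (Γ.n ^ (Γ.col i).bM + 1) + 1 ≤ fuel (Γ.col i) y) ∧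
      (i0 ≤ i → ∃ b, T = DT.leaf b) := by
    intro i y
    by_cases hc : i < Γ.J ∧ (Γ.col i).lo = false ∧ Γ.V lv ≤ tl (Γ.col i) y ∧
        tl (Γ.col i) y < Γ.V (lv + 1)
    · obtain ⟨hi, hlo, h1, h2⟩ := hc
      by_cases hi0 : i < i0
      · obtain ⟨T, hT1, hT2⟩ := hMT i hi y h2
        refine ⟨T.toDT (R0 i), fun _ _ _ _ => ⟨fun x => ?_, ?_, ?_, fun h => absurd h (by omega)⟩⟩
        · rw [MT.eval_toDT (R0 i) (Γ.C τ YY i x) (nrm x) (by
            intro v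
            simp only [R0, nrm]
            split_ifs with hv
            · exact (h.read i hi0 hlo v hv).1 x
            · rfl), ← hT2, hFn]
        · apply MT.qin_toDT
          intro v
          simp only [R0]
          split_ifs with hv
          · exact (h.read i hi0 hlo v hv).2.1
          · trivial
        · refine ⟨s * ((Γ.ν + 1) * Γ.n ^ (Γ.col i).bM), ?_, hfu i hi hi0 y h1⟩
          apply MT.depth_toDT (R0 i) _ _ hT1
          intro v
          simp only [R0]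
          split_ifs with hv
          · exact (h.read i hi0 hlo v hv).2.2
          · simp [DT.depth]
      · refine ⟨DT.leaf (nEval (Γ.col i).i Γ.σ y), fun _ _ _ _ => ⟨fun x => ?_, trivial,
          ⟨0, by simp [DT.depth], ?_⟩, fun _ => ⟨_, rfl⟩⟩⟩
        · have := hlv i hi (by omega)
          exact (lowC hΓ hi (by omega) h2 τ YY x).symm
        · have := fuel_pos (Γ.col i) y
          omega
    · exact ⟨DT.leaf true, fun a b c d => absurd ⟨a, b, c, d⟩ hc⟩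
  choose Tn hTn using hex
  let τ' : ℕ → Str → Option (DT Str Bool) := fun j y =>
    if hh : ∃ i, i < Γ.J ∧ (Γ.col i).j = j ∧ (Γ.col i).lo = false ∧ Γ.V lv ≤ tl (Γ.col i) y ∧
      tl (Γ.col i) y < Γ.V (lv + 1) then some (Tn hh.choose y) else τ j y
  have hτ1 : ∀ i < Γ.J, (Γ.col i).lo = false → ∀ y, Γ.V lv ≤ tl (Γ.col i) y →
      tl (Γ.col i) y < Γ.V (lv + 1) → τ' (Γ.col i).j y = some (Tn i y) := by
    intro i hi hlo y h1 h2
    have hh : ∃ i', i' < Γ.J ∧ (Γ.col i').j = (Γ.col i).j ∧ (Γ.col i').lo = false ∧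
      Γ.V lv ≤ tl (Γ.col i') y ∧ tl (Γ.col i') y < Γ.V (lv + 1) := ⟨i, hi, rfl, hlo, h1, h2⟩
    simp only [τ']
    rw [dif_pos hh]
    obtain ⟨a1, a2, _⟩ := hh.choose_spec
    rw [hΓ.inj _ a1 i hi a2]
  have hτ2 : ∀ i < Γ.J, ∀ y, ¬ ((Γ.col i).lo = false ∧ Γ.V lv ≤ tl (Γ.col i) y ∧
      tl (Γ.col i) y < Γ.V (lv + 1)) → τ' (Γ.col i).j y = τ (Γ.col i).j y := by
    intro i hi y h1
    simp only [τ']
    rw [dif_neg]
    rintro ⟨i', a1, a2, a3⟩
    rw [hΓ.inj _ a1 i hi a2] at a3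
    exact h1 a3
  have hloc : ∀ x v, v.length < Γ.V lv → Γ.F τ' YY x v = Γ.F τ YY x v := by
    intro x v hv
    apply Phi_local hΓ.wf τ' τ (YY x) (YY x) (Γ.V lv) _ (fun _ _ _ _ => rfl) v hv
    intro c hc y hy
    obtain ⟨i, hi, rfl⟩ := mem_q.1 hc
    exact hτ2 i hi y (by rintro ⟨_, h2, _⟩; omega)
  have hlocN : ∀ i < Γ.J, ∀ y, tl (Γ.col i) y < Γ.V (lv + 1) → ∀ x,
      nEval (Γ.col i).i (Γ.F τ' YY x) y = nEval (Γ.col i).i (Γ.F τ YY x) y := by
    intro i hi y hy x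
    apply (hΓ.gd hi).hI.congr
    intro v hv
    have := view2 hΓ hi hy
    exact hloc x v (by omega)
  have hlocC : ∀ i < Γ.J, i < i0 → ∀ x, ∀ u ∈ Γ.Q i, Γ.C τ' YY i x u = Γ.C τ YY i x u := by
    intro i hi hi0 x u hu
    exact join_hs_congr (hΓ.gd hi) hn3 (V := Γ.V lv) (hlev i ((h.lvl i hi).1 hi0)) (hloc x) u hu
  have hT : ∀ i < Γ.J, ∀ y T, (∀ x, T.eval (Γ.C τ YY i x) = nEval (Γ.col i).i (Γ.F τ YY x) y) →
      T.QIn (Γ.Q i) → (i0 ≤ i → ∃ b, T = DT.leaf b) → tl (Γ.col i) y < Γ.V (lv + 1) →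
      ∀ x, T.eval (Γ.C τ' YY i x) = nEval (Γ.col i).i (Γ.F τ' YY x) y := by
    intro i hi y T h1 h2 h3 h4 x
    rw [hlocN i hi y h4 x, ← h1 x]
    by_cases hi0 : i < i0
    · exact DT.eval_congr (hlocC i hi hi0 x) h2
    · obtain ⟨b, rfl⟩ := h3 (by omega)
      rfl
  refine ⟨τ', ⟨h.le, h.dep, h.mt, ?_, ?_, ?_, ?_, ?_, ?_⟩, fun E hst => ⟨hst.fr, ?_⟩, hloc⟩
  · intro i hi hlo y h1 h2
    by_cases h3 : Γ.V lv ≤ tl (Γ.col i) y
    · rw [hτ1 i hi hlo y h3 h2]; rfl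
    · rw [hτ2 i hi y (by rintro ⟨_, h4, _⟩; omega)]
      exact h.tab1 i hi hlo y h1 (by omega)
  · intro i hi y h1
    rw [hτ2 i hi y (by
      rintro ⟨h3, h4, h5⟩
      rcases h1 with h1 | h1 | h1
      · rw [h1] at h3; simp at h3
      · have := hΓ.n_le_V lv; omega
      · omega)]
    apply h.tab0 i hi y
    rcases h1 with h1 | h1 | h1
    · exact Or.inl h1
    · exact Or.inr (Or.inl h1)
    · exact Or.inr (Or.inr (by omega))
  · intro i hi y T hTT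
    by_cases h3 : (Γ.col i).lo = false ∧ Γ.V lv ≤ tl (Γ.col i) y ∧ tl (Γ.col i) y < Γ.V (lv + 1)
    · rw [hτ1 i hi h3.1 y h3.2.1 h3.2.2] at hTT
      simp only [Option.some.injEq] at hTT
      subst hTT
      obtain ⟨a1, a2, a3, a4⟩ := hTn i y hi h3.1 h3.2.1 h3.2.2
      exact ⟨hT i hi y _ a1 a2 a4 h3.2.2, a2, a3, a4⟩
    · rw [hτ2 i hi y h3] at hTT
      obtain ⟨a1, a2, a3, a4⟩ := h.tab i hi y T hTT
      refine ⟨hT i hi y _ a1 a2 a4 ?_, a2, a3, a4⟩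
      by_contra hcon
      rw [h.tab0 i hi y (Or.inr (Or.inr (by omega)))] at hTT
      simp at hTT
  · intro i hi hlo y hy
    obtain ⟨T, hT1, hT2⟩ := hMT i hi y hy
    exact ⟨T, MT.dle_mono hT1 hs, fun x => by rw [hlocN i hi y hy x]; exact hT2 x⟩
  · intro i hi
    exact ⟨fun h1 => ((h.lvl i hi).1 h1).trans (Nat.le_succ _), hlv i hi⟩
  · intro i hi0 hlo v hv
    obtain ⟨a1, a2, a3⟩ := h.read i hi0 hlo v hv
    refine ⟨fun x => ?_, a2, a3⟩
    rw [← a1 x]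
    exact DT.eval_congr (hlocC i (lt_of_lt_of_le hi0 h.le) hi0 x) a2
  · intro i hi hlo y hy
    have e : (fun x => nEval (Γ.col i).i (Γ.F τ' YY x) y) =
        fun x => nEval (Γ.col i).i (Γ.F τ YY x) y := by
      funext x
      exact hlocN i hi y (by omega) x
    rw [e]
    exact hst.low i hi hlo y hy

theorem Pre.swap (h : Pre Γ i0 lv D m τ YY R) (YY' : Γ.W → Lang)
    (hYY : ∀ x v, v.length < Γ.V lv → YY' x v = YY x v)
    (hdep : ∀ x x' : Γ.W, (∀ v, Γ.P i0 m v → x v = x' v) → YY' x = YY' x')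
    (hmt : ∀ v : Str, ∃ T : MT Var (Option (Fin Γ.N)) Bool, T.dle D ∧ ∀ x, YY' x v = T.eval x) :
    Pre Γ i0 lv D m τ YY' R ∧ ∀ x v, v.length < Γ.V lv → Γ.F τ YY' x v = Γ.F τ YY x v := by
  have hn16 := hΓ.hn16
  have hn3 : 3 ≤ Γ.n := by omega
  have hlev : ∀ i, (Γ.col i).m ≤ lv → Γ.n ^ (2 ^ (Γ.col i).m) ≤ Γ.V lv := by
    intro i hi
    unfold Ctx.V
    exact Nat.pow_le_pow_right (by omega) (Nat.pow_le_pow_right (by norm_num) hi)
  have hloc : ∀ x v, v.length < Γ.V lv → Γ.F τ YY' x v = Γ.F τ YY x v := by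
    intro x v hv
    exact Phi_local hΓ.wf τ τ (YY' x) (YY x) (Γ.V lv) (fun _ _ _ _ => rfl)
      (fun v _ h2 _ => hYY x v h2) v hv
  have hlocN : ∀ i < Γ.J, ∀ y, tl (Γ.col i) y < Γ.V lv → ∀ x,
      nEval (Γ.col i).i (Γ.F τ YY' x) y = nEval (Γ.col i).i (Γ.F τ YY x) y := by
    intro i hi y hy x
    apply (hΓ.gd hi).congr
    intro v hv
    exact hloc x v (by omega)
  have hlocC : ∀ i < Γ.J, i < i0 → ∀ x, ∀ u ∈ Γ.Q i, Γ.C τ YY' i x u = Γ.C τ YY i x u := by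
    intro i hi hi0 x u hu
    exact join_hs_congr (hΓ.gd hi) hn3 (V := Γ.V lv) (hlev i ((h.lvl i hi).1 hi0)) (hloc x) u hu
  refine ⟨⟨h.le, hdep, hmt, h.tab1, h.tab0, ?_, ?_, h.lvl, ?_⟩, hloc⟩
  · intro i hi y T hTT
    obtain ⟨a1, a2, a3, a4⟩ := h.tab i hi y T hTT
    have hy : tl (Γ.col i) y < Γ.V lv := by
      by_contra hcon
      rw [h.tab0 i hi y (Or.inr (Or.inr (by omega)))] at hTT
      simp at hTT
    refine ⟨fun x => ?_, a2, a3, a4⟩
    rw [hlocN i hi y hy x, ← a1 x]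
    by_cases hi0 : i < i0
    · exact DT.eval_congr (hlocC i hi hi0 x) a2
    · obtain ⟨b, rfl⟩ := a4 (by omega)
      rfl
  · intro i hi hlo y hy
    obtain ⟨T, hT1, hT2⟩ := h.low i hi hlo y hy
    exact ⟨T, hT1, fun x => by rw [hlocN i hi y hy x]; exact hT2 x⟩
  · intro i hi0 hlo v hv
    obtain ⟨a1, a2, a3⟩ := h.read i hi0 hlo v hv
    refine ⟨fun x => ?_, a2, a3⟩
    rw [← a1 x]
    exact DT.eval_congr (hlocC i (lt_of_lt_of_le hi0 h.le) hi0 x) a2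

end Pool.Agent.Lib.Pa76659B
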