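import Pool.Agent.Lib.Pa76659B.Fin2
import Pool.Agent.Lib.Pa76659B.Instr
import Pool.Agent.Lib.Pa76659B.Up
import Pool.Agent.Lib.Pa76659B.RsLem

/-!
MODULE NRs: from the extension of families to higher levels to the impossibility of reading.

Let `K := (col e).l.length ≥ 1` (`Gd.hl`), `c := col e`, `β := 2 ^ (lv + 1) + 1`, `b := β * c.bM + 1`,
`M := max lv (b + 1)` (so `n ^ b < V M`, since `b < 2 ^ M`), `d' := max d (2 ^ M + 1)`. From `hext` with `M`, `d'`,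
`kk := K`: `t, g0, g', n1`. Let `κ := b + d' + 3`, `g := g0 + g' + b + 20 * κ * (K + 3)`, `a := t + 4`,
`n1' := max n1 (K + e + 100)`.
Given the family of `NR` (`D = n ^ d`, `Pre.mono` to `n ^ d'`): let `q u` be the string `y` of the
reading of `(e, u)` (valid `u`; else `[]`), `(q u).length < V (lv + 1)` (`tl_large`).
`s := List.replicate (n ^ β) false` (`instr` with `w := n`, `a := V (lv + 1)`, `K`, `sh := shp .. e`: fan-ins
`≤ 2 ^ n` since each factor is at most the product): `T`.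
`YY' x v := if v.length < V lv then YY x v else T v` (constant beyond `V lv`), `Pre.swap` (dep, mt clear), and
`St` for `YY'`: `fr`: `St.fr` resp. `Steady.const`; `low`: values with `tl < V lv` do not change (`Gd.congr`, agreement below
`V lv`). The strings `s ++ r` with `r.length + s.length = 2 ^ K * s.length` are at least `V lv` long and begin with
`false`, so `F τ YY' x (s ++ r) = T (s ++ r)` (`F_false`); the readings stay valid (view below `V lv`: for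
`tl c y < V (lv + 1)` the view `(y.length + 2) ^ c.bI` is `< V lv`: `Gd.view` as in `view2`; NB `c = col e` is not a
column of `Γ`, `hgd e` gives its `Gd`). So `J K (join (F x) (nEval c.i (F x))) s = tr (shp ..) K (isSome (x (e, ·))) []`
(`tr_congr'` for invalid leaves). Extend by `hext` to level `M`: `τ', ρ, R'`; for the new worlds `z` the same identity
holds at `ρ z` for the new oracle (its free part is `YY' (ρ z)`, again `T` on `s ++ r`; the readings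
hold for the new tables: NB the tables `τ'` of `hext` may differ from `τ` below `V lv`: therefore `EXT` includes
that `F τ' (YY ∘ ρ) z` and `F τ YY (ρ z)` agree below `V lv`), and `Rs.tr` turns the right side into the
new tree. Lowness (`JustL (Γ.qq e) c`, `Γ.q = Γ.qq e`, `Pre.mem`): the left side is `sEval c.p c.l (F z) s`. Apply
`fin2` with `f := fun O => sEval c.p c.l O s`: `(hgd e).hM (n ^ β)` and `IsC.mono` (`(n ^ β) ^ bM ≤ n ^ b`), `E := E * n ^ g'`,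
`s := n ^ κ`, `a := n`; numbers from `n ^ g ≤ Nb`, `N ≤ Nb`, `E * n ^ g ≤ N`: `m e 0 = Nb ^ 4`,
`m e h = Nb ^ seqE a h`, `seqE a (h + 1) = (2 * seqE a h + 1) * (h + 2) + 2` (`seqE_succ`; cf. `Nm.d`, `Nm.e` in Pa76659H/Drive).
-/

set_option maxHeartbeats 4000000

namespace Pool.Agent.Lib.Pa76659B

open Pool.Agent.Lib.Pa76659 Pool.Agent.Lib.Pa76659H Pool.Agent.Lib.Pa76659.Hier

/-- families of worlds with all high columns processed extend from level `lv` to level `M` -/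
def EXT (col : ℕ → Col) (J lv M d kk : ℕ) : Prop := ∃ t g g' n1 : ℕ, ∀ (Γ : Ctx), Γ.OK →
  Γ.col = col → Γ.J = J → Γ.k J ≤ kk → n1 ≤ Γ.n → Γ.JL → ∀ (Nb E : ℕ), Rg Γ Nb E g →
  ∀ (ee : ℕ → ℕ → ℕ) (τ : ℕ → Str → Option (DT Str Bool)) (YY : Γ.W → Lang)
    (R : ℕ → Var → DT Str (Option (Fin Γ.N))),
  Pre Γ J lv (Γ.n ^ d) (shp Nb ee) τ YY R → St Γ J lv E (shp Nb ee) τ YY →
  (∀ i, t ≤ ee i 0) → (∀ h < Γ.k J, Nb ^ ee J h ≤ 2 ^ Γ.n) →
  ∃ (τ' : ℕ → Str → Option (DT Str Bool)) (ρ : Γ.W → Γ.W)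
    (R' : ℕ → Var → DT Str (Option (Fin Γ.N))),
    Pre Γ J M (Γ.n ^ d) (shp Nb (decT t ee)) τ' (fun z => YY (ρ z)) R' ∧
    St Γ J M (E * Γ.n ^ g') (shp Nb (decT t ee)) τ' (fun z => YY (ρ z)) ∧
    Rs Γ J (shp Nb ee) (shp Nb (decT t ee)) ρ ∧
    ∀ z v, v.length < Γ.V lv → Γ.F τ' (fun z => YY (ρ z)) z v = Γ.F τ YY (ρ z) v

namespace NRsAux

theorem num0 {s N Nb : ℕ} (hs : 16 ≤ s) (hs3 : 20 * s ^ 3 ≤ Nb) (hN : 1 ≤ N) (hNb : N ≤ Nb) :
    2 * ((s + 1) * (s + 2) * (4 * s * N ^ 2 + 1)) ≤ Nb ^ 4 := by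
  have hN2 : 1 ≤ N ^ 2 := Nat.one_le_pow _ _ hN
  have e1 : 4 * s * N ^ 2 + 1 ≤ 5 * s * N ^ 2 := by nlinarith
  have e2 : (s + 1) * (s + 2) ≤ 2 * s ^ 2 := by nlinarith
  calc _ ≤ 2 * (2 * s ^ 2 * (5 * s * N ^ 2)) := Nat.mul_le_mul_left _ (Nat.mul_le_mul e2 e1)
    _ = 20 * s ^ 3 * N ^ 2 := by ring
    _ ≤ Nb * Nb ^ 2 := Nat.mul_le_mul hs3 (Nat.pow_le_pow_left hNb 2)
    _ = Nb ^ 3 := by ring
    _ ≤ Nb ^ 4 := Nat.pow_le_pow_right (by omega) (by norm_num)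

theorem num1 {s Nb X g e e' : ℕ} (hs : 16 ≤ s) (hNb : s ^ (2 * g + 7) ≤ Nb) (hX : X = Nb ^ e)
    (he : (2 * e + 1) * (g + 2) + 2 ≤ e') :
    (s + 1) * (s + 2) * (4 * s * X ^ 2 + 1) ^ (g + 2) < Nb ^ e' := by
  have hN1 : 2 ≤ Nb := by
    refine le_trans ?_ hNb
    calc 2 ≤ s := by omega
      _ ≤ s ^ (2 * g + 7) := Nat.le_self_pow (by omega) _
  have hX1 : 1 ≤ X := by rw [hX]; exact Nat.one_le_pow _ _ (by omega)
  have hX2 : 1 ≤ X ^ 2 := Nat.one_le_pow _ _ hX1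
  have e1 : 4 * s * X ^ 2 + 1 ≤ s ^ 2 * X ^ 2 := by
    have a1 : 16 * (s * X ^ 2) ≤ s * (s * X ^ 2) := Nat.mul_le_mul_right _ (by omega)
    have a2 : 1 ≤ s * X ^ 2 := Nat.mul_pos (by omega) hX2
    nlinarith
  have e2 : (s + 1) * (s + 2) ≤ s ^ 3 := by
    have : (s + 1) * (s + 2) ≤ 2 * s ^ 2 := by nlinarith
    calc _ ≤ 2 * s ^ 2 := this
      _ ≤ s * s ^ 2 := Nat.mul_le_mul_right _ (by omega)
      _ = s ^ 3 := by ring
  have e3 : s ^ 3 * (s ^ 2) ^ (g + 2) ≤ Nb := by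
    calc s ^ 3 * (s ^ 2) ^ (g + 2) = s ^ (2 * g + 7) := by
          rw [show (s ^ 2) ^ (g + 2) = s ^ (2 * (g + 2)) from (pow_mul s 2 _).symm, ← pow_add]
          congr 1
          ring
      _ ≤ Nb := hNb
  calc _ ≤ s ^ 3 * (s ^ 2 * X ^ 2) ^ (g + 2) := Nat.mul_le_mul e2 (Nat.pow_le_pow_left e1 _)
    _ = (s ^ 3 * (s ^ 2) ^ (g + 2)) * (X ^ 2) ^ (g + 2) := by rw [mul_pow]; ring
    _ ≤ Nb * (X ^ 2) ^ (g + 2) := Nat.mul_le_mul_right _ e3
    _ = Nb ^ (1 + e * 2 * (g + 2)) := by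
        rw [hX, ← pow_mul, ← pow_mul, pow_add, pow_one]
        congr 2
        ring
    _ < Nb ^ e' := by
        apply Nat.pow_lt_pow_right (by omega)
        have : e * 2 * (g + 2) + (g + 2) = (2 * e + 1) * (g + 2) := by ring
        omega

theorem num2 {n K b κ : ℕ} (hn : K + 100 ≤ n) (hb : 1 ≤ b) (hκ : b + 2 ≤ κ) :
    n ^ b * K + n * K + 4 * K + 4 ≤ n ^ κ := by
  have h1 : n ≤ n ^ b := Nat.le_self_pow (by omega) _
  have h2 : n ^ b * K ≤ n ^ b * n := Nat.mul_le_mul_left _ (by omega)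
  have h3 : n * K ≤ n ^ b * n := Nat.mul_le_mul h1 (by omega)
  have h4 : 4 * K + 4 ≤ n ^ b * n := by
    calc 4 * K + 4 ≤ n * n := by nlinarith
      _ ≤ n ^ b * n := Nat.mul_le_mul_right _ h1
  have h5 : 3 * (n ^ b * n) ≤ n * (n ^ b * n) := Nat.mul_le_mul_right _ (by omega)
  have h6 : n * (n ^ b * n) = n ^ (b + 2) := by ring
  have h7 : n ^ (b + 2) ≤ n ^ κ := Nat.pow_le_pow_right (by omega) hκ
  omega

theorem core {Γ : Ctx} (hΓ : Γ.OK) (hgc : Gd (Γ.col Γ.J))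
    (hkJ : Γ.k Γ.J = (Γ.col Γ.J).l.length)
    (hJust : JustL (Γ.qq Γ.J) (Γ.col Γ.J)) {lv M d d' β b t g0 g' κ : ℕ}
    (hβ : β = 2 ^ (lv + 1) + 1) (hb : b = β * (Γ.col Γ.J).bM + 1) (hM : b + 1 ≤ M)
    (hd : d ≤ d') (hκ : κ = b + d' + 3) (hn : (Γ.col Γ.J).l.length + Γ.J + 100 ≤ Γ.n)
    {Nb E : ℕ} (hRg : Rg Γ Nb E (g0 + g' + b + 20 * (κ * ((Γ.col Γ.J).l.length + 3))))
    (hprod : Nb ^ (∑ h ∈ Finset.range (Γ.k Γ.J), seqE (t + 4) h) ≤ 2 ^ Γ.n)
    {τ : ℕ → Str → Option (DT Str Bool)} {YY : Γ.W → Lang}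
    {R : ℕ → Var → DT Str (Option (Fin Γ.N))}
    (hPre : Pre Γ Γ.J lv (Γ.n ^ d) (shp Nb (fun _ h => seqE (t + 4) h)) τ YY R)
    (hSt : St Γ Γ.J lv E (shp Nb (fun _ h => seqE (t + 4) h)) τ YY)
    (hread : ∀ u, Γ.P Γ.J (shp Nb (fun _ h => seqE (t + 4) h)) (Γ.J, u) →
      ∃ y, tl (Γ.col Γ.J) y < Γ.V (lv + 1) ∧
        ∀ x, nEval (Γ.col Γ.J).i (Γ.F τ YY x) y = (x (Γ.J, u)).isSome)
    (hE : ∀ (ee : ℕ → ℕ → ℕ) (τ : ℕ → Str → Option (DT Str Bool)) (YY : Γ.W → Lang)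
      (R : ℕ → Var → DT Str (Option (Fin Γ.N))),
      Pre Γ Γ.J lv (Γ.n ^ d') (shp Nb ee) τ YY R → St Γ Γ.J lv E (shp Nb ee) τ YY →
      (∀ i, t ≤ ee i 0) → (∀ h < Γ.k Γ.J, Nb ^ ee Γ.J h ≤ 2 ^ Γ.n) →
      ∃ (τ' : ℕ → Str → Option (DT Str Bool)) (ρ : Γ.W → Γ.W)
        (R' : ℕ → Var → DT Str (Option (Fin Γ.N))),
        Pre Γ Γ.J M (Γ.n ^ d') (shp Nb (decT t ee)) τ' (fun z => YY (ρ z)) R' ∧
        St Γ Γ.J M (E * Γ.n ^ g') (shp Nb (decT t ee)) τ' (fun z => YY (ρ z)) ∧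
        Rs Γ Γ.J (shp Nb ee) (shp Nb (decT t ee)) ρ ∧
        ∀ z v, v.length < Γ.V lv → Γ.F τ' (fun z => YY (ρ z)) z v = Γ.F τ YY (ρ z) v) :
    False := by
  classical
  have hn16 := hΓ.hn16
  have hn1 : 1 ≤ Γ.n := by omega
  have hn2 : 2 ≤ Γ.n := by omega
  obtain ⟨K, hK⟩ : ∃ K, K = (Γ.col Γ.J).l.length := ⟨_, rfl⟩
  obtain ⟨G, hG⟩ : ∃ G, G = g0 + g' + b + 20 * (κ * ((Γ.col Γ.J).l.length + 3)) := ⟨_, rfl⟩
  rw [← hG] at hRg
  rw [← hK] at hkJ hn hG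
  have hK1 : 1 ≤ K := by rw [hK]; exact List.length_pos_of_ne_nil hgc.hl
  have hNb1 : 1 ≤ Nb := le_trans (Nat.one_le_pow _ _ hn1) hRg.pw
  have hN1 : 1 ≤ Γ.N := le_trans (Nat.mul_pos hRg.pos (Nat.one_le_pow _ _ hn1)) hRg.gap
  -- fan-ins
  have hfan : ∀ h < K, Nb ^ seqE (t + 4) h ≤ 2 ^ Γ.n := by
    intro h hh
    refine le_trans (Nat.pow_le_pow_right hNb1 ?_) hprod
    exact Finset.single_le_sum (f := fun h => seqE (t + 4) h) (fun _ _ => Nat.zero_le _)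
      (Finset.mem_range.2 (by rw [hkJ]; exact hh))
  -- readings
  have hq : ∀ u : List ℕ, ∃ y : Str, Γ.P Γ.J (shp Nb (fun _ h => seqE (t + 4) h)) (Γ.J, u) →
      tl (Γ.col Γ.J) y < Γ.V (lv + 1) ∧
        ∀ x, nEval (Γ.col Γ.J).i (Γ.F τ YY x) y = (x (Γ.J, u)).isSome := by
    intro u
    by_cases hu : Γ.P Γ.J (shp Nb (fun _ h => seqE (t + 4) h)) (Γ.J, u)
    · obtain ⟨y, hy⟩ := hread u hu
      exact ⟨y, fun _ => hy⟩
    · exact ⟨[], fun h => absurd h hu⟩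
  choose q hq using hq
  have hPu : ∀ u : List ℕ, u.length = K → VP (shp Nb (fun _ h => seqE (t + 4) h) Γ.J) 0 u →
      Γ.P Γ.J (shp Nb (fun _ h => seqE (t + 4) h)) (Γ.J, u) := by
    intro u h1 h2
    exact ⟨Finset.mem_Icc.2 ⟨le_rfl, le_rfl⟩, by rw [hkJ]; exact h1, h2⟩
  -- the string with the instructions
  have hV0 : Γ.n ≤ Γ.V lv := hΓ.n_le_V lv
  have hV1 : Γ.n ≤ Γ.V (lv + 1) := hΓ.n_le_V (lv + 1)
  have hVV : Γ.V lv ≤ Γ.V (lv + 1) := hΓ.V_mono (Nat.le_succ lv)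
  have hsl : Γ.n ^ β = Γ.n * Γ.V (lv + 1) := by
    rw [hβ, pow_succ, mul_comm]; rfl
  have h16V : 16 * Γ.V (lv + 1) ≤ Γ.n * Γ.V (lv + 1) := Nat.mul_le_mul_right _ hn16
  obtain ⟨s, hs⟩ : ∃ s : Str, s = List.replicate (Γ.n ^ β) false := ⟨_, rfl⟩
  have hslen : s.length = Γ.n ^ β := by rw [hs, List.length_replicate]
  obtain ⟨T, hT⟩ := instr K Γ.n (Γ.V (lv + 1)) hK1 (shp Nb (fun _ h => seqE (t + 4) h) Γ.J) hfan q
    (fun u h1 h2 => (tl_large _ _).le.trans (hq u (hPu u h1 h2)).1.le) s (by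
      rw [hslen, hsl]
      omega)
  -- the new free part
  obtain ⟨YY', hYY'⟩ : ∃ YY' : Γ.W → Lang,
    YY' = fun x v => if v.length < Γ.V lv then YY x v else T v := ⟨_, rfl⟩
  have hYa : ∀ x v, v.length < Γ.V lv → YY' x v = YY x v := by
    intro x v hv
    rw [hYY']
    exact if_pos hv
  have hYb : ∀ x v, Γ.V lv ≤ v.length → YY' x v = T v := by
    intro x v hv
    rw [hYY']
    exact if_neg (by omega)
  have hPre1 := hPre.mono (D' := Γ.n ^ d') (Nat.pow_le_pow_right hn1 hd)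
  obtain ⟨hPre2, hloc⟩ := hPre1.swap hΓ YY' hYa (by
    intro x x' hxx
    funext v
    by_cases hv : v.length < Γ.V lv
    · rw [hYa x v hv, hYa x' v hv, hPre.dep x x' hxx]
    · rw [hYb x v (by omega), hYb x' v (by omega)]) (by
    intro v
    by_cases hv : v.length < Γ.V lv
    · obtain ⟨T1, h1, h2⟩ := hPre1.mt v
      exact ⟨T1, h1, fun x => by rw [hYa x v hv]; exact h2 x⟩
    · exact ⟨MT.leaf (T v), by simp [MT.dle], fun x => by rw [hYb x v (by omega)]; rfl⟩)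
  have hSt2 : St Γ Γ.J lv E (shp Nb (fun _ h => seqE (t + 4) h)) τ YY' := by
    constructor
    · intro v
      by_cases hv : v.length < Γ.V lv
      · have e : (fun x => YY' x v) = fun x => YY x v := by
          funext x
          exact hYa x v hv
        rw [e]
        exact hSt.fr v
      · exact Steady.const (b := T v) (fun x => hYb x v (by omega))
    · intro i hi hloi y hy
      have e : (fun x => nEval (Γ.col i).i (Γ.F τ YY' x) y) =
          fun x => nEval (Γ.col i).i (Γ.F τ YY x) y := by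
        funext x
        apply (hΓ.gd hi).congr
        intro v hv
        exact hloc x v (by omega)
      rw [e]
      exact hSt.low i hi hloi y hy
  obtain ⟨τ', ρ, R', hPre3, hSt3, hRs, hag⟩ := hE (fun _ h => seqE (t + 4) h) τ YY' R hPre2 hSt2
    (fun i => by show t ≤ t + 4; omega) (fun h hh => hfan h (by rw [← hkJ]; exact hh))
  have hview : ∀ y : Str, tl (Γ.col Γ.J) y < Γ.V (lv + 1) →
      (y.length + 2) ^ (Γ.col Γ.J).bI < Γ.V lv := by
    intro y hy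
    have h1 := hgc.view y (List.replicate ((y.length + 2) ^ (Γ.col Γ.J).bI) false) (by simp)
    rw [List.length_replicate] at h1
    by_contra hcon
    have h2 : Γ.V lv ≤ (y.length + 2) ^ (Γ.col Γ.J).bI := by omega
    have h3 : Γ.V lv ^ 2 ≤ ((y.length + 2) ^ (Γ.col Γ.J).bI) ^ (2 ^ ((Γ.col Γ.J).m + 1)) := by
      calc Γ.V lv ^ 2 ≤ ((y.length + 2) ^ (Γ.col Γ.J).bI) ^ 2 := Nat.pow_le_pow_left h2 2
        _ ≤ _ := Nat.pow_le_pow_right (Nat.one_le_pow _ _ (by omega)) (by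
          calc 2 = 2 ^ 1 := rfl
            _ ≤ _ := Nat.pow_le_pow_right (by norm_num) (by omega))
    rw [← V_succ] at h3
    omega
  -- the identity for the new worlds
  have hid : ∀ z, sEval (Γ.col Γ.J).p (Γ.col Γ.J).l (Γ.F τ' (fun z => YY' (ρ z)) z) s =
      tr (shp Nb (decT t (fun _ h => seqE (t + 4) h)) Γ.J) (Γ.k Γ.J)
        (fun u => (z (Γ.J, u)).isSome) [] := by
    intro z
    have hmem := hPre3.mem hΓ z
    rw [← hJust _ hmem s, ← hK]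
    rw [hT _ _ (by
      intro r hr
      obtain ⟨m', hm'⟩ : ∃ m', Γ.n ^ β = m' + 1 := ⟨Γ.n ^ β - 1, by
        have := Nat.one_le_pow β Γ.n hn1
        omega⟩
      have hsr : s ++ r = false :: (List.replicate m' false ++ r) := by
        rw [hs, hm', List.replicate_succ, List.cons_append]
      have hlen : Γ.V lv ≤ (s ++ r).length := by
        rw [List.length_append, hslen, hsl]
        omega
      have h1 : Γ.F τ' (fun z => YY' (ρ z)) z (s ++ r) = YY' (ρ z) (s ++ r) := by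
        rw [hsr] at hlen ⊢
        exact F_false τ' (fun z => YY' (ρ z)) z _ (hV0.trans hlen)
      rw [h1, hYb _ _ hlen])]
    rw [← hRs.tr Γ.J (Finset.mem_Icc.2 ⟨le_rfl, le_rfl⟩) z, hkJ]
    apply tr_congr' _ _ _ K [] trivial
    intro u hu1 hu2
    rw [List.length_nil, add_zero] at hu1
    obtain ⟨h1, h2⟩ := hq u (hPu u hu1 hu2)
    rw [← h2 (ρ z)]
    apply hgc.hI.congr
    intro v hv
    have h3 := hview (q u) h1
    rw [hag z v (by omega)]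
    exact hloc (ρ z) v (by omega)
  -- exponents
  have hdle : ∀ h, decT t (fun _ h => seqE (t + 4) h) Γ.J h ≤ seqE (t + 4) h := by
    intro h
    unfold decT
    rcases Nat.eq_zero_or_pos h with rfl | hh
    · rw [Function.update_self]
      exact Nat.sub_le _ _
    · rw [Function.update_of_ne (by omega)]
  have hκK : 3 * κ ≤ κ * (K + 3) := by nlinarith
  have hnκ : Γ.n ≤ Γ.n ^ κ := Nat.le_self_pow (by omega) _
  refine fin2 hΓ hPre3 hSt3 b (fun O => sEval (Γ.col Γ.J).p (Γ.col Γ.J).l O s) ?_ hid ?_ ?_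
    (Γ.n ^ κ) Γ.n ?_ ?_ ?_ ?_ ?_
  · rw [hkJ, hK]
    have h1 := hgc.hM (Γ.n ^ β) (le_trans hn2 (Nat.le_self_pow (by omega) _)) s hslen.le
    have h2 : (Γ.n ^ β) ^ (Γ.col Γ.J).bM ≤ Γ.n ^ b := by
      rw [← pow_mul, hb]
      exact Nat.pow_le_pow_right hn1 (Nat.le_succ _)
    exact h1.mono (SL_mono h2) h2 h2
  · unfold Ctx.V
    apply Nat.pow_lt_pow_right (by omega)
    calc b < 2 ^ b := Nat.lt_two_pow_self
      _ ≤ 2 ^ M := Nat.pow_le_pow_right (by norm_num) (by omega)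
  · calc Γ.n ^ b * (E * Γ.n ^ g') = E * Γ.n ^ (b + g') := by rw [pow_add]; ring
      _ < E * Γ.n ^ G := Nat.mul_lt_mul_of_pos_left (Nat.pow_lt_pow_right (by omega) (by omega))
          hRg.pos
      _ ≤ Γ.N := hRg.gap
  · rw [← pow_add, hκ]
    exact Nat.pow_le_pow_right hn1 (by omega)
  · intro h hh
    show Nb ^ (decT t (fun _ h => seqE (t + 4) h) Γ.J h) ≤ 2 ^ Γ.n
    exact le_trans (Nat.pow_le_pow_right hNb1 (hdle h)) (hfan h (by rw [← hkJ]; exact hh))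
  · rw [hkJ]
    exact num2 (by omega) (by omega) (by omega)
  · have h1 : shp Nb (decT t (fun _ h => seqE (t + 4) h)) Γ.J 0 = Nb ^ 4 := by
      show Nb ^ (decT t (fun _ h => seqE (t + 4) h) Γ.J 0) = Nb ^ 4
      congr 1
      unfold decT
      rw [Function.update_self]
      show t + 4 - t = 4
      omega
    rw [h1]
    apply num0 (by omega) _ hN1 hRg.le
    calc 20 * (Γ.n ^ κ) ^ 3 ≤ Γ.n ^ 2 * (Γ.n ^ κ) ^ 3 := Nat.mul_le_mul_right _ (by nlinarith)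
      _ = Γ.n ^ (2 + κ * 3) := by rw [← pow_mul, ← pow_add]
      _ ≤ Γ.n ^ G := Nat.pow_le_pow_right hn1 (by omega)
      _ ≤ Nb := hRg.pw
  · intro h hh
    rw [hkJ] at hh
    show _ < Nb ^ (decT t (fun _ h => seqE (t + 4) h) Γ.J (h + 1))
    apply num1 (g := h) (e := decT t (fun _ h => seqE (t + 4) h) Γ.J h) (by omega) _ rfl
    · have h1 := hdle h
      have h2 : decT t (fun _ h => seqE (t + 4) h) Γ.J (h + 1) = seqE (t + 4) (h + 1) := by
        unfold decT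
        rw [Function.update_of_ne (by omega)]
      rw [h2, seqE_succ]
      have h3 : (2 * decT t (fun _ h => seqE (t + 4) h) Γ.J h + 1) * (h + 2) ≤
          (2 * seqE (t + 4) h + 1) * (h + 2) := Nat.mul_le_mul_right _ (by omega)
      omega
    · calc (Γ.n ^ κ) ^ (2 * h + 7) = Γ.n ^ (κ * (2 * h + 7)) := by rw [← pow_mul]
        _ ≤ Γ.n ^ G := by
          apply Nat.pow_le_pow_right hn1
          have h4 : κ * (2 * h + 7) ≤ κ * (20 * (K + 3)) := Nat.mul_le_mul_left _ (by omega)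
          have h5 : κ * (20 * (K + 3)) = 20 * (κ * (K + 3)) := by ring
          omega
        _ ≤ Nb := hRg.pw

end NRsAux

theorem nr_of_ext (col : ℕ → Col) (e lv d : ℕ) (hgd : ∀ i ≤ e, Gd (col i))
    (hlo : (col e).lo = true) (hm : (col e).m ≤ lv)
    (hext : ∀ M d' kk, lv ≤ M → 2 ^ M + 1 ≤ d' → EXT col e lv M d' kk) : NR col e lv d := by
  have hgc : Gd (col e) := hgd e le_rfl
  obtain ⟨β, hβ⟩ : ∃ β, β = 2 ^ (lv + 1) + 1 := ⟨_, rfl⟩
  obtain ⟨b, hb⟩ : ∃ b, b = β * (col e).bM + 1 := ⟨_, rfl⟩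
  obtain ⟨M, hM⟩ : ∃ M, M = max lv (b + 1) := ⟨_, rfl⟩
  obtain ⟨d', hd'⟩ : ∃ d', d' = max d (2 ^ M + 1) := ⟨_, rfl⟩
  obtain ⟨κ, hκ⟩ : ∃ κ, κ = b + d' + 3 := ⟨_, rfl⟩
  obtain ⟨t, g0, g', n1, hE⟩ := hext M d' (col e).l.length (by rw [hM]; exact le_max_left _ _)
    (by rw [hd']; exact le_max_right _ _)
  refine ⟨g0 + g' + b + 20 * (κ * ((col e).l.length + 3)), t + 4,
    max n1 ((col e).l.length + e + 100), ?_⟩
  intro Γ hΓ hcol hJ hk hn hJL Nb E hRg hprod τ YY R hPre hSt hread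
  subst hcol
  subst hJ
  have hn1 : n1 ≤ Γ.n := le_trans (le_max_left _ _) hn
  have hn2 : (Γ.col Γ.J).l.length + Γ.J + 100 ≤ Γ.n := le_trans (le_max_right _ _) hn
  have hnn : 1 ≤ Γ.n := by omega
  have hRg0 : Rg Γ Nb E g0 := by
    have h1 : Γ.n ^ g0 ≤ Γ.n ^ (g0 + g' + b + 20 * (κ * ((Γ.col Γ.J).l.length + 3))) :=
      Nat.pow_le_pow_right hnn (by omega)
    exact ⟨h1.trans hRg.pw, hRg.le, hRg.pos, (Nat.mul_le_mul_left _ h1).trans hRg.gap⟩
  exact NRsAux.core hΓ hgc hk (hJL Γ.J le_rfl hlo) hβ hb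
    (by rw [hM]; exact le_max_right _ _) (by rw [hd']; exact le_max_left _ _) hκ hn2 hRg hprod
    hPre hSt hread
    (hE Γ hΓ rfl rfl hk.le hn1 (fun i hi hlo => hJL i hi.le hlo) Nb E hRg0)

end Pool.Agent.Lib.Pa76659B
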