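import Pool.Agent.Lib.Pa76659B.Up
import Pool.Agent.Lib.Pa76659B.RsLem
import Pool.Agent.Lib.Pa76659B.Thin2

/-!
MODULE Shallow2: after a restriction the literals of `X + A_(i0)` are shallow trees (adaptation of
`Inv.shallow`, Pa76659H/Ext.lean).

Numbers: `t := 4`, `g := 2 ^ lv + d + 4`, `n1 := kk + J + 16`. `thin2` with `Θ := SLt (n ^ bM + 1)`
(`bM := (col i0).bM`), `f θ x := nEval (col i0).a (F x) θ`, `w := V lv * n ^ d`, `s := n ^ bM + 2`,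
`A := n ^ bM + 1`, `c := n * kk + J + 3`, `R := 4 * w * (N + 1) * N + 1`, `G := Nb ^ 4`. The view of `(col i0).a` on
strings of length `≤ n ^ bM` is `(n ^ bM + 2) ^ bA < n ^ (2 ^ m) ≤ V lv` (`Gd.lev`). `hpc`: `nEval_pc`,
`hr1`: `nEval_st` with `V lv * E < N` (see module Level). `s ≤ n ^ d`: `n ^ bM + 2 ≤ n ^ (2 * bM + 5) ≤ n ^ (2 ^ m) ≤ V lv ≤ n ^ d`
by `hd`. Bits of `X` itself: `Pre.bits`.
-/

set_option maxHeartbeats 4000000

namespace Pool.Agent.Lib.Pa76659B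

open Pool.Agent.Lib.Pa76659 Pool.Agent.Lib.Pa76659H Pool.Agent.Lib.Pa76659.Hier

theorem shallow_step (J lv d kk : ℕ) (hd : 2 ^ (lv + 1) + 1 ≤ d) : ∃ t g n1 : ℕ, ∀ (Γ : Ctx), Γ.OK →
    Γ.J = J → n1 ≤ Γ.n → ∀ (Nb E : ℕ), Rg Γ Nb E g →
    ∀ (i0 : ℕ), (∀ i ∈ Finset.Icc i0 Γ.J, Γ.k i ≤ kk) → ∀ (ee : ℕ → ℕ → ℕ)
      (τ : ℕ → Str → Option (DT Str Bool)) (YY : Γ.W → Lang)
      (R : ℕ → Var → DT Str (Option (Fin Γ.N))),
    Pre Γ i0 lv (Γ.n ^ d) (shp Nb ee) τ YY R → St Γ i0 lv E (shp Nb ee) τ YY →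
    i0 < Γ.J → (Γ.col i0).m ≤ lv → (∀ i, t ≤ ee i 0) →
    (∀ i ∈ Finset.Icc i0 Γ.J, ∀ h < Γ.k i, Nb ^ ee i h ≤ 2 ^ Γ.n) →
    ∃ (ρ : Γ.W → Γ.W) (R' : ℕ → Var → DT Str (Option (Fin Γ.N))),
      Pre Γ i0 lv (Γ.n ^ d) (shp Nb (decT t ee)) τ (fun z => YY (ρ z)) R' ∧
      Rs Γ i0 (shp Nb ee) (shp Nb (decT t ee)) ρ ∧
      ∀ u ∈ Γ.Q i0, ∃ T : MT Var (Option (Fin Γ.N)) Bool, T.dle (Γ.n ^ d) ∧
        ∀ x, Γ.C τ (fun z => YY (ρ z)) i0 x u = T.eval x := by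
  classical
  refine ⟨4, 2 ^ lv + d + 4, kk + J + 16, ?_⟩
  intro Γ hΓ hJ hn Nb E hRg i0 hkk ee τ YY R h hst hi hl hee hsmall
  have hgd := hΓ.gd hi
  have hn16 := hΓ.hn16
  have hnb1 : 1 ≤ Γ.n ^ (Γ.col i0).bM := Nat.one_le_pow _ _ (by omega)
  have hlevV : Γ.n ^ (2 ^ (Γ.col i0).m) ≤ Γ.V lv := by
    unfold Ctx.V
    exact Nat.pow_le_pow_right (by omega) (Nat.pow_le_pow_right (by norm_num) hl)
  have hlev1 : (Γ.n ^ (Γ.col i0).bM + 2) ^ (Γ.col i0).bA < Γ.V lv :=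
    lt_of_lt_of_le (hgd.lev (by omega)).1 hlevV
  have hlev2 : Γ.n ^ (Γ.col i0).bM < Γ.V lv := lt_of_lt_of_le (hgd.lev1 (by omega)) hlevV
  have hVd : Γ.V lv ≤ Γ.n ^ d := by
    unfold Ctx.V
    apply Nat.pow_le_pow_right (by omega)
    have : 2 ^ lv ≤ 2 ^ (lv + 1) := Nat.pow_le_pow_right (by norm_num) (by omega)
    omega
  have hs : Γ.n ^ (Γ.col i0).bM + 2 ≤ Γ.n ^ d := by
    refine le_trans ?_ ((hgd.lev (n := Γ.n) (by omega)).2.trans (hlevV.trans hVd))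
    calc Γ.n ^ (Γ.col i0).bM + 2 ≤ Γ.n ^ (Γ.col i0).bM * Γ.n := by nlinarith
      _ = Γ.n ^ ((Γ.col i0).bM + 1) := by rw [pow_succ]
      _ ≤ Γ.n ^ (2 * (Γ.col i0).bM + 5) := Nat.pow_le_pow_right (by omega) (by omega)
  have hVpos : 1 ≤ Γ.V lv := by omega
  have hVE : Γ.V lv * E < Γ.N := by
    refine lt_of_lt_of_le ?_ hRg.gap
    have h1 : Γ.V lv < Γ.n ^ (2 ^ lv + d + 4) := by
      unfold Ctx.V
      exact Nat.pow_lt_pow_right (by omega) (by omega)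
    have h2 := hRg.pos
    calc Γ.V lv * E = E * Γ.V lv := mul_comm _ _
      _ < E * Γ.n ^ (2 ^ lv + d + 4) := Nat.mul_lt_mul_of_pos_left h1 (by omega)
  have hN1 : 1 ≤ Γ.N := by omega
  have hNb1 : 1 ≤ Nb := hN1.trans hRg.le
  have hthin : thinM (Nb ^ 4) (shp Nb ee) = shp Nb (decT 4 ee) := thinM_shp2 hNb1 hee
  obtain ⟨x0, ch, hx0, hch, hT⟩ := thin2 Γ.N (4 * (Γ.V lv * Γ.n ^ d) * (Γ.N + 1) * Γ.N + 1)
    (Γ.V lv * Γ.n ^ d) (Γ.n ^ (Γ.col i0).bM + 2) (Γ.n ^ (Γ.col i0).bM + 1)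
    (Γ.n * kk + J + 3) (Nb ^ 4) (Finset.Icc i0 Γ.J) Γ.k (shp Nb ee)
    (fun i hi => hΓ.hk1 i (Finset.mem_Icc.1 hi).2)
    (Θ := SLt (Γ.n ^ (Γ.col i0).bM + 1))
    (fun θ x => nEval (Γ.col i0).a (Γ.F τ YY x) θ.2.1) hN1 (by
      intro θ x hx
      have h3 : (θ.2.1.length + 2) ^ (Γ.col i0).bA ≤
          (Γ.n ^ (Γ.col i0).bM + 2) ^ (Γ.col i0).bA := by
        apply Nat.pow_le_pow_left
        have := θ.1.2
        have h4 : θ.2.1.length = θ.1 := θ.2.2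
        omega
      exact nEval_pc (V := Γ.V lv) (w := Γ.V lv) (D := Γ.n ^ d) (Γ.F τ YY)
        (fun v hv => h.bits hΓ v hv) (Γ.col i0).a hgd.hA θ.2.1 (by omega) (by omega) x hx) (by
      intro θ x v hv hx
      have h3 : (θ.2.1.length + 2) ^ (Γ.col i0).bA ≤
          (Γ.n ^ (Γ.col i0).bM + 2) ^ (Γ.col i0).bA := by
        apply Nat.pow_le_pow_left
        have := θ.1.2
        have h4 : θ.2.1.length = θ.1 := θ.2.2
        omega
      cases hxv : x v with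
      | some y0 =>
          refine ⟨y0, ?_⟩
          rw [← hxv, Function.update_eq_self]
          exact hx
      | none =>
          have h4 := nEval_st (P := Γ.P i0 (shp Nb ee)) (E := E) (V := Γ.V lv) (w := Γ.V lv)
            (Γ.F τ YY) (fun v hv => hst.bits hΓ h le_rfl v hv) (Γ.col i0).a hgd.hA θ.2.1
            (by omega) (by omega) x v hv (by
              rw [← hxv, Function.update_eq_self]
              exact hx)
          by_contra hcon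
          push Not at hcon
          have h5 : (Finset.univ.filter (fun c : Fin Γ.N =>
              nEval (Γ.col i0).a (Γ.F τ YY (Function.update x v (some c))) θ.2.1 = false)) =
              Finset.univ := by
            rw [Finset.filter_eq_self]
            intro y _
            have := hcon y
            simpa using this
          rw [h5, Finset.card_univ, Fintype.card_fin] at h4
          omega)
    (card_SLt _) le_rfl le_rfl (by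
      have hc : Γ.n * kk + J + 3 ≤ Γ.n ^ 2 := by
        have h1 : Γ.n * (kk + J + 16) ≤ Γ.n * Γ.n := Nat.mul_le_mul_left _ hn
        have h2 : J + 3 ≤ Γ.n * (J + 16) := by nlinarith
        rw [pow_two]
        nlinarith
      have hw1 : 1 ≤ Γ.V lv * Γ.n ^ d :=
        Nat.mul_pos hVpos (Nat.pos_of_ne_zero (by positivity))
      have h1 : 4 * (Γ.V lv * Γ.n ^ d) * (Γ.N + 1) * Γ.N + 1 + 1 ≤
          Γ.n * (Γ.V lv * Γ.n ^ d) * Nb ^ 2 := by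
        have e1 : (Γ.N + 1) * Γ.N ≤ 2 * Nb ^ 2 := by
          have := hRg.le
          nlinarith
        have e2 : 1 ≤ Nb ^ 2 := Nat.one_le_pow _ _ hNb1
        have e3 : 4 * (Γ.V lv * Γ.n ^ d) * ((Γ.N + 1) * Γ.N) ≤
            4 * (Γ.V lv * Γ.n ^ d) * (2 * Nb ^ 2) := Nat.mul_le_mul_left _ e1
        have e4 : 1 ≤ (Γ.V lv * Γ.n ^ d) * Nb ^ 2 := Nat.mul_pos hw1 e2
        have e5 : 16 * ((Γ.V lv * Γ.n ^ d) * Nb ^ 2) ≤ Γ.n * ((Γ.V lv * Γ.n ^ d) * Nb ^ 2) :=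
          Nat.mul_le_mul_right _ hn16
        calc 4 * (Γ.V lv * Γ.n ^ d) * (Γ.N + 1) * Γ.N + 1 + 1
            = 4 * (Γ.V lv * Γ.n ^ d) * ((Γ.N + 1) * Γ.N) + 2 := by ring
          _ ≤ 4 * (Γ.V lv * Γ.n ^ d) * (2 * Nb ^ 2) + 2 * ((Γ.V lv * Γ.n ^ d) * Nb ^ 2) := by
              omega
          _ = 10 * ((Γ.V lv * Γ.n ^ d) * Nb ^ 2) := by ring
          _ ≤ Γ.n * ((Γ.V lv * Γ.n ^ d) * Nb ^ 2) := by omega
          _ = Γ.n * (Γ.V lv * Γ.n ^ d) * Nb ^ 2 := by ring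
      calc (4 * (Γ.V lv * Γ.n ^ d) * (Γ.N + 1) * Γ.N + 1 + 1) * (Γ.n * kk + J + 3)
          ≤ (Γ.n * (Γ.V lv * Γ.n ^ d) * Nb ^ 2) * Γ.n ^ 2 := Nat.mul_le_mul h1 hc
        _ = Γ.n ^ (2 ^ lv + d + 3) * Nb ^ 2 := by
            unfold Ctx.V
            ring
        _ ≤ Γ.n ^ (2 ^ lv + d + 4) * Nb ^ 2 :=
            Nat.mul_le_mul_right _ (Nat.pow_le_pow_right (by omega) (by omega))
        _ ≤ Nb * Nb ^ 2 := Nat.mul_le_mul_right _ hRg.pw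
        _ ≤ Nb * Nb ^ 2 * Nb := Nat.le_mul_of_pos_right _ hNb1
        _ = Nb ^ 4 := by ring)
    (Nat.one_le_pow _ _ hNb1) (by
      rw [hthin]
      apply card_names_le
      · rw [Nat.card_Icc]; omega
      · exact hkk
      · intro i hi h hh
        refine le_trans ?_ (hsmall i hi h hh)
        unfold shp decT
        apply Nat.pow_le_pow_right hNb1
        by_cases h0 : h = 0
        · subst h0
          rw [Function.update_self]
          omega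
        · rw [Function.update_of_ne h0])
  have hρ : Rs Γ i0 (shp Nb ee) (shp Nb (decT 4 ee))
      (fun z => patch (Finset.Icc i0 Γ.J) Γ.k (shp Nb ee) (Nb ^ 4) ch x0 z) := by
    rw [← hthin]
    exact patch_rs hΓ (Nat.one_le_pow _ _ hNb1) hx0 hch
  obtain ⟨R', hR'⟩ := h.rs hρ
  refine ⟨_, R', hR', hρ, fun u hu => ?_⟩
  have hu : u.length ≤ Γ.n ^ (Γ.col i0).bM := hu
  rcases u with _ | ⟨b, v⟩
  · exact ⟨MT.leaf false, trivial, fun x => rfl⟩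
  · simp only [List.length_cons] at hu
    cases b
    · obtain ⟨T, hT1, hT2⟩ := hR'.bits hΓ v (by omega)
      exact ⟨T, hT1, hT2⟩
    · obtain ⟨t, ht⟩ := exists_SLt (L := Γ.n ^ (Γ.col i0).bM + 1) v (by omega)
      obtain ⟨T, hT1, hT2⟩ := hT t
      refine ⟨T, MT.dle_mono hT1 hs, fun x => ?_⟩
      rw [← hT2 x, ht]
      rfl

end Pool.Agent.Lib.Pa76659B
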