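import Pool.Agent.Lib.Pa76659B.InvD
import Pool.Agent.Lib.Pa76659H.Start

/-!
MODULE Start2: the initial family of worlds. Adaptation of `start` (Pa76659H/Start.lean): `Y0 n J k m`
(from there; it does not depend on columns), `R := fun _ _ => DT.leaf none`, `τ := none`.
New fields: `dep` and `mt` follow from `lit` (`LitF.mt`, `1 ≤ D`), `low` at level 0: `tl (col i) y < V 0 = n`, so the value is a
constant (view below `n`, `lowC` with `lv = 0`).
-/

set_option maxHeartbeats 4000000

namespace Pool.Agent.Lib.Pa76659B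

open Pool.Agent.Lib.Pa76659 Pool.Agent.Lib.Pa76659H Pool.Agent.Lib.Pa76659.Hier

theorem start2 {Γ : Ctx} (hΓ : Γ.OK) (D : ℕ) (hD : 1 ≤ D) (m : ℕ → ℕ → ℕ)
    (hN : Γ.N ≤ 2 ^ Γ.n) (hm : ∀ i ≤ Γ.J, ∀ h < Γ.k i, m i h ≤ 2 ^ Γ.n) :
    ∃ (YY : Γ.W → Lang) (R : ℕ → Var → DT Str (Option (Fin Γ.N))),
      Inv Γ 0 0 D m (fun _ _ => none) YY R := by
  classical
  have hJ : ∀ i ≤ Γ.J, i + 2 ≤ Γ.n := fun i hi => by
    have := hΓ.hJ
    omega
  have hlit : ∀ v : Str, LitF (Γ.P 0 m) (fun x : Γ.W => Y0 Γ.n Γ.J Γ.k m x v) := by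
    intro v
    by_cases hh : ∃ t : ℕ × List ℕ, t.1 ≤ Γ.J ∧ t.2.length = Γ.k t.1 + 1 ∧
      Valid (rs t.1 Γ.n) t.2 ∧ es (rs t.1 Γ.n) t.2 = v
    · obtain ⟨⟨i, p⟩, a1, a2, a3, rfl⟩ := hh
      simp only at a1 a2 a3
      have e : (fun x : Γ.W => Y0 Γ.n Γ.J Γ.k m x (es (rs i Γ.n) p)) = fun x => lbit m i p x := by
        funext x
        exact Y0_leaf hJ x a1 a2 a3
      show LitF _ (fun x : Γ.W => Y0 Γ.n Γ.J Γ.k m x (es (rs i Γ.n) p))
      rw [e]
      cases hnb : nb (mmf Γ.N (m i)) 0 p with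
      | some b => exact Or.inl ⟨b, fun x => by simp [lbit, hnb]⟩
      | none =>
          rcases p with _ | ⟨y, u⟩
          · simp at a2
          · right
            obtain ⟨h1, h2⟩ := (nb_none _ _ _).1 hnb
            have hy : y < Γ.N := h1
            refine ⟨(i, u), ⟨?_, by simpa using a2, ?_⟩, ⟨y, hy⟩, true, fun x => ?_⟩
            · rw [Finset.mem_Icc]; exact ⟨Nat.zero_le _, a1⟩
            · exact (VP_shift (mmf Γ.N (m i)) 0 u).2 h2
            · simp only [lbit, hnb, Bool.true_xor]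
              congr 1
              apply decide_eq_decide.2
              exact ⟨fun ⟨_, h⟩ => h, fun h => ⟨hy, h⟩⟩
    · refine Or.inl ⟨false, fun x => ?_⟩
      show Y0 Γ.n Γ.J Γ.k m x v = false
      unfold Y0
      rw [dif_neg hh]
  have hV0 : Γ.V 0 = Γ.n := by
    unfold Ctx.V
    simp only [pow_zero, pow_one]
  refine ⟨Y0 Γ.n Γ.J Γ.k m, fun _ _ => DT.leaf none, ?_, hlit, ?_⟩
  · refine ⟨Nat.zero_le _, ?_, ?_, ?_, fun i hi y _ => rfl, ?_, ?_, ?_, ?_⟩
    · intro x x' hx
      funext v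
      rcases hlit v with ⟨b, hb⟩ | ⟨w, hw, y, b, h⟩
      · exact (hb x).trans (hb x').symm
      · have h1 := h x
        have h2 := h x'
        rw [hx w hw] at h1
        exact h1.trans h2.symm
    · intro v
      obtain ⟨T, h1, h2⟩ := (hlit v).mt
      exact ⟨T, MT.dle_mono h1 hD, h2⟩
    · intro i hi _ y h1 h2
      exfalso
      rw [hV0] at h2
      omega
    · intro i hi y T hT
      simp at hT
    · intro i hi hlo y hy
      rw [hV0] at hy
      refine ⟨MT.leaf (nEval (Γ.col i).i Γ.σ y), trivial, fun x => ?_⟩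
      show nEval (Γ.col i).i (Γ.F _ _ x) y = nEval (Γ.col i).i Γ.σ y
      apply (hΓ.wf.gd _ (hΓ.mem hi)).congr
      intro v hv
      exact Phi_below _ _ _ v (lt_trans hv hy)
    · intro i hi
      exact ⟨fun h => absurd h (by omega), fun _ => Nat.zero_le _⟩
    · intro i hi
      omega
  · intro i hi x X hX
    have hiJ := (Finset.mem_Icc.1 hi).2
    have hlen := rs_length (hJ i hiJ)
    set κ := Γ.k i + 1 with hκ
    set full : ℕ → ℕ := fun j => 2 ^ ((rs i Γ.n).length * 2 ^ (κ - 1 - j)) with hfull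
    have hroot : ∀ u, ∃ r, es (rs i Γ.n) u = false :: r := by
      intro u
      obtain ⟨r, hr⟩ := es_prefix (rs i Γ.n) u
      exact ⟨_, by rw [hr]; unfold rs; rw [List.cons_append]⟩
    have h1 := QQ_tr (rs i Γ.n) κ X (fun p => lbit m i p x) (by
      intro u hu hv
      rw [← Y0_leaf hJ x hiJ hu hv]
      obtain ⟨r, hr⟩ := hroot u
      rw [hr]
      apply hX
      rw [← hr, es_length, hlen]
      exact Nat.le_mul_of_pos_right _ (by positivity)) κ [] (by simp) trivial
    have h2 : es (rs i Γ.n) [] = rs i Γ.n := rfl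
    rw [h2] at h1
    rw [h1]
    have h3 := tr_valid (mmf Γ.N (m i)) full (fun p => lbit m i p x) κ (by
      intro j hj
      have h4 : 2 ^ Γ.n ≤ full j := by
        simp only [hfull, hlen]
        apply Nat.pow_le_pow_right (by norm_num)
        exact Nat.le_mul_of_pos_right _ (by positivity)
      refine le_trans ?_ h4
      cases j with
      | zero => exact hN
      | succ j => exact hm i hiJ j (by omega)) (fun j => Nat.one_le_two_pow) (by
      intro u c hc
      simp [lbit, hc]) κ [] le_rfl rfl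
    refine h3.trans ?_
    rw [hκ, tr_bot]
    have h4 : (fun i_1 => mmf Γ.N (m i) (i_1 + 1)) = m i := rfl
    rw [h4]
    apply tr_congr' _ _ _ (Γ.k i) [] trivial
    intro u hu hv
    unfold bot
    have h5 : ∀ y, y < Γ.N → lbit m i (y :: u) x =
        !decide (∃ h : y < Γ.N, x (i, u) = some ⟨y, h⟩) := by
      intro y hy
      have h6 : nb (mmf Γ.N (m i)) 0 (y :: u) = none := by
        rw [nb_none]
        exact ⟨hy, (VP_shift (mmf Γ.N (m i)) 0 u).1 hv⟩
      simp [lbit, h6]
    cases hx : x (i, u) with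
    | none =>
        simp only [Option.isSome_none, decide_eq_false_iff_not]
        rintro ⟨y, hy, h6⟩
        have hy : y < Γ.N := hy
        rw [h5 y hy, hx] at h6
        simp at h6
    | some y =>
        simp only [Option.isSome_some, decide_eq_true_eq]
        refine ⟨y.1, y.2, ?_⟩
        rw [h5 y.1 y.2, hx]
        simp

end Pool.Agent.Lib.Pa76659B
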