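import Pool.Agent.Lib.Pa76659B.Ext
import Pool.Agent.Lib.Pa76659B.Start2
import Pool.Agent.Lib.Pa76659B.Shallow2
import Pool.Agent.Lib.Pa76659B.Leaves2
import Pool.Agent.Lib.Pa76659B.Connect2

/-!
The main run: from the initial family of worlds to the contradiction.
-/

set_option maxHeartbeats 4000000

namespace Pool.Agent.Lib.Pa76659B

open Pool.Agent.Lib.Pa76659 Pool.Agent.Lib.Pa76659H Pool.Agent.Lib.Pa76659.Hier

/-- exponents: growth, budget `C`, size -/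
structure EE (Γ : Ctx) (C : ℕ) (ee : ℕ → ℕ → ℕ) : Prop where
  gr : ∀ i ≤ Γ.J, ∀ h, h + 1 < Γ.k i → (2 * ee i h + 1) * (h + 2) + 2 ≤ ee i (h + 1)
  bud : ∀ i, C + ∑ i' ∈ Finset.Ioc i Γ.J, ∑ h ∈ Finset.range (Γ.k i'), ee i' h ≤ ee i 0
  sz : ∀ i ≤ Γ.J, ∀ h < Γ.k i, Γ.N ^ ee i h ≤ 2 ^ Γ.n

variable {Γ : Ctx}

theorem EE.dec {t C : ℕ} {ee : ℕ → ℕ → ℕ} (h : EE Γ (t + C) ee) (hN : 1 ≤ Γ.N) :
    EE Γ C (decT t ee) := by
  refine ⟨fun i hi g hg => ?_, fun i => ?_, fun i hi g hg => ?_⟩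
  · have h1 := h.gr i hi g hg
    have h2 : decT t ee i (g + 1) = ee i (g + 1) := by
      unfold decT
      rw [Function.update_of_ne (by omega)]
    rw [h2]
    refine le_trans ?_ h1
    have h3 := decT_le t ee i g
    exact Nat.add_le_add_right (Nat.mul_le_mul_right _ (by omega)) _
  · rw [decT_zero]
    have h1 := h.bud i
    have h2 : ∑ i' ∈ Finset.Ioc i Γ.J, ∑ h ∈ Finset.range (Γ.k i'), decT t ee i' h ≤
        ∑ i' ∈ Finset.Ioc i Γ.J, ∑ h ∈ Finset.range (Γ.k i'), ee i' h :=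
      Finset.sum_le_sum fun i' _ => Finset.sum_le_sum fun g _ => decT_le t ee i' g
    omega
  · exact (Nat.pow_le_pow_right hN (decT_le t ee i g)).trans (h.sz i hi g hg)

theorem EE.mono {C C' : ℕ} {ee : ℕ → ℕ → ℕ} (h : EE Γ C ee) (hC : C' ≤ C) : EE Γ C' ee :=
  ⟨h.gr, fun i => le_trans (by omega) (h.bud i), h.sz⟩

theorem imp_ex3 {P : Prop} {Q : ℕ → ℕ → ℕ → Prop} (h : P → ∃ a b c, Q a b c) :
    ∃ a b c, P → Q a b c := by
  by_cases hP : P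
  · obtain ⟨a, b, c, h1⟩ := h hP
    exact ⟨a, b, c, fun _ => h1⟩
  · exact ⟨0, 0, 0, fun h1 => absurd h1 hP⟩

/-- the next level, and steadiness there -/
theorem lvl_main (col : ℕ → Col) (J lv d kk : ℕ) (hd : 2 ^ (lv + 1) + 1 ≤ d)
    (hnr : ∀ e < J, (col e).lo = true → ∀ lv d, (col e).m ≤ lv → NR col e lv d) :
    ∃ t g n1 : ℕ, ∀ (Γ : Ctx), Γ.OK → Γ.col = col → Γ.J = J → n1 ≤ Γ.n → Γ.JL →
    ∀ (E : ℕ), Rg Γ Γ.N E g → ∀ i0, (∀ i ∈ Finset.Icc i0 Γ.J, Γ.k i ≤ kk) →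
    ∀ (ee : ℕ → ℕ → ℕ) (τ : ℕ → Str → Option (DT Str Bool)) (YY : Γ.W → Lang)
      (R : ℕ → Var → DT Str (Option (Fin Γ.N))),
    Inv Γ i0 lv (Γ.n ^ d) (shp Γ.N ee) τ YY R → St Γ i0 lv E (shp Γ.N ee) τ YY →
    (∀ i < Γ.J, i0 ≤ i → lv + 1 ≤ (Γ.col i).m) → (∀ i, t ≤ ee i 0) →
    (∀ i ∈ Finset.Icc i0 Γ.J, ∀ h < Γ.k i, Γ.N ^ ee i h ≤ 2 ^ Γ.n) →
    ∃ (τ' : ℕ → Str → Option (DT Str Bool)) (YY' : Γ.W → Lang)
      (R' : ℕ → Var → DT Str (Option (Fin Γ.N))),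
      Inv Γ i0 (lv + 1) (Γ.n ^ d) (shp Γ.N (decT t ee)) τ' YY' R' ∧
      St Γ i0 (lv + 1) (E * Γ.n ^ g) (shp Γ.N (decT t ee)) τ' YY' := by
  obtain ⟨t1, g1, n1, h1⟩ := lvl_step J lv d kk hd
  obtain ⟨t2, g2, n2, h2⟩ := abl_step col J lv d (fun e he hlo hm => hnr e he hlo lv d hm)
  refine ⟨t1 + t2, g1 + g2, max n1 n2, ?_⟩
  intro Γ hΓ hcol hJ hn hJL E hRg i0 hk ee τ YY R hI hS hm ht hsz
  have hn0 : 1 ≤ Γ.n := by have := hΓ.hn16; omega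
  have hN1 : 1 ≤ Γ.N := by
    have h5 : 1 ≤ Γ.n ^ (g1 + g2) := Nat.one_le_pow _ _ hn0
    exact h5.trans hRg.pw
  obtain ⟨τ1, ρ1, R1, hP1, hS1, hρ1, hF1⟩ := h1 Γ hΓ hJ (by omega) Γ.N E
    (hRg.mono hn0 (by omega)) i0 hk ee τ YY R hI.pre hS hm (fun i => by have := ht i; omega) hsz
  obtain ⟨ρ2, R2, hP2, hS2, hρ2⟩ := h2 Γ hΓ hcol hJ (by omega) hJL Γ.N E
    (hRg.mono hn0 (by omega)) i0 (lv + 1) _ _ _ _ (Nat.lt_succ_self _) hP1 hS1 (by
      intro i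
      rw [decT_zero]
      have := ht i; omega) (by
      intro i hi h hh
      exact (Nat.pow_le_pow_right hN1 (decT_le _ _ _ _)).trans (hsz i hi h hh))
  have hI1 := hI.rs hρ1 hP1
  have hI2 := hI1.rs hρ2 hP2
  rw [decT_decT] at hI2 hS2
  refine ⟨τ1, _, R2, hI2, ?_⟩
  refine ⟨fun v => (hS2.fr v).mono ?_, fun i hi hlo y hy => (hS2.low i hi hlo y hy).mono ?_⟩
  · exact Nat.mul_le_mul_left _ (Nat.pow_le_pow_right hn0 (by omega))
  · exact Nat.mul_le_mul_left _ (Nat.pow_le_pow_right hn0 (by omega))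

/-- steadiness, level by level -/
theorem abl_iter (col : ℕ → Col) (J d lv1 : ℕ)
    (hnr : ∀ e < J, (col e).lo = true → ∀ lv d, (col e).m ≤ lv → NR col e lv d) :
    ∀ (δ lv : ℕ), lv + δ = lv1 → ∃ t g n1 : ℕ, ∀ (Γ : Ctx), Γ.OK → Γ.col = col → Γ.J = J →
    n1 ≤ Γ.n → Γ.JL → ∀ (E : ℕ), Rg Γ Γ.N E g →
    ∀ (i0 : ℕ) (ee : ℕ → ℕ → ℕ) (τ : ℕ → Str → Option (DT Str Bool)) (YY : Γ.W → Lang)
      (R : ℕ → Var → DT Str (Option (Fin Γ.N))),
    Pre Γ i0 lv1 (Γ.n ^ d) (shp Γ.N ee) τ YY R → St Γ i0 lv E (shp Γ.N ee) τ YY →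
    (∀ i, t ≤ ee i 0) → (∀ i ∈ Finset.Icc i0 Γ.J, ∀ h < Γ.k i, Γ.N ^ ee i h ≤ 2 ^ Γ.n) →
    ∃ (ρ : Γ.W → Γ.W) (R' : ℕ → Var → DT Str (Option (Fin Γ.N))),
      Pre Γ i0 lv1 (Γ.n ^ d) (shp Γ.N (decT t ee)) τ (fun z => YY (ρ z)) R' ∧
      St Γ i0 lv1 (E * Γ.n ^ g) (shp Γ.N (decT t ee)) τ (fun z => YY (ρ z)) ∧
      Rs Γ i0 (shp Γ.N ee) (shp Γ.N (decT t ee)) ρ := by
  intro δ
  induction δ with
  | zero =>
      intro lv hlv
      obtain rfl : lv = lv1 := by omega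
      refine ⟨0, 0, 0, ?_⟩
      intro Γ hΓ hcol hJ hn hJL E hRg i0 ee τ YY R hP hS ht hsz
      refine ⟨id, R, ?_, ?_, ?_⟩
      · rw [decT_self]; exact hP
      · rw [decT_self, pow_zero, mul_one]; exact hS
      · rw [decT_self]; exact Rs.refl
  | succ δ ih =>
      intro lv hlv
      obtain ⟨t1, g1, n1, h1⟩ := abl_step col J lv d (fun e he hlo hm => hnr e he hlo lv d hm)
      obtain ⟨t2, g2, n2, h2⟩ := ih (lv + 1) (by omega)
      refine ⟨t1 + t2, g1 + g2, max n1 n2, ?_⟩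
      intro Γ hΓ hcol hJ hn hJL E hRg i0 ee τ YY R hP hS ht hsz
      have hn0 : 1 ≤ Γ.n := by have := hΓ.hn16; omega
      have hN1 : 1 ≤ Γ.N := by
        have h5 : 1 ≤ Γ.n ^ (g1 + g2) := Nat.one_le_pow _ _ hn0
        exact h5.trans hRg.pw
      obtain ⟨ρ1, R1, hP1, hS1, hρ1⟩ := h1 Γ hΓ hcol hJ (by omega) hJL Γ.N E
        (hRg.mono hn0 (by omega)) i0 lv1 ee τ YY R (by omega) hP hS
        (fun i => by have := ht i; omega) hsz
      obtain ⟨ρ2, R2, hP2, hS2, hρ2⟩ := h2 Γ hΓ hcol hJ (by omega) hJL (E * Γ.n ^ g1)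
        (hRg.mul hn0 le_rfl) i0 _ _ _ _ hP1 hS1 (by
          intro i
          rw [decT_zero]
          have := ht i; omega) (by
          intro i hi h hh
          exact (Nat.pow_le_pow_right hN1 (decT_le _ _ _ _)).trans (hsz i hi h hh))
      rw [decT_decT] at hP2 hS2 hρ2
      refine ⟨fun z => ρ1 (ρ2 z), R2, hP2, ?_, Rs.trans hρ1 hρ2⟩
      rw [mul_assoc, ← pow_add] at hS2
      exact hS2

theorem names_bound {i0 : ℕ} {ee : ℕ → ℕ → ℕ} (hN : 1 ≤ Γ.N) :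
    (names (Finset.Icc (i0 + 1) Γ.J) Γ.k (shp Γ.N ee)).card ≤
      Γ.J * Γ.N ^ (∑ i' ∈ Finset.Ioc i0 Γ.J, ∑ h ∈ Finset.range (Γ.k i'), ee i' h) :=
  card_names_shp hN (fun _ _ => le_rfl)

/-- the numbers for the extraction lemma -/
theorem nm_ext {kk M' cc : ℕ} (hNm : Nm Γ.J kk M' Γ.ν Γ.n Γ.N cc) {C : ℕ} {ee : ℕ → ℕ → ℕ}
    (he : EE Γ C ee) (hC : 3 ≤ C) (hkk : ∀ i ≤ Γ.J, Γ.k i ≤ kk) (i : ℕ) (hi : i ≤ Γ.J) :
    2 * ((Γ.n ^ (2 ^ M') + 1) * (Γ.n ^ (2 ^ M') + 2) * (4 * Γ.n ^ (2 ^ M') * Γ.N ^ 2 + 1)) ≤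
      shp Γ.N ee i 0 ∧
    ∀ h, h + 1 < Γ.k i →
      (Γ.n ^ (2 ^ M') + 1) * (Γ.n ^ (2 ^ M') + 2) *
        (4 * Γ.n ^ (2 ^ M') * (shp Γ.N ee i h) ^ 2 + 1) ^ (h + 2) < shp Γ.N ee i (h + 1) := by
  have hN1 : 1 ≤ Γ.N := by have := hNm.c; omega
  constructor
  · refine hNm.d.trans ?_
    apply Nat.pow_le_pow_right hN1
    have := he.bud i
    omega
  · intro h hh
    have h5 := hkk i hi
    exact hNm.e (g := h) (e := ee i h) (by omega) rfl (he.gr i hi h hh) (by omega)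

/-- processing a high column -/
theorem proc_main (col : ℕ → Col) (J lv d kk : ℕ) (hd : 2 ^ (lv + 1) + 1 ≤ d)
    (hnr : ∀ e < J, (col e).lo = true → ∀ lv d, (col e).m ≤ lv → NR col e lv d) :
    ∃ t g n1 : ℕ, ∀ (Γ : Ctx), Γ.OK → Γ.col = col → Γ.J = J → n1 ≤ Γ.n → Γ.JL →
    ∀ (E M' cc : ℕ), Rg Γ Γ.N E g → Nm Γ.J kk M' Γ.ν Γ.n Γ.N cc → (∀ i ≤ Γ.J, Γ.k i ≤ kk) →
    ∀ (i0 : ℕ) (ee : ℕ → ℕ → ℕ) (τ : ℕ → Str → Option (DT Str Bool)) (YY : Γ.W → Lang)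
      (R : ℕ → Var → DT Str (Option (Fin Γ.N))) (C : ℕ),
    Inv Γ i0 lv (Γ.n ^ d) (shp Γ.N ee) τ YY R → St Γ i0 lv E (shp Γ.N ee) τ YY →
    i0 < Γ.J → (Γ.col i0).lo = false → (Γ.col i0).m ≤ lv → JustH Γ.q (Γ.col i0) →
    (Γ.col i0).bM + d + 3 ≤ 2 ^ M' → EE Γ (t + C) ee →
    ∃ (YY' : Γ.W → Lang)
      (R' : ℕ → Var → DT Str (Option (Fin Γ.N))),
      Inv Γ (i0 + 1) lv (Γ.n ^ d) (shp Γ.N (decT t ee)) τ YY' R' ∧
      St Γ (i0 + 1) lv (Γ.n ^ g) (shp Γ.N (decT t ee)) τ YY' := by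
  obtain ⟨t1, g1, n1, h1⟩ := shallow_step J lv d kk hd
  obtain ⟨t2, g2, n2, h2⟩ := abl_iter col J d lv hnr lv 0 (by omega)
  refine ⟨t1 + 4 + t2, g1 + g2, max n1 n2, ?_⟩
  intro Γ hΓ hcol hJ hn hJL E M' cc hRg hNm hkk i0 ee τ YY R C hI hS hi0 hlo hm hJust hM' hee
  have hn16 := hΓ.hn16
  have hn0 : 1 ≤ Γ.n := by omega
  have hN1 : 1 ≤ Γ.N := by
    have h5 : 1 ≤ Γ.n ^ (g1 + g2) := Nat.one_le_pow _ _ hn0
    exact h5.trans hRg.pw
  have hb0 : ∀ i, t1 + 4 + t2 + C ≤ ee i 0 := fun i => le_trans (Nat.le_add_right _ _) (hee.bud i)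
  obtain ⟨ρ1, R1, hP1, hρ1, hC1⟩ := h1 Γ hΓ hJ (by omega) Γ.N E (hRg.mono hn0 (by omega)) i0
    (fun i hi => hkk i (Finset.mem_Icc.1 hi).2) ee τ YY R hI.pre hS hi0 hm
    (fun i => by have := hb0 i; omega)
    (fun i hi h hh => hee.sz i (Finset.mem_Icc.1 hi).2 h hh)
  have hI1 := hI.rs hρ1 hP1
  have he1 : EE Γ (4 + (t2 + C)) (decT t1 ee) := by
    apply EE.dec _ hN1
    exact hee.mono (by omega)
  set T := Γ.n ^ (2 ^ M') with hT
  have f1 : Γ.n ^ (Γ.col i0).bM * Γ.n ^ d ≤ T := by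
    rw [← pow_add]
    exact Nat.pow_le_pow_right hn0 (by omega)
  have f2 : Γ.n ^ (Γ.col i0).bM * Γ.n ^ 3 ≤ T := by
    rw [← pow_add]
    exact Nat.pow_le_pow_right hn0 (by omega)
  have hx := nm_ext hNm he1 (by omega) hkk i0 hi0.le
  obtain ⟨b, x0, Good, b1, b2, b3, b4, b5⟩ := hI1.leaves hΓ hi0 hlo hJust hN1 hC1 T Γ.n f1
    (fun h hh => he1.sz i0 hi0.le h hh)
    (small_sum hNm.hn (hkk i0 hi0.le) (Nat.one_le_pow _ _ (by omega)) f2) hx.1 hx.2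
  have hshp : thinM (Γ.N ^ 4) (shp Γ.N (decT t1 ee)) = shp Γ.N (decT (t1 + 4) ee) := by
    rw [thinM_shp2 hN1 (fun i => by rw [decT_zero]; have := hb0 i; omega), decT_decT]
  have he2 : EE Γ (t2 + C) (decT (t1 + 4) ee) := by
    apply EE.dec _ hN1
    exact hee.mono (by omega)
  obtain ⟨ρ2, R2, hI2⟩ := hI1.connect hΓ hi0 hlo hm hN1 hNm.hN hC1 b x0 Good b1 b2 b3 b5
    ((Γ.N + 1) * T) (Γ.N ^ 4) (Nat.mul_le_mul_left _ f1) hNm.G (by
      rw [hshp]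
      have h5 := names_bound (Γ := Γ) (i0 := i0) (ee := decT (t1 + 4) ee) hN1
      set W := ∑ i' ∈ Finset.Ioc i0 Γ.J, ∑ h ∈ Finset.range (Γ.k i'), decT (t1 + 4) ee i' h
        with hW
      set cd := (names (Finset.Icc (i0 + 1) Γ.J) Γ.k (shp Γ.N (decT (t1 + 4) ee))).card
      have h6 : 2 * (2 * (2 * ((Γ.N + 1) * T) + 1) * (cd * (Γ.ν + 1))) ≤
          shp Γ.N (decT t1 ee) i0 0 := by
        calc 2 * (2 * (2 * ((Γ.N + 1) * T) + 1) * (cd * (Γ.ν + 1)))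
            ≤ 2 * (2 * (2 * ((Γ.N + 1) * T) + 1) * (Γ.J * Γ.N ^ W * (Γ.ν + 1))) :=
              Nat.mul_le_mul_left _ (Nat.mul_le_mul_left _ (Nat.mul_le_mul_right _ h5))
          _ = 4 * (2 * ((Γ.N + 1) * T) + 1) * (Γ.J * (Γ.ν + 1)) * Γ.N ^ W := by ring
          _ ≤ Γ.N ^ 3 * Γ.N ^ W := Nat.mul_le_mul_right _ hNm.f
          _ = Γ.N ^ (3 + W) := by rw [pow_add]
          _ ≤ Γ.N ^ (decT t1 ee i0 0) := by
              apply Nat.pow_le_pow_right hN1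
              have h7 := he2.bud i0
              have h8 := hb0 i0
              rw [decT_zero] at h7 ⊢
              omega
      omega)
  rw [hshp] at hI2
  obtain ⟨ρ3, R3, hP3, hS3, hρ3⟩ := h2 Γ hΓ hcol hJ (by omega) hJL 1 (by
      have h5 := hRg.mono (g' := g2) hn0 (by omega)
      refine ⟨h5.pw, h5.le, le_rfl, le_trans ?_ h5.gap⟩
      exact Nat.mul_le_mul_right _ hRg.pos) (i0 + 1) _ _ _ _ hI2.pre (hI2.st_zero hΓ)
    (by
      intro i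
      have := he2.bud i
      omega)
    (fun i hi h hh => he2.sz i (Finset.mem_Icc.1 hi).2 h hh)
  have hI3 := hI2.rs hρ3 hP3
  rw [decT_decT] at hI3 hS3
  refine ⟨_, R3, hI3, ?_⟩
  refine ⟨fun v => (hS3.fr v).mono ?_, fun i hi hlo y hy => (hS3.low i hi hlo y hy).mono ?_⟩
  · rw [one_mul]; exact Nat.pow_le_pow_right hn0 (by omega)
  · rw [one_mul]; exact Nat.pow_le_pow_right hn0 (by omega)

/-- The run: no family of worlds of the start exists. -/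
theorem run2 (col : ℕ → Col) (J kk mJ bM : ℕ) (hmJ : ∀ i < J, (col i).m ≤ mJ)
    (hgd : ∀ i < J, Gd (col i)) (hbM : bM < 2 ^ mJ)
    (hnr : ∀ e < J, (col e).lo = true → ∀ lv d, (col e).m ≤ lv → NR col e lv d) :
    ∃ C0 M' n1 d : ℕ, ∀ (Γ : Ctx), Γ.OK → Γ.col = col → Γ.J = J → n1 ≤ Γ.n → Γ.JL →
    (∀ i < Γ.J, (Γ.col i).lo = false → JustH Γ.q (Γ.col i)) →
    ∀ cc : ℕ, Nm Γ.J kk M' Γ.ν Γ.n Γ.N cc → (∀ i ≤ Γ.J, Γ.k i ≤ kk) →
    ∀ (p : PIx) (l : List NIx), Γ.k Γ.J = l.length →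
    (∀ n : ℕ, 2 ≤ n → ∀ x : Str, x.length ≤ n →
      IsC (SL (n ^ bM)) (n ^ bM) (n ^ bM) l.length (fun O => sEval p l O x)) →
    (∀ X, Mem Γ.q X → ∀ s, sEval p l X s = QQ (l.length + 1) X s) →
    ∀ (ee : ℕ → ℕ → ℕ) (YY : Γ.W → Lang) (R : ℕ → Var → DT Str (Option (Fin Γ.N))),
    Inv Γ 0 0 (Γ.n ^ d) (shp Γ.N ee) (fun _ _ => none) YY R → EE Γ C0 ee → False := by
  set d := 2 ^ (mJ + 1) + 1 with hd
  have hdl : ∀ lv, lv ≤ mJ → 2 ^ (lv + 1) + 1 ≤ d := by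
    intro lv hlv
    have : 2 ^ (lv + 1) ≤ 2 ^ (mJ + 1) := Nat.pow_le_pow_right (by norm_num) (by omega)
    omega
  choose tA gA nA hA using fun lv => imp_ex3 (fun hlv : lv ≤ mJ =>
    lvl_main col J lv d kk (hdl lv hlv) hnr)
  choose tB gB nB hB using fun lv => imp_ex3 (fun hlv : lv ≤ mJ =>
    proc_main col J lv d kk (hdl lv hlv) hnr)
  set Bt := ∑ lv ∈ Finset.range (mJ + 1), (tA lv + tB lv) with hBt
  set Nn := ∑ lv ∈ Finset.range (mJ + 1), (nA lv + nB lv) with hNn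
  set X : ℕ → ℕ := fun lv => ∑ l ∈ Finset.range lv, gA l + ∑ l ∈ Finset.range (lv + 1), gB l
    with hXd
  set Gg := X mJ + ∑ lv ∈ Finset.range (mJ + 1), (gA lv + gB lv) with hGg
  have hBtl : ∀ lv, lv ≤ mJ → tA lv + tB lv ≤ Bt := fun lv hlv =>
    Finset.single_le_sum (f := fun lv => tA lv + tB lv) (fun _ _ => Nat.zero_le _)
      (Finset.mem_range.2 (by omega))
  have hNnl : ∀ lv, lv ≤ mJ → nA lv + nB lv ≤ Nn := fun lv hlv =>
    Finset.single_le_sum (f := fun lv => nA lv + nB lv) (fun _ _ => Nat.zero_le _)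
      (Finset.mem_range.2 (by omega))
  have hXm : ∀ lv lv', lv ≤ lv' → X lv ≤ X lv' := by
    intro lv lv' h
    apply Nat.add_le_add
    · exact Finset.sum_le_sum_of_subset (by
        intro a ha; rw [Finset.mem_range] at ha ⊢; omega)
    · exact Finset.sum_le_sum_of_subset (by
        intro a ha; rw [Finset.mem_range] at ha ⊢; omega)
  have hXA : ∀ lv, X lv + gA lv ≤ X (lv + 1) := by
    intro lv
    simp only [hXd]
    rw [Finset.sum_range_succ (fun l => gA l) lv,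
      Finset.sum_range_succ (fun l => gB l) (lv + 1)]
    omega
  have hXB : ∀ lv, gB lv ≤ X lv := by
    intro lv
    simp only [hXd]
    rw [Finset.sum_range_succ (fun l => gB l) lv]
    omega
  have hGl : ∀ lv, lv ≤ mJ → X lv + (gA lv + gB lv) ≤ Gg := by
    intro lv hlv
    have h1 := hXm lv mJ hlv
    have h2 : gA lv + gB lv ≤ ∑ lv ∈ Finset.range (mJ + 1), (gA lv + gB lv) :=
      Finset.single_le_sum (f := fun lv => gA lv + gB lv) (fun _ _ => Nat.zero_le _)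
        (Finset.mem_range.2 (by omega))
    omega
  set M' := Gg + bM + 2 * d + 3 with hM'
  have hM2 : M' < 2 ^ M' := Nat.lt_two_pow_self
  refine ⟨3 + Bt * (J + mJ + 1), M', Nn, d, ?_⟩
  intro Γ hΓ hcol hJ hn hJL hJust cc hNm hkk p l hkJ hM hX ee YY R hI hEE
  have hn16 := hΓ.hn16
  have hn0 : 1 ≤ Γ.n := by omega
  have hN1 : 1 ≤ Γ.N := by have := hNm.c; omega
  have hpN : ∀ e, e ≤ M' → Γ.n ^ e ≤ Γ.N := by
    intro e he
    have h1 : Γ.n ^ e ≤ Γ.n ^ (2 ^ M') := Nat.pow_le_pow_right hn0 (by omega)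
    have := hNm.c
    omega
  -- the main induction
  suffices H : ∀ (μ i0 lv E : ℕ) (ee : ℕ → ℕ → ℕ) (τ : ℕ → Str → Option (DT Str Bool))
      (YY : Γ.W → Lang) (R : ℕ → Var → DT Str (Option (Fin Γ.N))),
      Inv Γ i0 lv (Γ.n ^ d) (shp Γ.N ee) τ YY R → St Γ i0 lv E (shp Γ.N ee) τ YY →
      1 ≤ E → E ≤ Γ.n ^ (X lv) → μ = (Γ.J - i0) + (mJ - lv) → lv ≤ mJ →
      EE Γ (3 + Bt * (μ + 1)) ee → False by
    refine H (J + mJ) 0 0 1 ee _ YY R hI (hI.st_zero hΓ) le_rfl (Nat.one_le_pow _ _ hn0) (by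
      omega) (Nat.zero_le _) hEE
  intro μ
  induction μ using Nat.strong_induction_on with
  | _ μ ih =>
    intro i0 lv E ee τ YY R hI hS hE1 hE2 hμ hlv hEE
    have hRg : ∀ g, g ≤ gA lv + gB lv → Rg Γ Γ.N E g := by
      intro g hg
      have h1 := hGl lv hlv
      refine ⟨hpN g (by omega), le_rfl, hE1, ?_⟩
      calc E * Γ.n ^ g ≤ Γ.n ^ (X lv) * Γ.n ^ g := Nat.mul_le_mul_right _ hE2
        _ = Γ.n ^ (X lv + g) := (pow_add _ _ _).symm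
        _ ≤ Γ.N := hpN _ (by omega)
    have hbt := hBtl lv hlv
    have hnn := hNnl lv hlv
    have hbud : 3 + Bt * (μ + 1) = Bt + (3 + Bt * μ) := by ring
    by_cases hA1 : i0 < Γ.J ∧ (Γ.col i0).m ≤ lv
    · obtain ⟨hi0, hm⟩ := hA1
      have hJi : i0 < J := by omega
      obtain ⟨μ', rfl⟩ : ∃ μ', μ = μ' + 1 := ⟨μ - 1, by omega⟩
      cases hlo : (Γ.col i0).lo with
      | true =>
          obtain ⟨ρ, hI1, hS1⟩ := hI.skip hΓ hN1 hi0 hlo hm hS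
          refine ih μ' (Nat.lt_succ_self _) (i0 + 1) lv E ee τ _ R hI1 hS1 hE1 hE2 (by omega)
            hlv (hEE.mono ?_)
          have : Bt * (μ' + 1) ≤ Bt * (μ' + 1 + 1) := Nat.mul_le_mul_left _ (by omega)
          omega
      | false =>
          have hbMd : (Γ.col i0).bM + d + 3 ≤ 2 ^ M' := by
            have h1 := (hgd i0 hJi).hAM
            have h2 : 2 ^ (col i0).m ≤ 2 ^ mJ :=
              Nat.pow_le_pow_right (by norm_num) (hmJ i0 hJi)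
            have h3 : 2 ^ (mJ + 1) = 2 * 2 ^ mJ := by rw [pow_succ]; ring
            rw [hcol]
            omega
          obtain ⟨YY', R', hI1, hS1⟩ := hB lv hlv Γ hΓ hcol hJ (by omega) hJL E M' cc
            (hRg _ (by omega)) hNm hkk i0 ee τ YY R (3 + Bt * (μ' + 1)) hI hS hi0 hlo hm
            (hJust i0 hi0 hlo) hbMd (hEE.mono (by rw [hbud]; omega))
          refine ih μ' (Nat.lt_succ_self _) (i0 + 1) lv _ _ τ _ R' hI1 hS1
            (Nat.one_le_pow _ _ hn0) (Nat.pow_le_pow_right hn0 (hXB lv)) (by omega) hlv ?_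
          exact (hEE.mono (by rw [hbud]; omega)).dec hN1
    · by_cases hB1 : lv < mJ
      · obtain ⟨μ', rfl⟩ : ∃ μ', μ = μ' + 1 := ⟨μ - 1, by omega⟩
        obtain ⟨τ', YY', R', hI1, hS1⟩ := hA lv hlv Γ hΓ hcol hJ (by omega) hJL E
          (hRg _ (by omega)) i0 (fun i hi => hkk i (Finset.mem_Icc.1 hi).2) ee τ YY R hI hS (by
            intro i hi hii
            push Not at hA1
            have h1 := hA1 (by omega)
            have h2 := hΓ.hcm i0 i hii hi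
            omega) (fun i => by
            have h1 := hEE.bud i
            rw [hbud] at h1
            omega) (fun i hi h hh => hEE.sz i (Finset.mem_Icc.1 hi).2 h hh)
        refine ih μ' (Nat.lt_succ_self _) i0 (lv + 1) _ _ τ' _ R' hI1 hS1 ?_ ?_ (by omega)
          (by omega) ?_
        · exact Nat.mul_pos (by omega) (Nat.one_le_pow _ _ hn0)
        · calc E * Γ.n ^ (gA lv) ≤ Γ.n ^ (X lv) * Γ.n ^ (gA lv) := Nat.mul_le_mul_right _ hE2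
            _ = Γ.n ^ (X lv + gA lv) := (pow_add _ _ _).symm
            _ ≤ Γ.n ^ (X (lv + 1)) := Nat.pow_le_pow_right hn0 (hXA lv)
        · exact (hEE.mono (by rw [hbud]; omega)).dec hN1
      · -- the end
        have hlv' : lv = mJ := by omega
        have hi0 : i0 = Γ.J := by
          push Not at hA1
          have h5 := hI.pre.le
          by_contra hne
          have h6 := hA1 (by omega)
          have h7 := hmJ i0 (by omega)
          rw [hcol] at h6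
          omega
        subst hi0
        subst hlv'
        set T := Γ.n ^ (2 ^ M') with hT
        have f1 : Γ.n ^ bM * Γ.n ^ d ≤ T := by
          rw [← pow_add]
          exact Nat.pow_le_pow_right hn0 (by omega)
        have f2 : Γ.n ^ bM * Γ.n ^ 3 ≤ T := by
          rw [← pow_add]
          exact Nat.pow_le_pow_right hn0 (by omega)
        have hx := nm_ext hNm hEE (Nat.le_add_right _ _) hkk Γ.J le_rfl
        have hin := hΓ.hJ
        refine fin2 hΓ hI.pre hS bM (fun O => sEval p l O (rs Γ.J Γ.n)) ?_ ?_ ?_ ?_ T Γ.n f1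
          (fun h hh => hEE.sz Γ.J le_rfl h hh)
          (small_sum hNm.hn (hkk _ le_rfl) (Nat.one_le_pow _ _ (by omega)) f2) hx.1 hx.2
        · rw [hkJ]
          exact hM Γ.n (by omega) (rs Γ.J Γ.n) (by rw [rs_length hin])
        · intro x
          have h6 := hX (Γ.F τ YY x) (Pre.mem hΓ hI.pre x) (rs Γ.J Γ.n)
          have h7 := hI.tree Γ.J (Finset.mem_Icc.2 ⟨le_rfl, le_rfl⟩) x
            (Γ.F τ YY x) (fun v hv => F_false τ YY x v hv)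
          rw [← hkJ] at h6
          exact h6.trans h7
        · exact Nat.pow_lt_pow_right (by omega) hbM
        · calc Γ.n ^ bM * E ≤ Γ.n ^ bM * Γ.n ^ (X lv) := Nat.mul_le_mul_left _ hE2
            _ = Γ.n ^ (bM + X lv) := (pow_add _ _ _).symm
            _ ≤ Γ.n ^ (2 ^ M') := Nat.pow_le_pow_right hn0 (by
                have := hGl lv le_rfl
                omega)
            _ < Γ.N := hNm.c

end Pool.Agent.Lib.Pa76659B
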