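import Pool.Agent.Lib.Pa76659B.Defs

/-!
MODULE StLem: steady bits and nondeterministic machines.

`nEval_pc`: take the accepting witness `y'` of `nEval_true`; `T` = union over the strings asked by
`vTree i y y'` at `g x` (`Hier.queries`, at most `w` of them, each shorter than `V`) of the paths of
their trees at `x` (`MT.path_length`, `MT.eval_path`), then `Hier.queries_eval`.
`nEval_st`: witness `y'` accepted at `update x v none`; each value `c` outside the exceptional sets
of the (at most `w`) asked strings leaves all answers unchanged, so the same witness is accepted.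
`Steady.lit`: a literal on `v` changes only for the value `y` of the literal.
-/

set_option maxHeartbeats 4000000

namespace Pool.Agent.Lib.Pa76659B

open Pool.Agent.Lib.Pa76659 Pool.Agent.Lib.Pa76659H Pool.Agent.Lib.Pa76659.Hier

variable {N : ℕ}

theorem Steady.mono {P : Var → Prop} {E E' : ℕ} {g : (Var → Option (Fin N)) → Bool}
    (h : Steady P E g) (hE : E ≤ E') : Steady P E' g := fun x v hv => (h x v hv).trans hE

theorem Steady.const {P : Var → Prop} {E : ℕ} {g : (Var → Option (Fin N)) → Bool} {b : Bool}
    (h : ∀ x, g x = b) : Steady P E g := by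
  intro x v _
  rw [Finset.filter_eq_empty_iff.2 (fun y _ hy => hy (by rw [h, h]))]
  simp

theorem Steady.lit {P P' : Var → Prop} {g : (Var → Option (Fin N)) → Bool} (h : LitF P' g) :
    Steady P 1 g := by
  rcases h with ⟨b, hb⟩ | ⟨v0, _, y0, b, hg⟩
  · exact Steady.const hb
  · intro x v _
    have hsub : (Finset.univ.filter (fun y : Fin N =>
        g (Function.update x v (some y)) ≠ g (Function.update x v none))) ⊆ {y0} := by
      intro y hy
      rw [Finset.mem_filter] at hy
      rw [Finset.mem_singleton]
      by_contra hne
      apply hy.2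
      rw [hg, hg]
      congr 1
      apply decide_eq_decide.2
      by_cases hv : v0 = v
      · subst hv
        rw [Function.update_self, Function.update_self]
        constructor
        · intro h1
          exact absurd (Option.some.inj h1) hne
        · intro h1
          exact absurd h1 (by simp)
      · rw [Function.update_of_ne hv, Function.update_of_ne hv]
    calc _ ≤ ({y0} : Finset (Fin N)).card := Finset.card_le_card hsub
      _ = 1 := Finset.card_singleton _

/-- queries of a tree asking short strings are short -/
theorem queries_lt {V : ℕ} (x : Lang) : ∀ D : DT Str Bool, D.QIn {v | v.length < V} →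
    ∀ u ∈ queries x D, u.length < V := by
  intro D hD
  induction D with
  | leaf b => intro u hu; simp [queries] at hu
  | node v f t ihf iht =>
      obtain ⟨h1, h2, h3⟩ := hD
      intro u hu
      simp only [queries, List.mem_cons] at hu
      rcases hu with rfl | hu
      · exact h1
      · split_ifs at hu
        · exact iht h3 u hu
        · exact ihf h2 u hu

/-- decision trees over steady bits: all but `t * E` values keep all answers -/
theorem dt_st {P : Var → Prop} {E t V : ℕ} (g : (Var → Option (Fin N)) → Lang)
    (hst : ∀ v : Str, v.length < V → Steady P E (fun x => g x v)) (D : DT Str Bool)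
    (hD : D.QIn {v | v.length < V}) (hd : D.depth ≤ t) (x : Var → Option (Fin N)) (v : Var)
    (hv : P v) :
    (Finset.univ.filter (fun c : Fin N => D.eval (g (Function.update x v (some c))) ≠
      D.eval (g (Function.update x v none)))).card ≤ t * E := by
  classical
  set qs := queries (g (Function.update x v none)) D with hqs
  have hlen : qs.length ≤ t := (queries_length _ D).trans hd
  have hsub : (Finset.univ.filter (fun c : Fin N => D.eval (g (Function.update x v (some c))) ≠
      D.eval (g (Function.update x v none)))) ⊆
      qs.toFinset.biUnion (fun u => Finset.univ.filter (fun c : Fin N =>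
        g (Function.update x v (some c)) u ≠ g (Function.update x v none) u)) := by
    intro c hc
    rw [Finset.mem_filter] at hc
    by_contra hcon
    apply hc.2
    apply queries_eval
    intro u hu
    by_contra hne
    apply hcon
    rw [Finset.mem_biUnion]
    exact ⟨u, List.mem_toFinset.2 hu, Finset.mem_filter.2 ⟨Finset.mem_univ _, hne⟩⟩
  refine (Finset.card_le_card hsub).trans ?_
  refine (Finset.card_biUnion_le_card_mul _ _ E ?_).trans ?_
  · intro u hu
    exact hst u (queries_lt _ D hD u (List.mem_toFinset.1 hu)) x v hv
  · exact Nat.mul_le_mul_right _ ((List.toFinset_card_le _).trans hlen)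

theorem nEval_pc {V w D : ℕ} (g : (Var → Option (Fin N)) → Lang)
    (hmt : ∀ v : Str, v.length < V → ∃ T : MT Var (Option (Fin N)) Bool, T.dle D ∧
      ∀ x, g x v = T.eval x) (i : NIx) {b : ℕ} (hb : NB i b) (y : Str)
    (hy : (y.length + 2) ^ b < V) (hw : (y.length + 2) ^ b ≤ w) (x : Var → Option (Fin N))
    (hx : nEval i (g x) y = true) :
    ∃ T : Finset Var, T.card ≤ w * D ∧
      ∀ x', (∀ v ∈ T, x' v = x v) → nEval i (g x') y = true := by
  classical
  haveI : Nonempty (MT Var (Option (Fin N)) Bool) := ⟨MT.leaf true⟩
  choose! TT hTT using hmt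
  obtain ⟨y', hy', h1⟩ := (nEval_true i (g x) y).1 hx
  have hQ : (vTree i y y').QIn {v | v.length < V} :=
    (vTree_qin i hb y y' hy').mono fun u hu => lt_of_le_of_lt hu hy
  have hlen : (queries (g x) (vTree i y y')).length ≤ w :=
    (queries_length _ _).trans ((vTree_depth i hb y y').trans hw)
  refine ⟨(queries (g x) (vTree i y y')).toFinset.biUnion (fun u => ((TT u).path x).toFinset),
    ?_, ?_⟩
  · refine (Finset.card_biUnion_le_card_mul _ _ D ?_).trans ?_
    · intro u hu
      exact (List.toFinset_card_le _).trans (MT.path_length x
        (hTT u (queries_lt _ _ hQ u (List.mem_toFinset.1 hu))).1)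
    · exact Nat.mul_le_mul_right _ ((List.toFinset_card_le _).trans hlen)
  · intro x' hx'
    refine (nEval_true i (g x') y).2 ⟨y', hy', ?_⟩
    rw [queries_eval (g x) (g x') (vTree i y y'), h1]
    intro u hu
    have h2 := (hTT u (queries_lt _ _ hQ u hu)).2
    rw [h2, h2]
    apply MT.eval_path
    intro v hv
    exact hx' v (Finset.mem_biUnion.2 ⟨u, List.mem_toFinset.2 hu, List.mem_toFinset.2 hv⟩)

theorem nEval_st {P : Var → Prop} {E V w : ℕ} (g : (Var → Option (Fin N)) → Lang)
    (hst : ∀ v : Str, v.length < V → Steady P E (fun x => g x v)) (i : NIx) {b : ℕ}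
    (hb : NB i b) (y : Str) (hy : (y.length + 2) ^ b < V) (hw : (y.length + 2) ^ b ≤ w)
    (x : Var → Option (Fin N)) (v : Var) (hv : P v)
    (hx : nEval i (g (Function.update x v none)) y = true) :
    (Finset.univ.filter (fun c : Fin N =>
      nEval i (g (Function.update x v (some c))) y = false)).card ≤ w * E := by
  obtain ⟨y', hy', h1⟩ := (nEval_true i _ y).1 hx
  have hQ : (vTree i y y').QIn {v | v.length < V} :=
    (vTree_qin i hb y y' hy').mono fun u hu => lt_of_le_of_lt hu hy
  refine (Finset.card_le_card ?_).trans (dt_st (t := w) g hst (vTree i y y') hQ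
    ((vTree_depth i hb y y').trans hw) x v hv)
  intro c hc
  rw [Finset.mem_filter] at hc ⊢
  refine ⟨Finset.mem_univ _, fun h2 => ?_⟩
  rw [h1] at h2
  have h3 := (nEval_true i (g (Function.update x v (some c))) y).2 ⟨y', hy', h2⟩
  rw [hc.2] at h3
  exact absurd h3 (by simp)

end Pool.Agent.Lib.Pa76659B
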