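import Pool.Agent.Lib.Pa76659H.Sw

/-!
MODULE Sw2: multi-valued switching lemma for functions that have small point certificates and keep
the value `true` for at least one regular value of each coordinate.

Model: Pa76659H/Sw.lean (same counting, same MT). Differences: `Cert` is replaced by `hpc`, `hr1`.

PROOF. live = {κ = 0}. For a partial assignment `π : ι → Option α` (domain inside live) a TERM is a
pair `(T, b)`, `T : Finset ι`, `T.card ≤ w`, `b : ι → α` with
 (a) `∀ y, (∀ i ∈ T, y i = b i) → f y = true`,
 (b) `∀ i ∈ T, π i = none → b i ∈ Set.range r`,  (c) `∀ i ∈ T, ∀ a, π i = some a → b i = a`.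
A term is KILLED at `(κ, ξ)` if for some `i ∈ T`, `κ i ≠ 0` and `b i ≠ r (ξ i)`. If all terms are killed then
`f` is false on all consistent points (`claim1`), if a term is alive and has no free live coordinate then
`f` is true on them. Canonical tree: ask all free live coordinates of the first term alive. Encoding and
decoding as in Pa76659H/Sw.lean.
-/

set_option maxHeartbeats 4000000

namespace Pool.Agent.Lib.Pa76659B

open Pool.Agent.Lib.Pa76659 Pool.Agent.Lib.Pa76659H

namespace Sw2Aux

open Classical Sw

variable {ι α : Type} {N R : ℕ} (r : Fin N → α)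

/-- a term -/
abbrev Tm (ι α : Type) := Finset ι × (ι → α)

/-- `t` is a term of `f` compatible with `π` -/
def IsTm (w : ℕ) (f : (ι → α) → Bool) (π : ι → Option α) (t : Tm ι α) : Prop :=
  t.1.card ≤ w ∧ (∀ y, (∀ i ∈ t.1, y i = t.2 i) → f y = true) ∧
    (∀ i ∈ t.1, π i = none → t.2 i ∈ Set.range r) ∧ ∀ i ∈ t.1, ∀ a, π i = some a → t.2 i = a

/-- `t` is killed -/
def kil (κ : ι → Fin (R + 1)) (ξ : ι → Fin N) (t : Tm ι α) : Prop :=
  ∃ i ∈ t.1, κ i ≠ 0 ∧ t.2 i ≠ r (ξ i)

/-- the consistent points -/
def Cs (κ : ι → Fin (R + 1)) (ξ : ι → Fin N) (π : ι → Option α) (x : ι → α) : Prop :=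
  (∀ i, κ i ≠ 0 → x i = r (ξ i)) ∧ ∀ i a, π i = some a → x i = a

/-- no decision tree of depth less than `s` computes `f` -/
def Hrd (f : (ι → α) → Bool) (κ : ι → Fin (R + 1)) (ξ : ι → Fin N) (π : ι → Option α)
    (s : ℕ) : Prop :=
  ¬ ∃ (D : MT ι α Bool) (d : ℕ), d < s ∧ D.dle d ∧ ∀ x, Cs r κ ξ π x → D.eval x = f x

/-- the first term alive -/
noncomputable def fst1 [Fintype ι] [Fintype α] (w : ℕ) (f : (ι → α) → Bool)
    (κ : ι → Fin (R + 1)) (ξ : ι → Fin N) (π : ι → Option α) : Option (Tm ι α) :=
  (Finset.univ : Finset (Tm ι α)).toList.find? (fun t => decide (IsTm r w f π t ∧ ¬ kil r κ ξ t))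

def ents (L : List ι) (S : List (Info α)) : List ι :=
  S.filterMap (fun i => L[i.1]?)

noncomputable def upd (L : List ι) (S : List (Info α)) (π : ι → Option α) : ι → Option α :=
  fun b => match S.find? (fun i => decide (L[i.1]? = some b)) with
    | some i => some i.2.1
    | none => π b

/-- the decoder -/
noncomputable def dc [Fintype ι] [Fintype α] (w : ℕ) (f : (ι → α) → Bool) :
    ℕ → (ι → Fin (R + 1)) → (ι → Fin N) → (ι → Option α) → List (Info α) → List ι
  | 0, _, _, _, _ => []
  | n + 1, κ, ξ, π, I =>
      if I = [] then []
      else match fst1 r w f κ ξ π with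
        | none => []
        | some t => ents t.1.toList (stageOf I).1 ++
            dc w f n (zero κ (ents t.1.toList (stageOf I).1)) ξ
              (upd t.1.toList (stageOf I).1 π) (stageOf I).2

theorem dc_nil [Fintype ι] [Fintype α] (w : ℕ) (f : (ι → α) → Bool) (n : ℕ)
    (κ : ι → Fin (R + 1)) (ξ : ι → Fin N) (π : ι → Option α) : dc r w f n κ ξ π [] = [] := by
  cases n <;> simp [dc]

theorem find_eq {β : Type} (p q : β → Bool) (hpq : ∀ x, q x = true → p x = true) {x : β}
    (hx : q x = true) : ∀ l : List β, l.find? p = some x → l.find? q = some x := by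
  intro l
  induction l with
  | nil => intro h; simp at h
  | cons y l ih =>
    intro h
    by_cases hy : p y = true
    · rw [List.find?_cons_of_pos hy] at h
      have h1 : y = x := by simpa using h
      subst h1
      exact List.find?_cons_of_pos hx
    · rw [List.find?_cons_of_neg hy] at h
      rw [List.find?_cons_of_neg (fun h1 => hy (hpq y h1))]
      exact ih h

/-- make the coordinates of a finite set regular -/
theorem regular (f : (ι → α) → Bool)
    (hr1 : ∀ x i, f x = true → ∃ c : Fin N, f (Function.update x i (r c)) = true)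
    (A : Finset ι) (x : ι → α) (hx : f x = true) :
    ∃ x', f x' = true ∧ (∀ i ∈ A, x' i ∈ Set.range r) ∧ ∀ i, i ∉ A → x' i = x i := by
  induction A using Finset.induction_on with
  | empty => exact ⟨x, hx, by simp, fun _ _ => rfl⟩
  | insert a A ha ih =>
    obtain ⟨x', h1, h2, h3⟩ := ih
    obtain ⟨c, hc⟩ := hr1 x' a h1
    refine ⟨Function.update x' a (r c), hc, ?_, ?_⟩
    · intro i hi
      by_cases h4 : i = a
      · subst h4
        rw [Function.update_self]
        exact ⟨c, rfl⟩
      · rw [Function.update_of_ne h4]
        rcases Finset.mem_insert.1 hi with h5 | h5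
        · exact absurd h5 h4
        · exact h2 i h5
    · intro i hi
      rw [Finset.mem_insert, not_or] at hi
      rw [Function.update_of_ne hi.1]
      exact h3 i hi.2

theorem claim1 [Fintype ι] (w : ℕ) (f : (ι → α) → Bool)
    (hpc : ∀ x, f x = true → ∃ T : Finset ι, T.card ≤ w ∧
      ∀ y, (∀ i ∈ T, y i = x i) → f y = true)
    (hr1 : ∀ x i, f x = true → ∃ c : Fin N, f (Function.update x i (r c)) = true)
    (κ : ι → Fin (R + 1)) (ξ : ι → Fin N) (π : ι → Option α) (x : ι → α) (hx : Cs r κ ξ π x)
    (hfx : f x = true) : ∃ t : Tm ι α, IsTm r w f π t ∧ ¬ kil r κ ξ t := by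
  obtain ⟨x', h1, h2, h3⟩ := regular r f hr1
    (Finset.univ.filter (fun i => κ i = 0 ∧ π i = none)) x hfx
  obtain ⟨T, hT1, hT2⟩ := hpc x' h1
  refine ⟨(T, x'), ⟨hT1, hT2, ?_, ?_⟩, ?_⟩
  · intro i _ hi
    by_cases hκ : κ i = 0
    · exact h2 i (by simp [hκ, hi])
    · show x' i ∈ Set.range r
      rw [h3 i (by simp [hκ]), hx.1 i hκ]
      exact ⟨_, rfl⟩
  · intro i _ a ha
    show x' i = a
    rw [h3 i (by simp [ha])]
    exact hx.2 i a ha
  · rintro ⟨i, _, hκ, hne⟩
    apply hne
    show x' i = r (ξ i)
    rw [h3 i (by simp [hκ]), hx.1 i hκ]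

theorem core2 [Fintype ι] [Fintype α] (w : ℕ) (f : (ι → α) → Bool)
    (hpc : ∀ x, f x = true → ∃ T : Finset ι, T.card ≤ w ∧
      ∀ y, (∀ i ∈ T, y i = x i) → f y = true)
    (hr1 : ∀ x i, f x = true → ∃ c : Fin N, f (Function.update x i (r c)) = true)
    (κ : ι → Fin (R + 1)) (ξ : ι → Fin N) : ∀ (n s : ℕ), s ≤ n → ∀ (π : ι → Option α),
    Hrd r f κ ξ π s →
    ∃ (I : List (Info α)) (mods : List ι) (ν : ι → Fin N), I.length = s ∧ (∀ i ∈ I, i.1 < w) ∧
      mods.length = s ∧ mods.Nodup ∧ ModOK κ π mods ∧
      ∀ (κ' : ι → Fin (R + 1)) (ξ' : ι → Fin N), IsMod κ κ' ξ ξ' mods ν →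
        dc r w f n κ' ξ' π I = mods := by
  intro n
  induction n with
  | zero =>
    intro s hs π _
    have hs0 : s = 0 := by omega
    subst hs0
    exact ⟨[], [], ξ, rfl, by simp, rfl, List.nodup_nil, by simp [ModOK], fun _ _ _ => rfl⟩
  | succ n ih =>
    intro s hsn π hH
    rcases Nat.eq_zero_or_pos s with hs | hs
    · subst hs
      exact ⟨[], [], ξ, rfl, by simp, rfl, List.nodup_nil, by simp [ModOK],
        fun _ _ _ => by simp [dc]⟩
    -- the first term alive
    obtain ⟨t, ht⟩ : ∃ t, fst1 r w f κ ξ π = some t := by
      by_contra hcon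
      push Not at hcon
      have hnone : fst1 r w f κ ξ π = none := Option.eq_none_iff_forall_ne_some.2 hcon
      apply hH
      refine ⟨MT.leaf false, 0, hs, trivial, fun x hx => ?_⟩
      simp only [MT.eval]
      by_contra hfx
      have hfx' : f x = true := by
        cases h : f x
        · exact absurd h.symm hfx
        · rfl
      obtain ⟨t, h1, h2⟩ := claim1 r w f hpc hr1 κ ξ π x hx hfx'
      unfold fst1 at hnone
      rw [List.find?_eq_none] at hnone
      exact hnone t (by simp) (by simp [h1, h2])
    have htT : IsTm r w f π t ∧ ¬ kil r κ ξ t := by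
      have := List.find?_some ht
      simpa using this
    obtain ⟨⟨hTw, hTa, hTb, hTc⟩, hnk⟩ := htT
    obtain ⟨L, hL⟩ : ∃ L, L = t.1.toList := ⟨_, rfl⟩
    have hLmem : ∀ i, i ∈ L ↔ i ∈ t.1 := fun i => by rw [hL, Finset.mem_toList]
    have hLw : L.length ≤ w := by rw [hL, Finset.length_toList]; exact hTw
    have hLn : L.Nodup := by rw [hL]; exact Finset.nodup_toList _
    set U := L.filter (fun i => decide (κ i = 0 ∧ π i = none)) with hU
    have hUmem : ∀ i, i ∈ U ↔ i ∈ t.1 ∧ κ i = 0 ∧ π i = none := by
      intro i
      simp [hU, hLmem]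
    have hUn : U.Nodup := hLn.filter _
    have hUok : ModOK κ π U := fun i hi => ((hUmem i).1 hi).2
    have hpos : ∀ i ∈ U, L.idxOf i < w ∧ L[L.idxOf i]? = some i := by
      intro i hi
      have h1 := (hLmem i).2 ((hUmem i).1 hi).1
      have h2 := List.idxOf_lt_length_of_mem h1
      exact ⟨lt_of_lt_of_le h2 hLw, by
        rw [List.getElem?_eq_getElem h2, List.getElem_idxOf]⟩
    have hU0 : U ≠ [] := by
      intro hU0
      apply hH
      refine ⟨MT.leaf true, 0, hs, trivial, fun x hx => ?_⟩
      simp only [MT.eval]
      symm
      apply hTa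
      intro i hi
      by_cases hκ : κ i = 0
      · cases hπ : π i with
        | none =>
            exfalso
            have : i ∈ U := (hUmem i).2 ⟨hi, hκ, hπ⟩
            rw [hU0] at this
            simp at this
        | some a => rw [hx.2 i a hπ, hTc i hi a hπ]
      · rw [hx.1 i hκ]
        by_contra hne
        exact hnk ⟨i, hi, hκ, fun h => hne h.symm⟩
    obtain ⟨i0, hi0⟩ := List.exists_mem_of_ne_nil U hU0
    obtain ⟨n0, hn0⟩ := hTb i0 ((hUmem i0).1 hi0).1 ((hUmem i0).1 hi0).2.2
    have hν : ∀ i : ι, ∃ m : Fin N, i ∈ U → r m = t.2 i := by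
      intro i
      by_cases hi : i ∈ U
      · obtain ⟨m, hm⟩ := hTb i ((hUmem i).1 hi).1 ((hUmem i).1 hi).2.2
        exact ⟨m, fun _ => hm⟩
      · exact ⟨n0, fun h => absurd h hi⟩
    choose νT hνT using hν
    -- the first term alive does not change
    have hfst : ∀ (mods : List ι) (ν : ι → Fin N), ModOK κ π mods →
        (∀ i ∈ t.1, i ∈ mods → r (ν i) = t.2 i) →
        ∀ (κ' : ι → Fin (R + 1)) (ξ' : ι → Fin N), IsMod κ κ' ξ ξ' mods ν →
        fst1 r w f κ' ξ' π = some t := by
      intro mods ν hm hv κ' ξ' h1
      unfold fst1 at ht ⊢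
      refine find_eq _ _ ?_ ?_ _ ht
      · intro t' ht'
        simp only [decide_eq_true_eq] at ht' ⊢
        refine ⟨ht'.1, fun hk => ht'.2 ?_⟩
        obtain ⟨i, hi, hκ, hne⟩ := hk
        have him : i ∉ mods := fun h => hκ (hm i h).1
        obtain ⟨h2, h3⟩ := h1.1 i him
        exact ⟨i, hi, by rw [h2]; exact hκ, by rw [h3 hκ]; exact hne⟩
      · simp only [decide_eq_true_eq]
        refine ⟨⟨hTw, hTa, hTb, hTc⟩, ?_⟩
        rintro ⟨i, hi, hκ, hne⟩
        by_cases him : i ∈ mods
        · apply hne
          rw [(h1.2 i him).2, hv i hi him]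
        · obtain ⟨h2, h3⟩ := h1.1 i him
          rw [h2] at hκ
          apply hnk
          exact ⟨i, hi, hκ, by rw [h3 hκ] at hne; exact hne⟩
    by_cases hsm : s ≤ U.length
    · -- truncated final stage
      refine ⟨(U.take s).map (fun e => (L.idxOf e, r n0, false)), U.take s, νT, ?_, ?_,
        ?_, ?_, ?_, ?_⟩
      · simp [hsm]
      · intro i hi
        obtain ⟨e, he, rfl⟩ := List.mem_map.1 hi
        exact (hpos e (List.mem_of_mem_take he)).1
      · simp [hsm]
      · exact hUn.sublist (List.take_sublist _ _)
      · intro e he; exact hUok e (List.mem_of_mem_take he)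
      · intro κ' ξ' h1
        have hModt : ModOK κ π (U.take s) := fun e he => hUok e (List.mem_of_mem_take he)
        have hf := hfst (U.take s) νT hModt
          (fun i _ hi2 => hνT i (List.mem_of_mem_take hi2)) κ' ξ' h1
        have hI : (U.take s).map (fun e => ((L.idxOf e, r n0, false) : Info α)) ≠ [] := by
          intro h
          have := congrArg List.length h
          simp at this
          rcases this with h | h
          · omega
          · exact hU0 h
        simp only [dc]
        rw [if_neg hI, hf]
        simp only
        rw [← hL, stageOf_false _ (by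
          intro i hi
          obtain ⟨e, he, rfl⟩ := List.mem_map.1 hi
          rfl)]
        simp only [dc_nil, List.append_nil]
        unfold ents
        rw [List.filterMap_map]
        have : ∀ e ∈ U.take s, ((fun i : Info α => L[i.1]?) ∘
            (fun e => ((L.idxOf e, r n0, false) : Info α))) e = some e := by
          intro e he
          exact (hpos e (List.mem_of_mem_take he)).2
        rw [List.filterMap_congr this]
        simp
    · -- full stage
      push Not at hsm
      obtain ⟨c, hc⟩ : ∃ c : ι → α,
          Hrd r f κ ξ (fun i => if i ∈ U then some (c i) else π i) (s - U.length) := by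
        by_contra hcon
        push Not at hcon
        have hcon' : ∀ c : ι → α, ∃ (D : MT ι α Bool), D.dle (s - U.length - 1) ∧
            ∀ x, Cs r κ ξ (fun i => if i ∈ U then some (c i) else π i) x → D.eval x = f x := by
          intro c
          have := hcon c
          unfold Hrd at this
          push Not at this
          obtain ⟨D, d, h1, h2, h3⟩ := this
          exact ⟨D, MT.dle_mono h2 (by omega), h3⟩
        choose D hD1 hD2 using hcon'
        apply hH
        refine ⟨queryAll (fun c => D c) U (fun _ => r n0),
          U.length + (s - U.length - 1), by omega, ?_, ?_⟩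
        · exact queryAll_dle _ _ (fun c => hD1 c) _ _
        · intro x hx
          rw [queryAll_eval]
          set c : ι → α := fun i => if i ∈ U then x i else r n0 with hcdef
          apply hD2
          refine ⟨hx.1, ?_⟩
          intro i z hz
          by_cases hi : i ∈ U
          · simp only [hi, if_true, Option.some.injEq] at hz
            rw [← hz, hcdef]
            simp [hi]
          · simp only [hi, if_false] at hz
            exact hx.2 i z hz
      set πc : ι → Option α := fun i => if i ∈ U then some (c i) else π i with hπc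
      have hUpos : 0 < U.length := List.length_pos_of_ne_nil hU0
      obtain ⟨I', mods', ν', a1, a2, a3, a4, a5, a6⟩ := ih (s - U.length) (by omega) πc hc
      have hdisj : ∀ i ∈ U, i ∉ mods' := by
        intro i hi hi'
        have := (a5 i hi').2
        simp [hπc, hi] at this
      have hmodsT : ∀ i ∈ t.1, i ∈ mods' → False := by
        intro i hi hi'
        obtain ⟨h1, h2⟩ := a5 i hi'
        have hiU : i ∉ U := fun h => hdisj i h hi'
        simp only [hπc, hiU, if_false] at h2
        exact hiU ((hUmem i).2 ⟨hi, h1, h2⟩)
      -- the last element of U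
      obtain ⟨A, e0, hA⟩ : ∃ A e0, U = A ++ [e0] := by
        rcases List.eq_nil_or_concat U with h | ⟨A, e0, h⟩
        · exact absurd h hU0
        · exact ⟨A, e0, by simpa using h⟩
      let g : Bool → ι → Info α := fun b e => (L.idxOf e, c e, b)
      let S : List (Info α) := A.map (g false) ++ [g true e0]
      have hSlen : S.length = U.length := by
        simp [S, hA]
      have hSmem : ∀ i ∈ S, ∃ e ∈ U, ∃ b, i = g b e := by
        intro i hi
        rcases List.mem_append.1 hi with h | h
        · obtain ⟨e, he, rfl⟩ := List.mem_map.1 h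
          exact ⟨e, by rw [hA]; simp [he], false, rfl⟩
        · simp only [List.mem_singleton] at h
          exact ⟨e0, by rw [hA]; simp, true, h⟩
      have hents : ents L S = U := by
        have h1 : ∀ (b : Bool) (l : List ι), (∀ e ∈ l, e ∈ U) →
            (l.map (g b)).filterMap (fun i => L[i.1]?) = l := by
          intro b l hl
          rw [List.filterMap_map]
          have : ∀ e ∈ l, ((fun i : Info α => L[i.1]?) ∘ (g b)) e = some e := by
            intro e he
            exact (hpos e (hl e he)).2
          rw [List.filterMap_congr this]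
          simp
        unfold ents
        have h2 := h1 false A (fun e he => by rw [hA]; simp [he])
        have h3 := h1 true [e0] (fun e he => by
          simp only [List.mem_singleton] at he
          rw [hA, he]; simp)
        have h4 : S = A.map (g false) ++ [e0].map (g true) := rfl
        rw [h4, List.filterMap_append, h2, h3]
        exact hA.symm
      have hupd : upd L S π = πc := by
        funext b
        unfold upd
        by_cases hb : b ∈ U
        · have hex : ∃ i ∈ S, L[i.1]? = some b := by
            rw [hA] at hb
            rcases List.mem_append.1 hb with h | h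
            · refine ⟨g false b, List.mem_append.2 (Or.inl (List.mem_map_of_mem h)), ?_⟩
              exact (hpos b (by rw [hA]; simp [h])).2
            · simp only [List.mem_singleton] at h
              subst h
              exact ⟨g true b, by simp [S], (hpos b (by rw [hA]; simp)).2⟩
          cases hfind : S.find? (fun i => decide (L[i.1]? = some b)) with
          | none =>
              exfalso
              rw [List.find?_eq_none] at hfind
              obtain ⟨i, hi, hi2⟩ := hex
              have := hfind i hi
              simp [hi2] at this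
          | some i =>
              have h1 := List.find?_some hfind
              have h2 := List.mem_of_find?_eq_some hfind
              obtain ⟨e, he, f', rfl⟩ := hSmem i h2
              simp only [decide_eq_true_eq] at h1
              have h3 : some e = some b := by
                rw [← h1]
                exact (hpos e he).2.symm
              have h4 : e = b := by simpa using h3
              subst h4
              simp [hπc, hb, g]
        · cases hfind : S.find? (fun i => decide (L[i.1]? = some b)) with
          | none => simp [hπc, hb]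
          | some i =>
              exfalso
              have h1 := List.find?_some hfind
              have h2 := List.mem_of_find?_eq_some hfind
              obtain ⟨e, he, f', rfl⟩ := hSmem i h2
              simp only [decide_eq_true_eq] at h1
              have h3 : some e = some b := by
                rw [← h1]
                exact (hpos e he).2.symm
              have h4 : e = b := by simpa using h3
              subst h4
              exact hb he
      have hstage : stageOf (S ++ I') = (S, I') := by
        have h5 : S ++ I' = A.map (g false) ++ g true e0 :: I' := by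
          simp [S]
        rw [h5, stageOf_append _ (by
          intro i hi
          obtain ⟨e, _, rfl⟩ := List.mem_map.1 hi
          rfl) _ rfl]
      have hπnone : ∀ i ∈ mods', π i = none := by
        intro i hi
        have h1 := (a5 i hi).2
        have hiU : i ∉ U := fun h => hdisj i h hi
        simpa [hπc, hiU] using h1
      refine ⟨S ++ I', U ++ mods', fun i => if i ∈ U then νT i else ν' i, ?_, ?_, ?_, ?_, ?_, ?_⟩
      · rw [List.length_append, a1, hSlen]; omega
      · intro i hi
        rcases List.mem_append.1 hi with h | h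
        · obtain ⟨e, he, b, rfl⟩ := hSmem i h
          exact (hpos e he).1
        · exact a2 i h
      · rw [List.length_append, a3]; omega
      · rw [List.nodup_append]
        refine ⟨hUn, a4, ?_⟩
        intro a ha b hb hab
        rw [← hab] at hb
        exact hdisj a ha hb
      · intro i hi
        rcases List.mem_append.1 hi with h | h
        · exact hUok i h
        · exact ⟨(a5 i h).1, hπnone i h⟩
      · intro κ' ξ' h1
        have hf := hfst (U ++ mods') _ (by
          intro i hi
          rcases List.mem_append.1 hi with h | h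
          · exact hUok i h
          · exact ⟨(a5 i h).1, hπnone i h⟩) (by
          intro i hi hi2
          rcases List.mem_append.1 hi2 with h | h
          · simp only [h, if_true]
            exact hνT i h
          · exact (hmodsT i hi h).elim) κ' ξ' h1
        have hI : S ++ I' ≠ [] := by
          simp [S]
        simp only [dc]
        rw [if_neg hI, hf]
        simp only
        rw [← hL, hstage]
        simp only
        rw [hents, hupd]
        congr 1
        apply a6
        constructor
        · intro i hi
          by_cases hiU : i ∈ U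
          · have h2 := (hUok i hiU).1
            refine ⟨by simp [zero, hiU, h2], fun h => absurd h2 h⟩
          · have h2 := h1.1 i (by simp [hiU, hi])
            refine ⟨by simp only [zero, hiU, if_false]; exact h2.1, h2.2⟩
        · intro i hi
          have hiU : i ∉ U := fun h => hdisj i h hi
          have h2 := h1.2 i (by simp [hi])
          refine ⟨by simp only [zero, hiU, if_false]; exact h2.1, ?_⟩
          rw [h2.2]
          simp [hiU]

theorem count2 [Fintype ι] [Fintype α] (w s : ℕ) (f : (ι → α) → Bool)
    (hpc : ∀ x, f x = true → ∃ T : Finset ι, T.card ≤ w ∧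
      ∀ y, (∀ i ∈ T, y i = x i) → f y = true)
    (hr1 : ∀ x i, f x = true → ∃ c : Fin N, f (Function.update x i (r c)) = true) :
    (Finset.univ.filter (fun p : (ι → Fin (R + 1)) × (ι → Fin N) =>
      Hrd r f p.1 p.2 (fun _ => none) s)).card * R ^ s
      ≤ Fintype.card ((ι → Fin (R + 1)) × (ι → Fin N)) * (2 * w * Fintype.card α * N) ^ s := by
  letI : BEq ι := instBEqOfDecidableEq
  set Bad := Finset.univ.filter (fun p : (ι → Fin (R + 1)) × (ι → Fin N) =>
      Hrd r f p.1 p.2 (fun _ => none) s) with hBad
  have hcore : ∀ p : Bad, ∃ (I : List (Info α)) (mods : List ι) (ν : ι → Fin N),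
      I.length = s ∧ (∀ i ∈ I, i.1 < w) ∧
      mods.length = s ∧ mods.Nodup ∧ ModOK p.1.1 (fun _ => none : ι → Option α) mods ∧
      ∀ (κ' : ι → Fin (R + 1)) (ξ' : ι → Fin N), IsMod p.1.1 κ' p.1.2 ξ' mods ν →
        dc r w f s κ' ξ' (fun _ => none) I = mods := by
    intro p
    have := (Finset.mem_filter.1 p.2).2
    exact core2 r w f hpc hr1 _ _ s s le_rfl _ this
  choose I mods ν h1 h2 h3 h4 h5 h6 using hcore
  -- the encoding
  let enc : Bad × (Fin s → Fin R) →
      ((ι → Fin (R + 1)) × (ι → Fin N)) × (Fin s → Fin w × α × Bool × Fin N) :=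
    fun p => ((fun e => if h : e ∈ mods p.1 then
        (p.2 ⟨(mods p.1).idxOf e, by
          have := List.idxOf_lt_length_of_mem h
          rwa [h3] at this⟩).succ else p.1.1.1 e,
        fun e => if e ∈ mods p.1 then ν p.1 e else p.1.1.2 e),
      fun i => (⟨((I p.1)[i.1]'(by rw [h1]; exact i.2)).1, h2 _ _ (List.getElem_mem _)⟩,
        ((I p.1)[i.1]'(by rw [h1]; exact i.2)).2.1, ((I p.1)[i.1]'(by rw [h1]; exact i.2)).2.2,
        p.1.1.2 ((mods p.1)[i.1]'(by rw [h3]; exact i.2))))
  have hdec : ∀ p : Bad × (Fin s → Fin R),
      dc r w f s (enc p).1.1 (enc p).1.2 (fun _ => none) (I p.1) = mods p.1 := by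
    intro p
    apply h6
    constructor
    · intro e he
      simp [enc, he]
    · intro e he
      simp [enc, he]
  have hinj : Function.Injective enc := by
    rintro ⟨p, g⟩ ⟨p', g'⟩ hEq
    have e1 : (enc (p, g)).1 = (enc (p', g')).1 := by rw [hEq]
    have e2 : (enc (p, g)).2 = (enc (p', g')).2 := by rw [hEq]
    have eI : I p = I p' := by
      apply List.ext_getElem
      · rw [h1, h1]
      · intro i hi1 hi2
        have hi : i < s := by rw [h1] at hi1; exact hi1
        have := congrFun e2 ⟨i, hi⟩
        simp only [enc, Prod.mk.injEq, Fin.mk.injEq] at this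
        exact Prod.ext this.1 (Prod.ext this.2.1 this.2.2.1)
    have em : mods p = mods p' := by
      rw [← hdec (p, g), ← hdec (p', g'), e1]
      simp only [eI]
    have ek : p.1.1 = p'.1.1 := by
      funext e
      by_cases he : e ∈ mods p
      · have a1 := (h5 p _ he).1
        have he' : e ∈ mods p' := by rw [← em]; exact he
        have a2 := (h5 p' _ he').1
        rw [a1, a2]
      · have he' : e ∉ mods p' := by rw [← em]; exact he
        have := congrFun (congrArg Prod.fst e1) e
        simpa [enc, he, he'] using this
    have ex : p.1.2 = p'.1.2 := by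
      funext e
      by_cases he : e ∈ mods p
      · have hlt : (mods p).idxOf e < (mods p).length := List.idxOf_lt_length_of_mem he
        have hlt' : (mods p).idxOf e < (mods p').length := by rw [← em]; exact hlt
        have hs : (mods p).idxOf e < s := by rwa [h3] at hlt
        have h8 := congrFun e2 ⟨(mods p).idxOf e, hs⟩
        simp only [enc, Prod.mk.injEq] at h8
        have h9 := h8.2.2.2
        have h10 : (mods p)[(mods p).idxOf e] = e := List.getElem_idxOf hlt
        have h11 : (mods p')[(mods p).idxOf e] = e := by
          simp only [← em]; exact h10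
        rw [h10, h11] at h9
        exact h9
      · have he' : e ∉ mods p' := by rw [← em]; exact he
        have := congrFun (congrArg Prod.snd e1) e
        simpa [enc, he, he'] using this
    have ep : p = p' := Subtype.ext (Prod.ext ek ex)
    subst ep
    refine Prod.ext rfl ?_
    funext i
    have hi : i.1 < (mods p).length := by rw [h3]; exact i.2
    have hmemi : (mods p)[i.1] ∈ mods p := List.getElem_mem _
    have := congrFun (congrArg Prod.fst e1) ((mods p)[i.1])
    simp only [enc, hmemi, dite_true, Fin.succ_inj] at this
    have hidx : (mods p).idxOf (mods p)[i.1] = i.1 := (h4 p).idxOf_getElem i.1 hi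
    have e3 : (⟨(mods p).idxOf (mods p)[i.1], by rw [hidx]; exact i.2⟩ : Fin s) = i :=
      Fin.ext hidx
    rw [e3] at this
    exact this
  have hcard := Fintype.card_le_of_injective enc hinj
  rw [Fintype.card_prod, Fintype.card_prod] at hcard
  simp only [Fintype.card_fun, Fintype.card_fin, Fintype.card_prod, Fintype.card_bool,
    Fintype.card_coe] at hcard ⊢
  calc _ ≤ _ := hcard
    _ = _ := by ring

end Sw2Aux

open Classical in
theorem switch2 {ι α : Type} [Fintype ι] [Fintype α] (N R w s : ℕ) (r : Fin N → α)
    (f : (ι → α) → Bool)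
    (hpc : ∀ x, f x = true → ∃ T : Finset ι, T.card ≤ w ∧
      ∀ y, (∀ i ∈ T, y i = x i) → f y = true)
    (hr1 : ∀ x i, f x = true → ∃ c : Fin N, f (Function.update x i (r c)) = true) :
    (Finset.univ.filter (fun p : (ι → Fin (R + 1)) × (ι → Fin N) =>
        ¬ Sh {i | p.1 i = 0} (r ∘ p.2) s f)).card * R ^ (s + 1)
      ≤ Fintype.card ((ι → Fin (R + 1)) × (ι → Fin N)) *
        (2 * w * Fintype.card α * N) ^ (s + 1) := by
  have hcount := Sw2Aux.count2 (R := R) r w (s + 1) f hpc hr1
  refine le_trans (Nat.mul_le_mul_right _ (Finset.card_le_card ?_)) hcount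
  intro p hp
  simp only [Finset.mem_filter, Finset.mem_univ, true_and] at hp ⊢
  rintro ⟨D, d, hd, hD, hD2⟩
  apply hp
  refine ⟨D, MT.dle_mono hD (by omega), fun x hx => ?_⟩
  symm
  apply hD2
  refine ⟨fun i hi => hx i hi, fun i z hz => by simp at hz⟩

end Pool.Agent.Lib.Pa76659B
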